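import Pool.Agent.L0h36.BF.Switch2

set_option autoImplicit false
set_option linter.unusedSectionVars false

/-!
# The canonical tree of a family of systems
-/

namespace Pool.Agent.L0h36.BF

open Finset

variable {V : Type} [DecidableEq V]

/-- Query all points of a list. -/
def queryAll : List V → (Finset (Finset V) → DT V) → Finset (Finset V) → DT V
  | [], K, m => K m
  | v :: l, K, m => .node v (fun e => queryAll l K (insert e m))

theorem queryAll_br {q : ℕ} (l : List V) (K : Finset (Finset V) → DT V) :
    ∀ (m r : Finset (Finset V)) (b : Bool), PM q m → Br q (queryAll l K m) m r b →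
      ∃ m₁, m ⊆ m₁ ∧ PM q m₁ ∧ (∀ v ∈ l, v ∈ cov m₁) ∧ (∀ e ∈ m₁ \ m, ∃ v ∈ l, v ∈ e) ∧
        Br q (K m₁) m₁ r b := by
  induction l with
  | nil =>
    intro m r b hm h
    exact ⟨m, Finset.Subset.refl _, hm, by simp, by simp, h⟩
  | cons v l ih =>
    intro m r b hm h
    rw [queryAll] at h
    cases h with
    | covered _ _ _ _ _ e he hv h =>
      simp only [Finset.insert_eq_of_mem he] at h
      obtain ⟨m₁, h1, h2, h3, h4, h5⟩ := ih m r b hm h
      refine ⟨m₁, h1, h2, ?_, ?_, h5⟩
      · intro w hw
        rcases List.mem_cons.1 hw with rfl | hw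
        · exact cov_mono h1 (mem_cov.2 ⟨e, he, hv⟩)
        · exact h3 w hw
      · intro f hf
        obtain ⟨w, hw, hwf⟩ := h4 f hf
        exact ⟨w, List.mem_cons_of_mem _ hw, hwf⟩
    | query _ _ _ _ _ e hv' hv hpm h =>
      obtain ⟨m₁, h1, h2, h3, h4, h5⟩ := ih (insert e m) r b hpm h
      refine ⟨m₁, (Finset.subset_insert _ _).trans h1, h2, ?_, ?_, h5⟩
      · intro w hw
        rcases List.mem_cons.1 hw with rfl | hw
        · exact mem_cov.2 ⟨e, h1 (Finset.mem_insert_self _ _), hv⟩
        · exact h3 w hw
      · intro f hf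
        by_cases hfe : f = e
        · exact ⟨v, List.mem_cons_self, hfe ▸ hv⟩
        · rw [Finset.mem_sdiff] at hf
          obtain ⟨w, hw, hwf⟩ := h4 f (Finset.mem_sdiff.2 ⟨hf.1, fun h => by
            rcases Finset.mem_insert.1 h with h | h
            · exact hfe h
            · exact hf.2 h⟩)
          exact ⟨w, List.mem_cons_of_mem _ hw, hwf⟩

open Classical in
/-- The canonical tree of the family `F`. -/
noncomputable def canon (q : ℕ) (F : List (Finset (Finset V))) :
    ℕ → Finset (Finset V) → DT V
  | 0, _ => .leaf false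
  | k + 1, m =>
    match first q F m with
    | none => .leaf false
    | some τ => if τ ⊆ m then .leaf true
        else queryAll (cov (τ \ m)).toList (canon q F k) m

variable [Fintype V]

theorem canon_br {q : ℕ} (hq : 1 ≤ q) (F : List (Finset (Finset V))) :
    ∀ (k : ℕ) (m r : Finset (Finset V)) (b : Bool), PM q m → Fintype.card V < m.card + k →
      Br q (canon q F k m) m r b →
      (b = true → ∃ τ ∈ F, τ ⊆ r) ∧ (b = false → ∀ τ ∈ F, ¬ PM q (r ∪ τ)) := by
  intro k
  induction k with
  | zero =>
    intro m r b hm hk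
    exfalso
    have h1 : q * m.card ≤ Fintype.card V := by
      rw [← hm.card_cov, ← Finset.card_univ]
      exact Finset.card_le_card (Finset.subset_univ _)
    have h2 : m.card ≤ q * m.card := Nat.le_mul_of_pos_left _ hq
    omega
  | succ k ih =>
    intro m r b hm hk h
    rw [canon] at h
    rcases hfi : first q F m with _ | τ
    · rw [hfi] at h
      simp only at h
      cases h with
      | leaf =>
        refine ⟨by simp, fun _ => first_none hfi⟩
    · rw [hfi] at h
      simp only at h
      by_cases hτ : τ ⊆ m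
      · rw [if_pos hτ] at h
        cases h with
        | leaf =>
          exact ⟨fun _ => ⟨τ, first_mem hfi, hτ⟩, by simp⟩
      · rw [if_neg hτ] at h
        obtain ⟨m₁, h1, h2, h3, h4, h5⟩ := queryAll_br _ _ m r b hm h
        have hc : Cov q m (τ \ m) m₁ := by
          refine ⟨h1, h2, fun v hv => h3 v (Finset.mem_toList.2 hv), fun e he => ?_⟩
          obtain ⟨v, hv, hve⟩ := h4 e he
          exact ⟨v, Finset.mem_toList.1 hv, hve⟩
        have hτpm := first_pm hfi
        have hsd : PM q (τ \ m) := hτpm.mono (Finset.sdiff_subset.trans Finset.subset_union_right)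
        have hne : (τ \ m).Nonempty := by
          rw [Finset.sdiff_nonempty]
          exact hτ
        have hlt : m.card < m₁.card := by
          apply Finset.card_lt_card
          refine ⟨h1, fun hm₁m => ?_⟩
          obtain ⟨e, he⟩ := hne
          have hec : 0 < e.card := by
            rw [hsd.1 e he]
            omega
          obtain ⟨v, hv⟩ := Finset.card_pos.1 hec
          have hv1 : v ∈ cov m := cov_mono hm₁m (hc.2.2.1 (mem_cov.2 ⟨e, he, hv⟩))
          obtain ⟨f, hf, hvf⟩ := mem_cov.1 hv1
          rw [Finset.mem_sdiff] at he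
          have : f = e := hτpm.eq_of_mem (Finset.mem_union_left _ hf)
            (Finset.mem_union_right _ he.1) hvf hv
          exact he.2 (this ▸ hf)
        exact ih m₁ r b h2 (by omega) h5

theorem queryAll_reach {q : ℕ} (l : List V) (K : Finset (Finset V) → DT V) :
    ∀ (m r : Finset (Finset V)), PM q m → Reach q (queryAll l K m) m r →
      (PM q r ∧ ∀ e ∈ r \ m, ∃ v ∈ l, v ∈ e) ∨
      ∃ m₁, m ⊆ m₁ ∧ PM q m₁ ∧ (∀ v ∈ l, v ∈ cov m₁) ∧ (∀ e ∈ m₁ \ m, ∃ v ∈ l, v ∈ e) ∧
        Reach q (K m₁) m₁ r := by
  induction l with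
  | nil =>
    intro m r hm h
    exact Or.inr ⟨m, Finset.Subset.refl _, hm, by simp, by simp, h⟩
  | cons v l ih =>
    intro m r hm h
    rw [queryAll] at h
    cases h with
    | here => exact Or.inl ⟨hm, by simp⟩
    | covered _ _ _ _ e he hv h =>
      simp only [Finset.insert_eq_of_mem he] at h
      rcases ih m r hm h with ⟨h1, h2⟩ | ⟨m₁, h1, h2, h3, h4, h5⟩
      · refine Or.inl ⟨h1, fun f hf => ?_⟩
        obtain ⟨w, hw, hwf⟩ := h2 f hf
        exact ⟨w, List.mem_cons_of_mem _ hw, hwf⟩
      · refine Or.inr ⟨m₁, h1, h2, ?_, ?_, h5⟩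
        · intro w hw
          rcases List.mem_cons.1 hw with rfl | hw
          · exact cov_mono h1 (mem_cov.2 ⟨e, he, hv⟩)
          · exact h3 w hw
        · intro f hf
          obtain ⟨w, hw, hwf⟩ := h4 f hf
          exact ⟨w, List.mem_cons_of_mem _ hw, hwf⟩
    | query _ _ _ _ e hv' hv hpm h =>
      rcases ih (insert e m) r hpm h with ⟨h1, h2⟩ | ⟨m₁, h1, h2, h3, h4, h5⟩
      · refine Or.inl ⟨h1, fun f hf => ?_⟩
        by_cases hfe : f = e
        · exact ⟨v, List.mem_cons_self, hfe ▸ hv⟩
        · rw [Finset.mem_sdiff] at hf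
          obtain ⟨w, hw, hwf⟩ := h2 f (Finset.mem_sdiff.2 ⟨hf.1, fun h => by
            rcases Finset.mem_insert.1 h with h | h
            · exact hfe h
            · exact hf.2 h⟩)
          exact ⟨w, List.mem_cons_of_mem _ hw, hwf⟩
      · refine Or.inr ⟨m₁, (Finset.subset_insert _ _).trans h1, h2, ?_, ?_, h5⟩
        · intro w hw
          rcases List.mem_cons.1 hw with rfl | hw
          · exact mem_cov.2 ⟨e, h1 (Finset.mem_insert_self _ _), hv⟩
          · exact h3 w hw
        · intro f hf
          by_cases hfe : f = e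
          · exact ⟨v, List.mem_cons_self, hfe ▸ hv⟩
          · rw [Finset.mem_sdiff] at hf
            obtain ⟨w, hw, hwf⟩ := h4 f (Finset.mem_sdiff.2 ⟨hf.1, fun h => by
              rcases Finset.mem_insert.1 h with h | h
              · exact hfe h
              · exact hf.2 h⟩)
            exact ⟨w, List.mem_cons_of_mem _ hw, hwf⟩

theorem canon_reach {q : ℕ} (F : List (Finset (Finset V))) :
    ∀ (k : ℕ) (m r : Finset (Finset V)), PM q m → Reach q (canon q F k m) m r →
      ∃ j s, Run q F m j s ∧ (r \ m).card ≤ q * j := by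
  intro k
  induction k with
  | zero =>
    intro m r hm h
    rw [canon] at h
    rw [h.leaf_inv]
    exact ⟨0, m, Run.nil m hm, by simp⟩
  | succ k ih =>
    intro m r hm h
    rw [canon] at h
    rcases hfi : first q F m with _ | τ
    · rw [hfi] at h
      simp only at h
      rw [h.leaf_inv]
      exact ⟨0, m, Run.nil m hm, by simp⟩
    · rw [hfi] at h
      simp only at h
      by_cases hτ : τ ⊆ m
      · rw [if_pos hτ] at h
        rw [h.leaf_inv]
        exact ⟨0, m, Run.nil m hm, by simp⟩
      · rw [if_neg hτ] at h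
        have hτpm := first_pm hfi
        have hsd : PM q (τ \ m) := hτpm.mono (Finset.sdiff_subset.trans Finset.subset_union_right)
        rcases queryAll_reach _ _ m r hm h with ⟨h1, h2⟩ | ⟨m₁, h1, h2, h3, h4, h5⟩
        · refine ⟨_, _, Run.last m τ hm hfi hτ, ?_⟩
          rw [← hsd.card_cov]
          refine card_meet h1 fun e he => ?_
          obtain ⟨v, hv, hve⟩ := h2 e he
          exact ⟨v, Finset.mem_toList.1 hv, hve⟩
        · have hc : Cov q m (τ \ m) m₁ := by
            refine ⟨h1, h2, fun v hv => h3 v (Finset.mem_toList.2 hv), fun e he => ?_⟩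
            obtain ⟨v, hv, hve⟩ := h4 e he
            exact ⟨v, Finset.mem_toList.1 hv, hve⟩
          obtain ⟨j, s, h8, h9⟩ := ih m₁ r h2 h5
          refine ⟨_, _, Run.cons m τ m₁ s j hm hfi hτ hc h8, ?_⟩
          have h10 := hc.card
          rw [hsd.card_cov] at h10
          have h11 : r \ m ⊆ (r \ m₁) ∪ (m₁ \ m) := by
            intro e he
            rw [Finset.mem_sdiff] at he
            rw [Finset.mem_union, Finset.mem_sdiff, Finset.mem_sdiff]
            by_cases hem : e ∈ m₁
            · exact Or.inr ⟨hem, he.2⟩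
            · exact Or.inl ⟨he.1, hem⟩
          have h12 := (Finset.card_le_card h11).trans (Finset.card_union_le _ _)
          rw [mul_add]
          omega

/-- If there is no long run, then the canonical tree is shallow. -/
theorem canon_dep {q : ℕ} (F : List (Finset (Finset V))) (m : Finset (Finset V))
    (hm : PM q m) (j0 : ℕ) (h : ∀ j r, Run q F m j r → j < j0) :
    Dep q (canon q F (Fintype.card V + 1) m) m (q * j0) := by
  intro r hb
  obtain ⟨j, s, h1, h2⟩ := canon_reach F _ m r hm hb
  exact h2.trans (Nat.mul_le_mul_left _ (h j s h1).le)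

end Pool.Agent.L0h36.BF
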