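import Pool.Agent.L0h36.BF.Final

set_option autoImplicit false
set_option linter.unusedSectionVars false

/-!
# Degree bounds
-/

namespace Pool.Agent.L0h36.BF

open Finset

namespace Fml

variable {p : ℕ} {α : Type}

theorem depth_le_and {k : ℕ} (f : Fin k → Fml p α) (j : Fin k) :
    (f j).depth ≤ (Fml.and k f).depth :=
  depth_subs (and_mem_subs f j)

theorem depth_le_or {k : ℕ} (f : Fin k → Fml p α) (j : Fin k) :
    (f j).depth ≤ (Fml.or k f).depth :=
  depth_subs (or_mem_subs f j)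

/-- The degree of a formula. -/
theorem Fd_le (t K : ℕ) (hp : 1 ≤ p) (φ : Fml p α) (hK : ∀ ψ ∈ φ.subs, ψ.front ≤ K) :
    Fd t φ ≤ φ.front * (t * (p * (K + 1)) ^ φ.depth) := by
  have hc : 1 ≤ p * (K + 1) := Nat.mul_pos hp (Nat.succ_pos K)
  induction φ with
  | var x => simp [Fd]
  | neg φ ih =>
    rw [Fd, front]
    refine (ih fun ψ hψ => hK ψ (subs_trans hψ (neg_mem_subs φ))).trans ?_
    refine Nat.mul_le_mul_left _ (Nat.mul_le_mul_left _ ?_)
    exact Nat.pow_le_pow_right hc (depth_le_neg φ)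
  | and k f ih =>
    rw [Fd, front, Finset.sum_mul]
    refine Finset.sum_le_sum fun j _ => ?_
    refine (ih j fun ψ hψ => hK ψ (subs_trans hψ (and_mem_subs f j))).trans ?_
    refine Nat.mul_le_mul_left _ (Nat.mul_le_mul_left _ ?_)
    exact Nat.pow_le_pow_right hc (depth_le_and f j)
  | or k f ih =>
    rw [Fd, front, Finset.sum_mul]
    refine Finset.sum_le_sum fun j _ => ?_
    refine (ih j fun ψ hψ => hK ψ (subs_trans hψ (or_mem_subs f j))).trans ?_
    refine Nat.mul_le_mul_left _ (Nat.mul_le_mul_left _ ?_)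
    exact Nat.pow_le_pow_right hc (depth_le_or f j)
  | mod i k f ih =>
    rw [Fd, front, one_mul, depth]
    set m := Finset.univ.sup fun j => (f j).depth with hm
    have h1 : (Finset.univ.sup fun j => Fd t (f j) + t) ≤
        K * (t * (p * (K + 1)) ^ m) + t := by
      refine Finset.sup_le fun j _ => ?_
      refine Nat.add_le_add_right ?_ t
      refine (ih j fun ψ hψ => hK ψ (subs_trans hψ (mod_mem_subs f j))).trans ?_
      refine Nat.mul_le_mul (hK _ (mod_mem_subs f j)) (Nat.mul_le_mul_left _ ?_)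
      exact Nat.pow_le_pow_right hc (Finset.le_sup (f := fun j => (f j).depth)
        (Finset.mem_univ j))
    have h2 : 1 ≤ (p * (K + 1)) ^ m := Nat.one_le_pow _ _ hc
    calc (p - 1) * (Finset.univ.sup fun j => Fd t (f j) + t)
        ≤ p * (K * (t * (p * (K + 1)) ^ m) + t) := Nat.mul_le_mul (Nat.sub_le _ _) h1
      _ ≤ p * (K * (t * (p * (K + 1)) ^ m) + t * (p * (K + 1)) ^ m) := by
          gcongr
          exact Nat.le_mul_of_pos_right _ h2
      _ = t * (p * (K + 1)) ^ (m + 1) := by ring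

end Fml

theorem Fd_occ {p : ℕ} {α : Type} {t K d : ℕ} (hp : 1 ≤ p) {π : List (Fml p α)}
    (hK : ∀ ψ ∈ Occurring π, ψ.front ≤ K) (hd : ∀ A ∈ π, A.depth ≤ d) :
    ∀ ψ ∈ Occurring π, Fml.Fd t ψ ≤ t * (p * (K + 1)) ^ (d + 1) := by
  rintro ψ ⟨A, hA, hs⟩
  have hc : 1 ≤ p * (K + 1) := Nat.mul_pos hp (Nat.succ_pos K)
  refine (Fml.Fd_le t K hp ψ fun χ hχ => hK χ ⟨A, hA, Fml.subs_trans hχ hs⟩).trans ?_
  have h1 : ψ.depth ≤ d := (Fml.depth_subs hs).trans (hd A hA)
  have h2 : ψ.front ≤ p * (K + 1) := by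
    have := hK ψ ⟨A, hA, hs⟩
    calc ψ.front ≤ K + 1 := by omega
      _ ≤ p * (K + 1) := Nat.le_mul_of_pos_left _ hp
  calc ψ.front * (t * (p * (K + 1)) ^ ψ.depth)
      ≤ (p * (K + 1)) * (t * (p * (K + 1)) ^ d) :=
        Nat.mul_le_mul h2 (Nat.mul_le_mul_left _ (Nat.pow_le_pow_right hc h1))
    _ = t * (p * (K + 1)) ^ (d + 1) := by ring

end Pool.Agent.L0h36.BF
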