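import Mathlib

set_option autoImplicit false

/-!
# Bounded-depth Frege systems with modular counting gates

Formulas with unbounded fan-in connectives `∧`, `∨`, with `¬` and with the connectives `MOD_{p,i}`,
their size and depth, a general class of Frege systems for them, and the tautologies which state
that `n` points have no partition into sets of size `q`.
-/

namespace Pool.Agent.L0h36.BF

/-- Formulas over the variables `α`: variables, negation, conjunction and disjunction of any number
of formulas, and the connectives `MOD_{p,i}`. The constants are the conjunction and the disjunction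
of no formulas. -/
inductive Fml (p : ℕ) (α : Type) : Type
  | var (x : α) : Fml p α
  | neg (φ : Fml p α) : Fml p α
  | and (k : ℕ) (f : Fin k → Fml p α) : Fml p α
  | or (k : ℕ) (f : Fin k → Fml p α) : Fml p α
  | mod (i : ZMod p) (k : ℕ) (f : Fin k → Fml p α) : Fml p α

namespace Fml

variable {p : ℕ} {α : Type}

/-- The truth value under an assignment; `mod i k f` is true iff the number of true formulas among
the `f j` is congruent to `i` modulo `p`. -/
def Holds (v : α → Prop) : Fml p α → Prop
  | var x => v x
  | neg φ => ¬ Holds v φ
  | and _ f => ∀ j, Holds v (f j)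
  | or _ f => ∃ j, Holds v (f j)
  | mod i _ f => (({j | Holds v (f j)}.ncard : ℕ) : ZMod p) = i

/-- The number of symbols. -/
def size : Fml p α → ℕ
  | var _ => 1
  | neg φ => φ.size + 1
  | and _ f => (∑ j, (f j).size) + 1
  | or _ f => (∑ j, (f j).size) + 1
  | mod _ _ f => (∑ j, (f j).size) + 1

/-- Is the formula a negation? -/
def isNeg : Fml p α → Bool
  | neg _ => true
  | _ => false

/-- Is the formula a conjunction? -/
def isAnd : Fml p α → Bool
  | and _ _ => true
  | _ => false

/-- Is the formula a disjunction? -/
def isOr : Fml p α → Bool
  | or _ _ => true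
  | _ => false

/-- The depth: the maximal number of connectives on a path from the root to a leaf, where
consecutive negations, consecutive conjunctions and consecutive disjunctions are merged. -/
def depth : Fml p α → ℕ
  | var _ => 0
  | neg φ => if φ.isNeg then φ.depth else φ.depth + 1
  | and _ f => Finset.univ.sup fun j => if (f j).isAnd then (f j).depth else (f j).depth + 1
  | or _ f => Finset.univ.sup fun j => if (f j).isOr then (f j).depth else (f j).depth + 1
  | mod _ _ f => (Finset.univ.sup fun j => (f j).depth) + 1

/-- The subformulas. -/
def subs : Fml p α → Set (Fml p α)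
  | var x => {var x}
  | neg φ => insert (neg φ) φ.subs
  | and k f => insert (and k f) (⋃ j, (f j).subs)
  | or k f => insert (or k f) (⋃ j, (f j).subs)
  | mod i k f => insert (mod i k f) (⋃ j, (f j).subs)

/-- The number of the outermost `MOD` gates: the occurrences of connectives `MOD_{p,i}` in the
formula which do not lie below another connective `MOD_{p,i}`. -/
def front : Fml p α → ℕ
  | var _ => 0
  | neg φ => φ.front
  | and _ f => ∑ j, (f j).front
  | or _ f => ∑ j, (f j).front
  | mod _ _ _ => 1

/-- The truth value which `w` assigns to the formula is correct, given the values which `w` assigns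
to its immediate subformulas. (For the connectives `MOD_{p,i}` this is required only if there are no
immediate subformulas; the other properties of `MOD_{p,i}` are in `ModAxiom`.) -/
def CorrectAt (w : Fml p α → Prop) : Fml p α → Prop
  | var _ => True
  | neg φ => (w (neg φ) ↔ ¬ w φ)
  | and k f => (w (and k f) ↔ ∀ j, w (f j))
  | or k f => (w (or k f) ↔ ∃ j, w (f j))
  | mod i k f => k = 0 → (w (mod i k f) ↔ i = 0)

end Fml

/-- An instance of the defining axiom of `MOD_{p,i}`: the formulas `f` are the formulas `g` and `φ`,
in some order. -/
structure ModAxiom (p : ℕ) (α : Type) where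
  i : ZMod p
  k : ℕ
  φ : Fml p α
  g : Fin k → Fml p α
  f : Fin (k + 1) → Fml p α
  order : Fin (k + 1) ≃ Option (Fin k)
  eq : ∀ j, f j = (order j).elim φ g

namespace ModAxiom

variable {p : ℕ} {α : Type}

/-- The truth values which `w` assigns satisfy the axiom
`MOD_{p,i}(g, φ) ↔ (φ ∧ MOD_{p,i-1}(g)) ∨ (¬φ ∧ MOD_{p,i}(g))`. -/
def Respects (w : Fml p α → Prop) (μ : ModAxiom p α) : Prop :=
  w (.mod μ.i (μ.k + 1) μ.f) ↔
    ((w μ.φ ∧ w (.mod (μ.i - 1) μ.k μ.g)) ∨ (¬ w μ.φ ∧ w (.mod μ.i μ.k μ.g)))

/-- The formulas with connective `MOD` in the axiom. -/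
def formulas (μ : ModAxiom p α) : Set (Fml p α) :=
  {.mod μ.i (μ.k + 1) μ.f, .mod (μ.i - 1) μ.k μ.g, .mod μ.i μ.k μ.g}

end ModAxiom

variable {p : ℕ} {α : Type}

/-- `B` follows from `P` by a sound local inference with at most `L` premises: there are at most `L`
formulas and at most `L` instances of the defining axioms for `MOD_{p,i}`, all with formulas
from `Γ`, such that every assignment of truth values to formulas that is correct at these formulas,
satisfies these instances and makes the premises true makes `B` true. -/
def LocalInference (L : ℕ) (Γ : Set (Fml p α)) (P : List (Fml p α)) (B : Fml p α) : Prop :=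
  P.length ≤ L ∧ ∃ (S : List (Fml p α)) (M : List (ModAxiom p α)),
    S.length ≤ L ∧ M.length ≤ L ∧ (∀ ψ ∈ S, ψ ∈ Γ) ∧ (∀ μ ∈ M, μ.formulas ⊆ Γ) ∧
    ∀ w : Fml p α → Prop, (∀ ψ ∈ S, Fml.CorrectAt w ψ) → (∀ μ ∈ M, μ.Respects w) →
      (∀ A ∈ P, w A) → w B

/-- The formulas which occur in the lines. -/
def Occurring (π : List (Fml p α)) : Set (Fml p α) := {ψ | ∃ A ∈ π, ψ ∈ A.subs}

/-- `π` is a proof: each line follows from earlier lines by a sound local inference with at most
`L` premises, formulas and axioms, the formulas being formulas which occur in `π`. -/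
def IsProof (L : ℕ) (π : List (Fml p α)) : Prop :=
  ∀ (A : Fml p α) (l r : List (Fml p α)), π = l ++ A :: r →
    ∃ P : List (Fml p α), (∀ B ∈ P, B ∈ l) ∧ LocalInference L (Occurring π) P A

/-- The size of a proof: the total size of its lines. -/
def proofSize (π : List (Fml p α)) : ℕ := (π.map Fml.size).sum

/-- Disjunction of a list of formulas. -/
def orL (l : List (Fml p α)) : Fml p α := .or l.length l.get

/-- Conjunction of a list of formulas. -/
def andL (l : List (Fml p α)) : Fml p α := .and l.length l.get

/-- No `q`-element set that contains the point `v` is chosen; the variables are the sets of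
points. -/
noncomputable def uncovered (p q n : ℕ) (v : Fin n) : Fml p (Finset (Fin n)) :=
  andL (((Finset.univ : Finset (Finset (Fin n))).filter (fun e => e.card = q ∧ v ∈ e)).toList.map
    (fun e => .neg (.var e)))

/-- Both `e` and `f` are chosen. -/
def clash (p n : ℕ) (e f : Finset (Fin n)) : Fml p (Finset (Fin n)) :=
  andL [.var e, .var f]

/-- The pairs of different `q`-element sets which intersect. -/
def clashes (q n : ℕ) : Finset (Finset (Fin n) × Finset (Fin n)) :=
  Finset.univ.filter (fun ef => ef.1.card = q ∧ ef.2.card = q ∧ ef.1 ≠ ef.2 ∧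
    ¬ Disjoint ef.1 ef.2)

/-- The formula (with connectives `∧`, `∨`, `¬`) which states that the chosen sets of size `q` are
not a partition of the `n` points: a point is not covered or two of the sets intersect. -/
noncomputable def countFml (p q n : ℕ) : Fml p (Finset (Fin n)) :=
  orL ((Finset.univ : Finset (Fin n)).toList.map (uncovered p q n) ++
    (clashes q n).toList.map (fun ef => clash p n ef.1 ef.2))

end Pool.Agent.L0h36.BF
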