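import Pool.Agent.L0h36.BF.Sound2

set_option autoImplicit false
set_option linter.unusedSectionVars false

/-!
# No proof of the counting principle is true in the local model
-/

namespace Pool.Agent.L0h36.BF

open Finset

theorem sv_eq_self {p : ℕ} {α : Type} (ev : Fml p α → Bool) {φ : Fml p α} (h : φ.front = 0) :
    Fml.sv ev φ = φ := by
  induction φ with
  | var x => rfl
  | neg φ ih =>
    rw [Fml.front] at h
    rw [Fml.sv, ih h]
  | and k f ih =>
    rw [Fml.front, Finset.sum_eq_zero_iff] at h
    rw [Fml.sv]
    congr 1
    exact funext fun j => ih j (h j (Finset.mem_univ j))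
  | or k f ih =>
    rw [Fml.front, Finset.sum_eq_zero_iff] at h
    rw [Fml.sv]
    congr 1
    exact funext fun j => ih j (h j (Finset.mem_univ j))
  | mod i k f ih =>
    rw [Fml.front] at h
    exact absurd h one_ne_zero

theorem front_orL {p : ℕ} {α : Type} {l : List (Fml p α)} (h : ∀ φ ∈ l, φ.front = 0) :
    (orL l).front = 0 := by
  rw [orL, Fml.front]
  exact Finset.sum_eq_zero fun j _ => h _ (List.get_mem l j)

theorem front_andL {p : ℕ} {α : Type} {l : List (Fml p α)} (h : ∀ φ ∈ l, φ.front = 0) :
    (andL l).front = 0 := by
  rw [andL, Fml.front]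
  exact Finset.sum_eq_zero fun j _ => h _ (List.get_mem l j)

theorem front_countFml (p q n : ℕ) : (countFml p q n).front = 0 := by
  unfold countFml
  apply front_orL
  intro φ hφ
  rw [List.mem_append, List.mem_map, List.mem_map] at hφ
  rcases hφ with ⟨v, -, rfl⟩ | ⟨ef, -, rfl⟩
  · unfold uncovered
    apply front_andL
    intro ψ hψ
    rw [List.mem_map] at hψ
    obtain ⟨e, -, rfl⟩ := hψ
    rfl
  · unfold clash
    apply front_andL
    intro ψ hψ
    rw [List.mem_cons, List.mem_singleton] at hψ
    rcases hψ with rfl | rfl <;> rfl

section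

variable {V : Type} [DecidableEq V] {q p : ℕ} {ρ : Finset (Finset V)}
  {T : Fml p (Finset V) → DT V}

/-- The depth of the tree which queries a point and then a variable. -/
theorem dep_node {v : V} {t : ℕ} {s : Finset (Finset V)} (hs : PM q s) (hρs : ρ ⊆ s)
    (hdep : ∀ e : Finset V, e.card = q → v ∈ e → Dep q (T (.var e)) ρ t) :
    Dep q (.node v (fun e => T (.var e))) s (t + 1) := by
  intro r hr
  cases hr with
  | here => simp
  | covered _ _ _ _ e he hv h =>
    have h1 := (hdep e (hs.1 e he) hv).mono hs hρs
    exact (h1 r h).trans (Nat.le_succ _)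
  | query _ _ _ _ e hv' hv hpm h =>
    have hec := hpm.1 e (Finset.mem_insert_self _ _)
    have h1 := ((hdep e hec hv).mono hpm (hρs.trans (Finset.subset_insert _ _))) r h
    have h2 : r \ s ⊆ insert e (r \ insert e s) := by
      intro x hx
      simp only [Finset.mem_sdiff, Finset.mem_insert] at hx ⊢
      tauto
    exact (Finset.card_le_card h2).trans ((Finset.card_insert_le _ _).trans (by omega))

end

/-- The counting principle has no proof if there is a model with these parameters. -/
theorem no_proof {F : Type} [Field F] {n p q D t X : ℕ} [Fact p.Prime] [CharP F p]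
    {ρ : Finset (Finset (Fin n))} (MD : Model F q (Finset.univ \ cov ρ) D)
    (T : Fml p (Finset (Fin n)) → DT (Fin n)) {π : List (Fml p (Finset (Fin n)))}
    (hρ : PM q ρ) (hT : ∀ ψ ∈ GG π, Dep q (T ψ) ρ t ∧ LC q T ρ ψ)
    (hX : ∀ ψ ∈ Occurring π, Fml.Fd t ψ ≤ X)
    {L : ℕ} (hD : (3 * L + 4) * (X + t) + 2 ≤ D) (hL : IsProof L π) :
    countFml p q n ∉ π := by
  classical
  intro hC
  have hD' : 4 * (X + t) + 2 ≤ D := by
    refine le_trans ?_ hD
    have : 4 * (X + t) ≤ (3 * L + 4) * (X + t) := Nat.mul_le_mul_right _ (by omega)
    omega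
  set C := countFml p q n with hCdef
  have hCocc : C ∈ Occurring π := ⟨C, hC, Fml.self_mem_subs C⟩
  have hCG : C ∈ GG π := by
    have := sv_mem_GG (fun _ => false) hCocc
    rwa [sv_eq_self _ (front_countFml p q n)] at this
  have hcl := closed_GG π
  have h1 : (ind (fun y => vl MD T y C = false) : MD.Y → F) ∈ MD.K :=
    all_lines MD T hρ hT hX hD hL C hC
  have h2 : (ind (fun y => vl MD T y C = false) : MD.Y → F) ∈ MD.A (X + t) := by
    refine MD.mono (Nat.add_le_add_right (hX C hCocc) t) (vl_mem' MD T hρ C ?_)
    intro ψ hψ χ hχ
    exact (hT χ (mem_GG.2 (Or.inl ⟨ψ, ⟨C, hC, hψ⟩, hχ⟩))).1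
  apply MD.one_not
  have hxρ : xr MD ρ = (1 : MD.Y → F) := ind_true (fun y => rho_sub MD y)
  have key : xr MD ρ * 1 ∈ MD.K := by
    refine refine_tree MD hρ (T C) ρ t 0 1 (Finset.Subset.refl _) (hT C hCG).1 MD.one ?_ ?_
    · rw [Finset.sdiff_self, Finset.card_empty]
      omega
    intro s b hs
    have hρs := hs.subset
    have hsp : PM q s := hs.pm hρ
    have hsc : (s \ ρ).card ≤ t := (hT C hCG).1 s hs.reach
    cases b with
    | false =>
      have heq : xr MD s * 1 = xr MD s * (ind (fun y => vl MD T y C = false) : MD.Y → F) := by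
        ext y
        rw [Pi.mul_apply, Pi.mul_apply, Pi.one_apply]
        by_cases h : s ⊆ RR MD y
        · have h3 : vl MD T y C = false :=
            vl_eq MD T hρ hs y h (sv_eq_self _ (front_countFml p q n))
          rw [ind_pos (fun y => vl MD T y C = false) h3]
        · have h3 : (xr MD s y : F) = 0 := ind_neg (fun y => s ⊆ RR MD y) h
          rw [h3, zero_mul, zero_mul]
      rw [heq]
      exact MD.closed h1 h2 (xr_mem MD s) (by omega)
    | true =>
      have hLC := (hT C hCG).2
      have hCor : C = .or (((Finset.univ : Finset (Fin n)).toList.map (uncovered p q n) ++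
        (clashes q n).toList.map (fun ef => clash p n ef.1 ef.2)).length)
        (((Finset.univ : Finset (Fin n)).toList.map (uncovered p q n) ++
        (clashes q n).toList.map (fun ef => clash p n ef.1 ef.2)).get) := rfl
      rw [hCor] at hs
      rw [hCor, LC] at hLC
      obtain ⟨ξ, hξ, τ, hτ, hτs⟩ := hLC.1 s hs
      rw [Fml.orLeaves, Set.mem_iUnion] at hξ
      obtain ⟨j, hj⟩ := hξ
      have hmem := List.get_mem ((Finset.univ : Finset (Fin n)).toList.map (uncovered p q n) ++
        (clashes q n).toList.map (fun ef => clash p n ef.1 ef.2)) j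
      have hGj : (((Finset.univ : Finset (Fin n)).toList.map (uncovered p q n) ++
        (clashes q n).toList.map (fun ef => clash p n ef.1 ef.2)).get j) ∈ GG π :=
        hcl.2.2 _ _ (hCor ▸ hCG) j
      revert hj hmem hGj
      generalize ((Finset.univ : Finset (Fin n)).toList.map (uncovered p q n) ++
        (clashes q n).toList.map (fun ef => clash p n ef.1 ef.2)).get j = ζ
      intro hj hmem hGj
      rw [List.mem_append, List.mem_map, List.mem_map] at hmem
      rcases hmem with ⟨v, -, rfl⟩ | ⟨⟨e, f⟩, hef, rfl⟩
      · -- a point is not covered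
        have hξeq : ξ = uncovered p q n v := by
          rw [Fml.orLeaves_of_not_isOr (by rfl)] at hj
          exact hj
        rw [hξeq] at hτ
        set lst : List (Fml p (Finset (Fin n))) :=
          (((Finset.univ : Finset (Finset (Fin n))).filter
            (fun e => e.card = q ∧ v ∈ e)).toList.map (fun e => .neg (.var e))) with hlst
        have hu : uncovered p q n v = .and lst.length lst.get := rfl
        rw [hu] at hτ hGj
        have hGg : ∀ j, lst.get j ∈ GG π := fun j => hcl.2.1 _ _ hGj j
        have h3 := rep_and_true (hT _ hGj).2 (fun j => (hT _ (hGg j)).2) hτ hτs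
        have h4 : ∀ e : Finset (Fin n), e.card = q → v ∈ e →
            (Fml.neg (.var e) : Fml p (Finset (Fin n))) ∈ GG π ∧
            NoBr q (T (.neg (.var e))) ρ s false := by
          intro e he hve
          have h5 : (Fml.neg (.var e) : Fml p (Finset (Fin n))) ∈ lst := by
            rw [hlst, List.mem_map]
            exact ⟨e, by simp [he, hve], rfl⟩
          obtain ⟨j, hj⟩ := List.get_of_mem h5
          rw [← hj]
          exact ⟨hGg j, h3 j⟩
        have h5 : ∀ e : Finset (Fin n), e.card = q → v ∈ e →
            (Fml.var e : Fml p (Finset (Fin n))) ∈ GG π ∧ NoBr q (T (.var e)) ρ s true := by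
          intro e he hve
          obtain ⟨h6, h7⟩ := h4 e he hve
          refine ⟨hcl.1 _ h6, ?_⟩
          have h8 := (hT _ h6).2
          rw [LC] at h8
          rw [h8] at h7
          intro s' hs'
          exact h7 s' (Br.flip_iff.2 hs')
        refine refine_tree MD hρ (.node v (fun e => T (.var e))) s (t + 1) 0 1 hρs
          (dep_node hsp hρs fun e he hve => (hT _ (h5 e he hve).1).1) MD.one
          (by omega) fun s' b' hs' => ?_
        exfalso
        have hsp' : PM q s' := hs'.pm hsp
        have hfin : ∃ (e : Finset (Fin n)) (m : Finset (Finset (Fin n))), v ∈ e ∧ e ∈ s' ∧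
            Br q (T (.var e)) ρ m b' ∧ m ⊆ s' := by
          cases hs' with
          | covered _ _ _ _ _ e he hv h =>
            obtain ⟨m, hm, hsm⟩ := h.restrict hsp ρ hρs
            refine ⟨e, m, hv, h.subset he, hm, ?_⟩
            rw [hsm]
            exact Finset.subset_union_right
          | query _ _ _ _ _ e hv' hv hpm h =>
            obtain ⟨m, hm, hsm⟩ := h.restrict hpm ρ (hρs.trans (Finset.subset_insert _ _))
            refine ⟨e, m, hv, h.subset (Finset.mem_insert_self _ _), hm, ?_⟩
            rw [hsm]
            exact Finset.subset_union_right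
        obtain ⟨e, m, hve, hes, hm, hms⟩ := hfin
        obtain ⟨h6, h7⟩ := h5 e (hsp'.1 e hes) hve
        cases b' with
        | true => exact h7 m hm (hsp'.mono (Finset.union_subset hs'.subset hms))
        | false =>
          have h8 := (hT _ h6).2
          rw [LC] at h8
          exact h8.2 m hm (hsp'.mono (Finset.insert_subset hes hms))
      · -- two sets intersect
        have hξeq : ξ = clash p n e f := by
          rw [Fml.orLeaves_of_not_isOr (by rfl)] at hj
          exact hj
        rw [hξeq] at hτ
        have hu : clash p n e f = .and ([.var e, .var f] : List (Fml p (Finset (Fin n)))).length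
          ([.var e, .var f] : List (Fml p (Finset (Fin n)))).get := rfl
        simp only [hu] at hGj
        rw [hu] at hτ
        have hGg := fun j => hcl.2.1 _ _ hGj j
        have h3 := rep_and_true (hT _ hGj).2 (fun j => (hT _ (hGg j)).2) hτ hτs
        have hGe : (Fml.var e : Fml p (Finset (Fin n))) ∈ GG π := hGg ⟨0, by simp⟩
        have hGf : (Fml.var f : Fml p (Finset (Fin n))) ∈ GG π := hGg ⟨1, by simp⟩
        have hNe : NoBr q (T (.var e)) ρ s false := h3 ⟨0, by simp⟩
        have hNf : NoBr q (T (.var f)) ρ s false := h3 ⟨1, by simp⟩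
        refine refine_list MD hρ t [T (.var e), T (.var f)] s 0 1 hρs hsp ?_ MD.one ?_ ?_
        · intro T' hT'
          rw [List.mem_cons, List.mem_singleton] at hT'
          rcases hT' with rfl | rfl
          · exact (hT _ hGe).1
          · exact (hT _ hGf).1
        · simp only [List.length_cons, List.length_nil]
          omega
        · intro r hsr hr _ hbr
          exfalso
          obtain ⟨me, be, hme, hmer⟩ := hbr (T (.var e)) (by simp)
          obtain ⟨mf, bf, hmf, hmfr⟩ := hbr (T (.var f)) (by simp)
          have hbe : be = true := by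
            cases be with
            | true => rfl
            | false => exact absurd (hr.mono (Finset.union_subset hsr hmer)) (hNe me hme)
          have hbf : bf = true := by
            cases bf with
            | true => rfl
            | false => exact absurd (hr.mono (Finset.union_subset hsr hmfr)) (hNf mf hmf)
          subst hbe hbf
          have hLe := (hT _ hGe).2
          have hLf := (hT _ hGf).2
          rw [LC] at hLe hLf
          have he := hmer (hLe.1 me hme)
          have hf := hmfr (hLf.1 mf hmf)
          rw [Finset.mem_toList, clashes, Finset.mem_filter] at hef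
          exact hef.2.2.2.2 (hr.2 e he f hf hef.2.2.2.1)
  rwa [hxρ, one_mul] at key

end Pool.Agent.L0h36.BF
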