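import Mathlib

set_option autoImplicit false
set_option linter.unusedSectionVars false

/-!
# Functions of low degree on a power of `ZMod q`, and the space of negligible functions
-/

namespace Pool.Agent.L0h36.BF

open Finset

section

variable {q : ℕ} [NeZero q] {ι : Type} [Fintype ι] [DecidableEq ι]

/-- Number of non-zero coordinates. -/
def nz (A : ι → ZMod q) : ℕ := (Finset.univ.filter (fun e => A e ≠ 0)).card

theorem nz_add (A B : ι → ZMod q) : nz (A + B) ≤ nz A + nz B := by
  unfold nz
  refine le_trans (Finset.card_le_card ?_) (Finset.card_union_le _ _)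
  intro e he
  simp only [Finset.mem_filter, Finset.mem_univ, true_and, Pi.add_apply, Finset.mem_union] at he ⊢
  by_contra h
  push Not at h
  exact he (by rw [h.1, h.2, add_zero])

theorem nz_neg (A : ι → ZMod q) : nz (-A) = nz A := by
  unfold nz
  congr 1
  ext e
  simp

theorem nz_sub (A B : ι → ZMod q) : nz (A - B) ≤ nz A + nz B := by
  rw [sub_eq_add_neg]
  exact (nz_add _ _).trans (by rw [nz_neg])

theorem nz_zero : nz (0 : ι → ZMod q) = 0 := by
  simp [nz]

theorem nz_eq_zero {A : ι → ZMod q} (h : nz A = 0) : A = 0 := by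
  unfold nz at h
  rw [Finset.card_eq_zero, Finset.filter_eq_empty_iff] at h
  ext e
  have := h (Finset.mem_univ e)
  simpa using this

def dot (A a : ι → ZMod q) : ZMod q := ∑ e, A e * a e

theorem dot_add_left (A B a : ι → ZMod q) : dot (A + B) a = dot A a + dot B a := by
  simp [dot, add_mul, Finset.sum_add_distrib]

theorem dot_neg_left (A a : ι → ZMod q) : dot (-A) a = - dot A a := by
  simp [dot, Finset.sum_neg_distrib]

theorem dot_sub_left (A B a : ι → ZMod q) : dot (A - B) a = dot A a - dot B a := by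
  rw [sub_eq_add_neg, dot_add_left, dot_neg_left, sub_eq_add_neg]

theorem dot_comm (A a : ι → ZMod q) : dot A a = dot a A := by
  simp [dot, mul_comm]

theorem dot_add_right (A a b : ι → ZMod q) : dot A (a + b) = dot A a + dot A b := by
  rw [dot_comm, dot_add_left, dot_comm a, dot_comm b]

theorem dot_single_right (A : ι → ZMod q) (e : ι) (x : ZMod q) :
    dot A (Pi.single e x) = A e * x := by
  unfold dot
  rw [Finset.sum_eq_single e]
  · simp
  · intro f _ hf
    simp [Pi.single_eq_of_ne hf]
  · simp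

theorem dot_zero_left (a : ι → ZMod q) : dot 0 a = 0 := by simp [dot]

variable {F : Type} [Field F] (ψ : AddChar (ZMod q) F)

/-- The characters. -/
def chi (A : ι → ZMod q) : (ι → ZMod q) → F := fun a => ψ (dot A a)

theorem chi_mul (A B : ι → ZMod q) : chi ψ A * chi ψ B = chi ψ (A + B) := by
  ext a
  simp only [chi, Pi.mul_apply, dot_add_left, AddChar.map_add_eq_mul]

theorem chi_zero : chi ψ (0 : ι → ZMod q) = 1 := by
  ext a
  simp [chi, dot_zero_left]

/-- Fourier coefficients (not normalised). -/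
def ft (f : (ι → ZMod q) → F) (A : ι → ZMod q) : F := ∑ a, f a * ψ (-(dot A a))

theorem ft_add (f g : (ι → ZMod q) → F) (A : ι → ZMod q) :
    ft ψ (f + g) A = ft ψ f A + ft ψ g A := by
  simp [ft, add_mul, Finset.sum_add_distrib]

theorem ft_smul (c : F) (f : (ι → ZMod q) → F) (A : ι → ZMod q) :
    ft ψ (c • f) A = c * ft ψ f A := by
  simp [ft, Finset.mul_sum, mul_assoc]

theorem ft_zero (A : ι → ZMod q) : ft ψ 0 A = 0 := by simp [ft]

theorem ft_chi_mul (B : ι → ZMod q) (f : (ι → ZMod q) → F) (A : ι → ZMod q) :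
    ft ψ (chi ψ B * f) A = ft ψ f (A - B) := by
  unfold ft
  refine Finset.sum_congr rfl fun a _ => ?_
  simp only [Pi.mul_apply, chi]
  have : -(dot (A - B) a) = dot B a + -(dot A a) := by rw [dot_sub_left]; ring
  rw [this, AddChar.map_add_eq_mul]
  ring

variable (hψ : ∀ x : ZMod q, x ≠ 0 → ψ x ≠ 1)

include hψ

theorem sum_char_eq_zero {C : ι → ZMod q} (hC : C ≠ 0) : ∑ a, ψ (dot C a) = 0 := by
  obtain ⟨e, he⟩ : ∃ e, C e ≠ 0 := by
    by_contra h
    push Not at h
    exact hC (funext h)
  have h1 : ∑ a : ι → ZMod q, ψ (dot C (a + Pi.single e 1)) = ∑ a : ι → ZMod q, ψ (dot C a) :=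
    Fintype.sum_equiv (Equiv.addRight (Pi.single e (1 : ZMod q) : ι → ZMod q)) _ _
      (fun a => by rw [Equiv.coe_addRight])
  have h2 : ∀ a : ι → ZMod q, ψ (dot C (a + Pi.single e 1)) = ψ (C e) * ψ (dot C a) := by
    intro a
    rw [dot_add_right, dot_single_right, mul_one, AddChar.map_add_eq_mul, mul_comm]
  rw [Finset.sum_congr rfl (fun a _ => h2 a), ← Finset.mul_sum] at h1
  have h3 : (ψ (C e) - 1) * ∑ a, ψ (dot C a) = 0 := by
    rw [sub_mul, one_mul, h1, sub_self]
  rcases mul_eq_zero.1 h3 with h | h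
  · exact absurd (sub_eq_zero.1 h) (hψ _ he)
  · exact h

theorem ft_chi (B A : ι → ZMod q) :
    ft ψ (chi ψ B) A = if A = B then ((q : F) ^ Fintype.card ι) else 0 := by
  have h1 : ft ψ (chi ψ B) A = ∑ a, ψ (dot (B - A) a) := by
    unfold ft chi
    refine Finset.sum_congr rfl fun a _ => ?_
    rw [← AddChar.map_add_eq_mul, dot_sub_left, sub_eq_add_neg]
  rw [h1]
  split_ifs with h
  · subst h
    simp [dot_zero_left]
  · exact sum_char_eq_zero ψ hψ (fun h' => h (sub_eq_zero.1 h').symm)

theorem inversion (f : (ι → ZMod q) → F) (a : ι → ZMod q) :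
    ∑ A, ft ψ f A * chi ψ A a = ((q : F) ^ Fintype.card ι) * f a := by
  have h1 : ∀ A : ι → ZMod q, ft ψ f A * chi ψ A a = ∑ b, f b * ψ (dot (a - b) A) := by
    intro A
    unfold ft chi
    rw [Finset.sum_mul]
    refine Finset.sum_congr rfl fun b _ => ?_
    rw [mul_assoc, ← AddChar.map_add_eq_mul]
    congr 2
    rw [dot_sub_left, dot_comm a A, dot_comm b A]
    ring
  rw [Finset.sum_congr rfl (fun A _ => h1 A), Finset.sum_comm]
  rw [Finset.sum_eq_single a]
  · rw [← Finset.mul_sum]
    simp [dot_zero_left, mul_comm]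
  · intro b _ hb
    rw [← Finset.mul_sum, sum_char_eq_zero ψ hψ (fun h => hb (sub_eq_zero.1 h).symm), mul_zero]
  · simp

omit hψ

/-- Functions of degree at most `i`. -/
def AA (i : ℕ) : Submodule F ((ι → ZMod q) → F) :=
  Submodule.span F {f | ∃ A : ι → ZMod q, nz A ≤ i ∧ f = chi ψ A}

theorem chi_mem_AA {A : ι → ZMod q} {i : ℕ} (h : nz A ≤ i) : chi ψ A ∈ AA ψ (ι := ι) i :=
  Submodule.subset_span ⟨A, h, rfl⟩

theorem AA_mono {i j : ℕ} (h : i ≤ j) : AA ψ (ι := ι) i ≤ AA ψ j := by
  apply Submodule.span_mono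
  rintro f ⟨A, hA, rfl⟩
  exact ⟨A, hA.trans h, rfl⟩

theorem one_mem_AA (i : ℕ) : (1 : (ι → ZMod q) → F) ∈ AA ψ (ι := ι) i := by
  rw [← chi_zero ψ]
  exact chi_mem_AA ψ (by rw [nz_zero]; exact Nat.zero_le _)

theorem mul_mem_AA {i j : ℕ} {f g : (ι → ZMod q) → F} (hf : f ∈ AA ψ (ι := ι) i)
    (hg : g ∈ AA ψ (ι := ι) j) : f * g ∈ AA ψ (ι := ι) (i + j) := by
  induction hf using Submodule.span_induction with
  | mem f hf =>
    obtain ⟨A, hA, rfl⟩ := hf
    induction hg using Submodule.span_induction with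
    | mem g hg =>
      obtain ⟨B, hB, rfl⟩ := hg
      rw [chi_mul]
      exact chi_mem_AA ψ ((nz_add _ _).trans (Nat.add_le_add hA hB))
    | zero => rw [mul_zero]; exact Submodule.zero_mem _
    | add x y _ _ hx hy => rw [mul_add]; exact Submodule.add_mem _ hx hy
    | smul a x _ hx => rw [mul_smul_comm]; exact Submodule.smul_mem _ _ hx
  | zero => rw [zero_mul]; exact Submodule.zero_mem _
  | add x y _ _ hx hy => rw [add_mul]; exact Submodule.add_mem _ hx hy
  | smul a x _ hx => rw [smul_mul_assoc]; exact Submodule.smul_mem _ _ hx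

include hψ

theorem ft_of_mem_AA {i : ℕ} {f : (ι → ZMod q) → F} (hf : f ∈ AA ψ (ι := ι) i)
    {A : ι → ZMod q} (hA : ft ψ f A ≠ 0) : nz A ≤ i := by
  by_contra hlt
  apply hA
  clear hA
  induction hf using Submodule.span_induction with
  | mem f hf =>
    obtain ⟨B, hB, rfl⟩ := hf
    rw [ft_chi ψ hψ, if_neg]
    rintro rfl
    exact hlt hB
  | zero => exact ft_zero ψ A
  | add x y _ _ hx hy => rw [ft_add, hx, hy, add_zero]
  | smul a x _ hx => rw [ft_smul, hx, mul_zero]

theorem mem_AA_of_ft (hq : (q : F) ≠ 0) {i : ℕ} {f : (ι → ZMod q) → F}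
    (h : ∀ A : ι → ZMod q, ft ψ f A ≠ 0 → nz A ≤ i) : f ∈ AA ψ (ι := ι) i := by
  have h1 : f = (((q : F) ^ Fintype.card ι)⁻¹) • ∑ A, ft ψ f A • chi ψ A := by
    ext a
    simp only [Pi.smul_apply, Finset.sum_apply, smul_eq_mul]
    rw [inversion ψ hψ, inv_mul_cancel_left₀ (pow_ne_zero _ hq)]
  rw [h1]
  refine Submodule.smul_mem _ _ (Submodule.sum_mem _ fun A _ => ?_)
  by_cases hA : ft ψ f A = 0
  · rw [hA, zero_smul]; exact Submodule.zero_mem _
  · exact Submodule.smul_mem _ _ (chi_mem_AA ψ (h A hA))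

/-- A function of the coordinates in `S` has degree at most `|S|`. -/
theorem junta (hq : (q : F) ≠ 0) (S : Finset ι) {f : (ι → ZMod q) → F}
    (h : ∀ a b : ι → ZMod q, (∀ e ∈ S, a e = b e) → f a = f b) :
    f ∈ AA ψ (ι := ι) S.card := by
  apply mem_AA_of_ft ψ hψ hq
  intro A hA
  refine Finset.card_le_card ?_
  intro e he
  rw [Finset.mem_filter] at he
  by_contra heS
  apply hA
  have h1 : ft ψ f A = ∑ a : ι → ZMod q,
      f (a + Pi.single e 1) * ψ (-(dot A (a + Pi.single e 1))) := by
    unfold ft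
    symm
    exact Fintype.sum_equiv (Equiv.addRight (Pi.single e (1 : ZMod q) : ι → ZMod q)) _ _
      (fun a => by rw [Equiv.coe_addRight])
  have h2 : ∀ a : ι → ZMod q, f (a + Pi.single e 1) * ψ (-(dot A (a + Pi.single e 1))) =
      ψ (-(A e)) * (f a * ψ (-(dot A a))) := by
    intro a
    have h3 : f (a + Pi.single e 1) = f a := by
      apply h
      intro e' he'
      have : e' ≠ e := by rintro rfl; exact heS he'
      simp [Pi.single_eq_of_ne this]
    rw [h3, dot_add_right, dot_single_right, mul_one, neg_add, AddChar.map_add_eq_mul]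
    ring
  rw [Finset.sum_congr rfl (fun a _ => h2 a), ← Finset.mul_sum] at h1
  change ft ψ f A = ψ (-(A e)) * ft ψ f A at h1
  have h4 : (ψ (-(A e)) - 1) * ft ψ f A = 0 := by
    rw [sub_mul, one_mul, ← h1, sub_self]
  rcases mul_eq_zero.1 h4 with h5 | h5
  · exact absurd (sub_eq_zero.1 h5) (hψ _ (neg_ne_zero.2 he.2))
  · exact h5

end

section

variable {q : ℕ} [NeZero q] {m : ℕ} {F : Type} [Field F] (ψ : AddChar (ZMod q) F)

/-- The coboundary of a function on the vertices. -/
def dd (g : Fin m → ZMod q) : Fin m × Fin m → ZMod q := fun e => g e.1 - g e.2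

theorem dd_add (g h : Fin m → ZMod q) : dd (g + h) = dd g + dd h := by
  ext e; simp [dd]; ring

theorem dd_sub (g h : Fin m → ZMod q) : dd (g - h) = dd g - dd h := by
  ext e; simp [dd]; ring

theorem nz_dd (g : Fin m → ZMod q) : nz g * (m - nz g) ≤ nz (dd g) := by
  have h1 : nz g * (m - nz g) = ((Finset.univ.filter (fun u => g u ≠ 0)) ×ˢ
      (Finset.univ.filter (fun u => ¬ g u ≠ 0))).card := by
    rw [Finset.card_product]
    have := Finset.card_filter_add_card_filter_not (s := (Finset.univ : Finset (Fin m)))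
      (fun u => g u ≠ 0)
    rw [Finset.card_univ, Fintype.card_fin] at this
    unfold nz
    congr 1
    omega
  rw [h1]
  refine Finset.card_le_card ?_
  rintro ⟨u, v⟩ huv
  simp only [Finset.mem_product, Finset.mem_filter, Finset.mem_univ, true_and, ne_eq,
    not_not] at huv ⊢
  simp [dd, huv.1, huv.2]

variable (b s : ℕ) (c : Fin m → ZMod q)

/-- The value of a function at the class of `C`. -/
def Val (f : (Fin m × Fin m → ZMod q) → F) (C : Fin m × Fin m → ZMod q) : F :=
  ∑ g ∈ (Finset.univ : Finset (Fin m → ZMod q)).filter (fun g => nz g ≤ b),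
    ft ψ f (C + dd g) * ψ (dot g c)

/-- The negligible functions. -/
def KK : Submodule F ((Fin m × Fin m → ZMod q) → F) where
  carrier := {f | ∀ C, nz C ≤ s → Val ψ b c f C = 0}
  zero_mem' := by
    intro C _
    simp [Val, ft_zero]
  add_mem' := by
    intro f g hf hg C hC
    have h1 := hf C hC
    have h2 := hg C hC
    unfold Val at h1 h2 ⊢
    simp only [ft_add, add_mul, Finset.sum_add_distrib, h1, h2, add_zero]
  smul_mem' := by
    intro a f hf C hC
    have h1 := hf C hC
    unfold Val at h1 ⊢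
    simp only [ft_smul, mul_assoc, ← Finset.mul_sum, h1, mul_zero]

theorem mem_KK {f : (Fin m × Fin m → ZMod q) → F} :
    f ∈ KK ψ b s c ↔ ∀ C, nz C ≤ s → Val ψ b c f C = 0 := Iff.rfl

theorem shift_sum (φ : (Fin m → ZMod q) → F) (g0 : Fin m → ZMod q)
    (h : ∀ g, φ g ≠ 0 → (nz g ≤ b ∨ nz (g - g0) ≤ b) → (nz g ≤ b ∧ nz (g - g0) ≤ b)) :
    ∑ g ∈ (Finset.univ : Finset (Fin m → ZMod q)).filter (fun g => nz g ≤ b), φ g =
      ∑ g ∈ (Finset.univ : Finset (Fin m → ZMod q)).filter (fun g => nz g ≤ b), φ (g + g0) := by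
  rw [Finset.sum_filter, Finset.sum_filter]
  rw [← Equiv.sum_comp (Equiv.subRight g0)
    (fun g => if nz g ≤ b then φ (g + g0) else 0)]
  refine Finset.sum_congr rfl fun g _ => ?_
  simp only [Equiv.subRight_apply, sub_add_cancel]
  by_cases hφ : φ g = 0
  · simp [hφ]
  · have := h g hφ
    by_cases h1 : nz g ≤ b
    · rw [if_pos h1, if_pos (this (Or.inl h1)).2]
    · rw [if_neg h1, if_neg (fun h2 => h1 (this (Or.inr h2)).1)]

variable (hψ : ∀ x : ZMod q, x ≠ 0 → ψ x ≠ 1)
variable (hexp : ∀ g : Fin m → ZMod q, nz g ≤ 2 * b → nz (dd g) ≤ 2 * s → nz g ≤ b)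

include hψ hexp

theorem KK_chi_mul {i : ℕ} {f : (Fin m × Fin m → ZMod q) → F} (hf : f ∈ KK ψ b s c)
    (hfi : f ∈ AA ψ (ι := Fin m × Fin m) i) {B : Fin m × Fin m → ZMod q}
    (hB : i + nz B ≤ s) : chi ψ B * f ∈ KK ψ b s c := by
  intro C hC
  unfold Val
  simp only [ft_chi_mul]
  by_cases hall : ∀ g ∈ (Finset.univ : Finset (Fin m → ZMod q)).filter (fun g => nz g ≤ b),
      ft ψ f (C + dd g - B) * ψ (dot g c) = 0
  · exact Finset.sum_eq_zero hall
  · push Not at hall
    obtain ⟨g0, hg0, hg0'⟩ := hall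
    rw [Finset.mem_filter] at hg0
    have h0 := ft_of_mem_AA ψ hψ hfi (left_ne_zero_of_mul hg0')
    rw [shift_sum b (fun g => ft ψ f (C + dd g - B) * ψ (dot g c)) g0]
    · have h1 := hf (C + dd g0 - B) (h0.trans (by omega))
      unfold Val at h1
      have h2 : ∀ g : Fin m → ZMod q, ft ψ f (C + dd (g + g0) - B) * ψ (dot (g + g0) c) =
          ψ (dot g0 c) * (ft ψ f (C + dd g0 - B + dd g) * ψ (dot g c)) := by
        intro g
        rw [dot_add_left, AddChar.map_add_eq_mul, dd_add]
        have : C + (dd g + dd g0) - B = C + dd g0 - B + dd g := by abel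
        rw [this]
        ring
      simp only [h2]
      rw [← Finset.mul_sum, h1, mul_zero]
    · intro g hg hor
      have h3 := ft_of_mem_AA ψ hψ hfi (left_ne_zero_of_mul hg)
      have h4 : nz (dd g) ≤ 2 * s := by
        have : dd g = (C + dd g - B) - C + B := by abel
        rw [this]
        have h5 := nz_add (C + dd g - B - C) B
        have h6 := nz_sub (C + dd g - B) C
        omega
      have h5 : nz (dd (g - g0)) ≤ 2 * s := by
        have : dd (g - g0) = (C + dd g - B) - (C + dd g0 - B) := by rw [dd_sub]; abel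
        rw [this]
        have h6 := nz_sub (C + dd g - B) (C + dd g0 - B)
        omega
      have h6 : nz g ≤ 2 * b := by
        rcases hor with h | h
        · omega
        · have : g = (g - g0) + g0 := by abel
          rw [this]
          have := nz_add (g - g0) g0
          omega
      have h7 : nz (g - g0) ≤ 2 * b := by
        rcases hor with h | h
        · have := nz_sub g g0
          omega
        · omega
      exact ⟨hexp g h6 h4, hexp _ h7 h5⟩

/-- Negligible functions of low degree are closed under multiplication. -/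
theorem KK_mul {i j : ℕ} {f h : (Fin m × Fin m → ZMod q) → F} (hf : f ∈ KK ψ b s c)
    (hfi : f ∈ AA ψ (ι := Fin m × Fin m) i) (hh : h ∈ AA ψ (ι := Fin m × Fin m) j)
    (hij : i + j ≤ s) : h * f ∈ KK ψ b s c := by
  induction hh using Submodule.span_induction with
  | mem h hh =>
    obtain ⟨B, hB, rfl⟩ := hh
    exact KK_chi_mul ψ b s c hψ hexp hf hfi (by omega)
  | zero => rw [zero_mul]; exact Submodule.zero_mem _
  | add x y _ _ hx hy => rw [add_mul]; exact Submodule.add_mem _ hx hy
  | smul a x _ hx => rw [smul_mul_assoc]; exact Submodule.smul_mem _ _ hx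

/-- Functions which vanish when the constraint of the vertex `u` is satisfied are negligible. -/
theorem KK_vanish (hq : (q : F) ≠ 0) {i w : ℕ} (u : Fin m) (hb : 1 ≤ b)
    (hw : ∀ x : ZMod q, nz (dd (Pi.single u x : Fin m → ZMod q)) ≤ w) (hiw : i + w ≤ s)
    {f : (Fin m × Fin m → ZMod q) → F} (hfi : f ∈ AA ψ (ι := Fin m × Fin m) i)
    (hf : ∀ a, dot (dd (Pi.single u 1 : Fin m → ZMod q)) a = c u → f a = 0) :
    f ∈ KK ψ b s c := by
  have hnz1 : ∀ x : ZMod q, nz (Pi.single u x : Fin m → ZMod q) ≤ b := by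
    intro x
    refine le_trans ?_ hb
    unfold nz
    refine le_trans (Finset.card_le_card (t := {u}) ?_) (by simp)
    intro v hv
    rw [Finset.mem_filter] at hv
    rw [Finset.mem_singleton]
    by_contra hne
    exact hv.2 (by rw [Pi.single_apply, if_neg hne])
  have key : ∀ x : ZMod q, f - ψ (-(x * c u)) • (chi ψ (dd (Pi.single u x)) * f) ∈
      KK ψ b s c := by
    intro x
    set g0 : Fin m → ZMod q := Pi.single u x with hg0
    have hdot : dot g0 c = x * c u := by
      rw [hg0, dot_comm, dot_single_right, mul_comm]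
    intro C hC
    unfold Val
    have h1 : ∀ g : Fin m → ZMod q,
        ft ψ (f - ψ (-(x * c u)) • (chi ψ (dd g0) * f)) (C + dd g) * ψ (dot g c) =
        ft ψ f (C + dd g) * ψ (dot g c) -
          ft ψ f (C + dd (g - g0)) * ψ (dot (g - g0) c) := by
      intro g
      rw [sub_eq_add_neg, ← neg_smul, ft_add, ft_smul, ft_chi_mul, dot_sub_left, hdot, dd_sub]
      have h2 : C + dd g - dd g0 = C + (dd g - dd g0) := by abel
      rw [h2, sub_eq_add_neg (dot g c), AddChar.map_add_eq_mul]
      ring
    simp only [h1]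
    rw [Finset.sum_sub_distrib, sub_eq_zero]
    rw [shift_sum b (fun g => ft ψ f (C + dd (g - g0)) * ψ (dot (g - g0) c)) g0]
    · simp only [add_sub_cancel_right]
    · intro g hg hor
      have h3 := ft_of_mem_AA ψ hψ hfi (left_ne_zero_of_mul hg)
      have h5 : nz (dd (g - g0)) ≤ 2 * s := by
        have : dd (g - g0) = (C + dd (g - g0)) - C := by abel
        rw [this]
        have h6 := nz_sub (C + dd (g - g0)) C
        omega
      have h4 : nz (dd g) ≤ 2 * s := by
        have h8 : dd g = (C + dd (g - g0)) - C + dd g0 := by rw [dd_sub]; abel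
        rw [h8]
        have h5 := nz_add (C + dd (g - g0) - C) (dd g0)
        have h6 := nz_sub (C + dd (g - g0)) C
        have h7 := hw x
        rw [← hg0] at h7
        omega
      have hn := hnz1 x
      rw [← hg0] at hn
      have h6 : nz g ≤ 2 * b := by
        rcases hor with h | h
        · omega
        · have h8 : g = (g - g0) + g0 := by abel
          rw [h8]
          have := nz_add (g - g0) g0
          omega
      have h7 : nz (g - g0) ≤ 2 * b := by
        rcases hor with h | h
        · have := nz_sub g g0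
          omega
        · omega
      exact ⟨hexp g h6 h4, hexp _ h7 h5⟩
  have h1 : f = ((q : F)⁻¹) • ∑ x : ZMod q,
      (f - ψ (-(x * c u)) • (chi ψ (dd (Pi.single u x)) * f)) := by
    ext a
    simp only [Pi.smul_apply, Finset.sum_apply, Pi.sub_apply, Pi.mul_apply, smul_eq_mul]
    rw [Finset.sum_sub_distrib]
    have h2 : ∑ x : ZMod q, ψ (-(x * c u)) * (chi ψ (dd (Pi.single u x : Fin m → ZMod q)) a *
        f a) = 0 := by
      by_cases hc : dot (dd (Pi.single u 1 : Fin m → ZMod q)) a = c u
      · rw [hf a hc]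
        simp
      · have h3 : ∀ x : ZMod q, ψ (-(x * c u)) * (chi ψ (dd (Pi.single u x : Fin m → ZMod q)) a *
            f a) = ψ ((dot (dd (Pi.single u 1 : Fin m → ZMod q)) a - c u) * x) * f a := by
          intro x
          have h4 : dot (dd (Pi.single u x : Fin m → ZMod q)) a =
              x * dot (dd (Pi.single u 1 : Fin m → ZMod q)) a := by
            unfold dot
            rw [Finset.mul_sum]
            refine Finset.sum_congr rfl fun e _ => ?_
            simp only [dd, Pi.single_apply]
            split_ifs <;> ring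
          unfold chi
          rw [← mul_assoc, ← AddChar.map_add_eq_mul, h4]
          congr 2
          ring
        rw [Finset.sum_congr rfl (fun x _ => h3 x), ← Finset.sum_mul]
        have h5 : ∑ x : ZMod q, ψ ((dot (dd (Pi.single u 1 : Fin m → ZMod q)) a - c u) * x) = 0 := by
          have h6 := sum_char_eq_zero (ι := Unit) ψ hψ
            (C := fun _ => dot (dd (Pi.single u 1 : Fin m → ZMod q)) a - c u)
            (fun h => hc (sub_eq_zero.1 (congrFun h ())))
          rw [← h6]
          refine Fintype.sum_equiv (Equiv.funUnique Unit (ZMod q)).symm _ _ ?_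
          intro x
          simp [dot]
        rw [h5, zero_mul]
    rw [h2, sub_zero, Finset.sum_const, Finset.card_univ, ZMod.card, nsmul_eq_mul,
      inv_mul_cancel_left₀ hq]
  rw [h1]
  exact Submodule.smul_mem _ _ (Submodule.sum_mem _ fun x _ => key x)

omit hexp

theorem one_not_mem_KK (hq : (q : F) ≠ 0) (hbm : 2 * b < m) :
    (1 : (Fin m × Fin m → ZMod q) → F) ∉ KK ψ b s c := by
  intro h
  have h1 := h 0 (by rw [nz_zero]; exact Nat.zero_le _)
  unfold Val at h1
  rw [← chi_zero ψ] at h1
  rw [Finset.sum_eq_single (0 : Fin m → ZMod q)] at h1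
  · rw [ft_chi ψ hψ, if_pos (by ext e; simp [dd]), dot_zero_left, AddChar.map_zero_eq_one,
      mul_one] at h1
    exact pow_ne_zero _ hq h1
  · intro g hg hg0
    rw [Finset.mem_filter] at hg
    rw [ft_chi ψ hψ, if_neg, zero_mul]
    intro h2
    rw [zero_add] at h2
    apply hg0
    -- `g` is constant and vanishes somewhere
    have h3 : ∀ u v, g u = g v := by
      intro u v
      have := congrFun h2 (u, v)
      simpa [dd, sub_eq_zero] using this
    by_contra hne
    obtain ⟨u, hu⟩ : ∃ u, g u ≠ 0 := by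
      by_contra hh
      push Not at hh
      exact hne (funext hh)
    have h4 : nz g = m := by
      unfold nz
      rw [Finset.filter_true_of_mem]
      · simp
      · intro v _
        rw [← h3 u v]
        exact hu
    omega
  · intro h2
    exfalso
    apply h2
    rw [Finset.mem_filter]
    exact ⟨Finset.mem_univ _, by rw [nz_zero]; exact Nat.zero_le _⟩

end

end Pool.Agent.L0h36.BF
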