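import Pool.Agent.L0h36.BF.Stage2

set_option autoImplicit false
set_option linter.unusedSectionVars false

/-!
# Instances of formulas: the outermost MOD gates are replaced by constants
-/

namespace Pool.Agent.L0h36.BF

open Finset

namespace Fml

variable {p : ℕ} {α : Type}

/-- True. -/
def tt : Fml p α := .and 0 Fin.elim0

/-- False. -/
def ff : Fml p α := .or 0 Fin.elim0

theorem tt_ne_ff : (tt : Fml p α) ≠ ff := by
  intro h
  cases h

theorem and_zero_eq (f : Fin 0 → Fml p α) : Fml.and 0 f = tt := by
  unfold tt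
  congr 1
  exact Subsingleton.elim _ _

theorem or_zero_eq (f : Fin 0 → Fml p α) : Fml.or 0 f = ff := by
  unfold ff
  congr 1
  exact Subsingleton.elim _ _

/-- Replace the outermost MOD gates by their values. -/
noncomputable def sv (ev : Fml p α → Bool) : Fml p α → Fml p α
  | .var x => .var x
  | .neg φ => .neg (sv ev φ)
  | .and k f => .and k (fun j => sv ev (f j))
  | .or k f => .or k (fun j => sv ev (f j))
  | .mod i _ f => if (∑ j, (if ev (sv ev (f j)) = true then (1 : ZMod p) else 0)) = i
      then tt else ff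

open Classical in
/-- All formulas obtained by replacing the outermost MOD gates by constants. -/
noncomputable def insts : Fml p α → Finset (Fml p α)
  | .var x => {.var x}
  | .neg φ => (insts φ).image .neg
  | .and k f => (Fintype.piFinset (fun j => insts (f j))).image (.and k)
  | .or k f => (Fintype.piFinset (fun j => insts (f j))).image (.or k)
  | .mod _ _ _ => {tt, ff}

theorem sv_mem (ev : Fml p α → Bool) (φ : Fml p α) : sv ev φ ∈ insts φ := by
  classical
  induction φ with
  | var x => simp [sv, insts]
  | neg φ ih => rw [sv, insts]; exact Finset.mem_image_of_mem _ ih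
  | and k f ih =>
    rw [sv, insts]
    refine Finset.mem_image_of_mem _ ?_
    rw [Fintype.mem_piFinset]
    exact ih
  | or k f ih =>
    rw [sv, insts]
    refine Finset.mem_image_of_mem _ ?_
    rw [Fintype.mem_piFinset]
    exact ih
  | mod i k f ih =>
    rw [sv, insts]
    split_ifs <;> simp

theorem card_insts (φ : Fml p α) : (insts φ).card ≤ 2 ^ φ.front := by
  classical
  induction φ with
  | var x => simp [insts, front]
  | neg φ ih => rw [insts, front]; exact Finset.card_image_le.trans ih
  | and k f ih =>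
    rw [insts, front]
    refine Finset.card_image_le.trans ?_
    rw [Fintype.card_piFinset, ← Finset.prod_pow_eq_pow_sum]
    exact Finset.prod_le_prod' fun j _ => ih j
  | or k f ih =>
    rw [insts, front]
    refine Finset.card_image_le.trans ?_
    rw [Fintype.card_piFinset, ← Finset.prod_pow_eq_pow_sum]
    exact Finset.prod_le_prod' fun j _ => ih j
  | mod i k f ih =>
    rw [insts, front]
    exact Finset.card_le_two

theorem front_insts {φ ψ : Fml p α} (h : ψ ∈ insts φ) : ψ.front = 0 := by
  classical
  induction φ generalizing ψ with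
  | var x =>
    rw [insts, Finset.mem_singleton] at h
    rw [h]; rfl
  | neg φ ih =>
    rw [insts, Finset.mem_image] at h
    obtain ⟨χ, h1, rfl⟩ := h
    rw [front]
    exact ih h1
  | and k f ih =>
    rw [insts, Finset.mem_image] at h
    obtain ⟨g, h1, rfl⟩ := h
    rw [Fintype.mem_piFinset] at h1
    rw [front]
    exact Finset.sum_eq_zero fun j _ => ih j (h1 j)
  | or k f ih =>
    rw [insts, Finset.mem_image] at h
    obtain ⟨g, h1, rfl⟩ := h
    rw [Fintype.mem_piFinset] at h1
    rw [front]
    exact Finset.sum_eq_zero fun j _ => ih j (h1 j)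
  | mod i k f ih =>
    rw [insts, Finset.mem_insert, Finset.mem_singleton] at h
    rcases h with rfl | rfl <;> simp [tt, ff, front]

theorem kind_insts {φ ψ : Fml p α} (h : ψ ∈ insts φ) :
    (ψ.depth = 0 ∧ 1 ≤ φ.depth ∧ φ.isNeg = false ∧ φ.isAnd = false ∧ φ.isOr = false) ∨
    (ψ.isNeg = φ.isNeg ∧ ψ.isAnd = φ.isAnd ∧ ψ.isOr = φ.isOr) := by
  classical
  cases φ with
  | var x =>
    rw [insts, Finset.mem_singleton] at h
    rw [h]; exact Or.inr ⟨rfl, rfl, rfl⟩
  | neg φ =>
    rw [insts, Finset.mem_image] at h
    obtain ⟨χ, h1, rfl⟩ := h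
    exact Or.inr ⟨rfl, rfl, rfl⟩
  | and k f =>
    rw [insts, Finset.mem_image] at h
    obtain ⟨g, h1, rfl⟩ := h
    exact Or.inr ⟨rfl, rfl, rfl⟩
  | or k f =>
    rw [insts, Finset.mem_image] at h
    obtain ⟨g, h1, rfl⟩ := h
    exact Or.inr ⟨rfl, rfl, rfl⟩
  | mod i k f =>
    rw [insts, Finset.mem_insert, Finset.mem_singleton] at h
    left
    rcases h with rfl | rfl <;> simp [tt, ff, depth, isNeg, isAnd, isOr]

theorem depth_insts {φ ψ : Fml p α} (h : ψ ∈ insts φ) : ψ.depth ≤ φ.depth := by
  classical
  induction φ generalizing ψ with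
  | var x =>
    rw [insts, Finset.mem_singleton] at h
    rw [h]
  | neg φ ih =>
    rw [insts, Finset.mem_image] at h
    obtain ⟨χ, h1, rfl⟩ := h
    have h2 := ih h1
    rw [depth, depth]
    rcases kind_insts h1 with h3 | h3
    · rw [h3.2.2.1]
      simp only [Bool.false_eq_true, if_false]
      split_ifs <;> omega
    · rw [h3.1]
      split_ifs <;> omega
  | and k f ih =>
    rw [insts, Finset.mem_image] at h
    obtain ⟨g, h1, rfl⟩ := h
    rw [Fintype.mem_piFinset] at h1
    rw [depth, depth]
    refine Finset.sup_mono_fun fun j _ => ?_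
    have h2 := ih j (h1 j)
    rcases kind_insts (h1 j) with h3 | h3
    · rw [h3.2.2.2.1]
      simp only [Bool.false_eq_true, if_false]
      split_ifs <;> omega
    · rw [h3.2.1]
      split_ifs <;> omega
  | or k f ih =>
    rw [insts, Finset.mem_image] at h
    obtain ⟨g, h1, rfl⟩ := h
    rw [Fintype.mem_piFinset] at h1
    rw [depth, depth]
    refine Finset.sup_mono_fun fun j _ => ?_
    have h2 := ih j (h1 j)
    rcases kind_insts (h1 j) with h3 | h3
    · rw [h3.2.2.2.2]
      simp only [Bool.false_eq_true, if_false]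
      split_ifs <;> omega
    · rw [h3.2.2]
      split_ifs <;> omega
  | mod i k f ih =>
    rw [insts, Finset.mem_insert, Finset.mem_singleton] at h
    rcases h with rfl | rfl <;> simp [tt, ff, depth]

open Classical in
/-- The finite set of subformulas. -/
noncomputable def subF : Fml p α → Finset (Fml p α)
  | .var x => {.var x}
  | .neg φ => insert (.neg φ) (subF φ)
  | .and k f => insert (.and k f) (Finset.univ.biUnion fun j => subF (f j))
  | .or k f => insert (.or k f) (Finset.univ.biUnion fun j => subF (f j))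
  | .mod i k f => insert (.mod i k f) (Finset.univ.biUnion fun j => subF (f j))

theorem mem_subF {φ ψ : Fml p α} : ψ ∈ subF φ ↔ ψ ∈ φ.subs := by
  classical
  induction φ with
  | var x => simp [subF, subs]
  | neg φ ih => simp [subF, subs, ih]
  | and k f ih => simp [subF, subs, ih]
  | or k f ih => simp [subF, subs, ih]
  | mod i k f ih => simp [subF, subs, ih]

theorem card_subF (φ : Fml p α) : (subF φ).card ≤ φ.size := by
  classical
  have key : ∀ (k : ℕ) (f : Fin k → Fml p α) (χ : Fml p α),
      (∀ j, (subF (f j)).card ≤ (f j).size) →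
      (insert χ (Finset.univ.biUnion fun j => subF (f j))).card ≤ (∑ j, (f j).size) + 1 := by
    intro k f χ h
    refine (Finset.card_insert_le _ _).trans ?_
    refine Nat.add_le_add_right ?_ 1
    exact Finset.card_biUnion_le.trans (Finset.sum_le_sum fun j _ => h j)
  induction φ with
  | var x => simp [subF, size]
  | neg φ ih =>
    rw [subF, size]
    exact (Finset.card_insert_le _ _).trans (Nat.add_le_add_right ih 1)
  | and k f ih => rw [subF, size]; exact key k f _ ih
  | or k f ih => rw [subF, size]; exact key k f _ ih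
  | mod i k f ih => rw [subF, size]; exact key k f _ ih

theorem self_mem_subs (φ : Fml p α) : φ ∈ φ.subs := by
  cases φ <;> simp [subs]

theorem subs_trans {φ ψ χ : Fml p α} (h1 : χ ∈ ψ.subs) (h2 : ψ ∈ φ.subs) : χ ∈ φ.subs := by
  induction φ with
  | var x =>
    simp only [subs, Set.mem_singleton_iff] at h2
    rw [h2] at h1
    exact h1
  | neg φ ih =>
    simp only [subs, Set.mem_insert_iff] at h2
    rcases h2 with rfl | h2
    · exact h1
    · exact Set.mem_insert_of_mem _ (ih h2)
  | and k f ih =>
    simp only [subs, Set.mem_insert_iff, Set.mem_iUnion] at h2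
    rcases h2 with rfl | ⟨j, h2⟩
    · exact h1
    · exact Set.mem_insert_of_mem _ (Set.mem_iUnion.2 ⟨j, ih j h2⟩)
  | or k f ih =>
    simp only [subs, Set.mem_insert_iff, Set.mem_iUnion] at h2
    rcases h2 with rfl | ⟨j, h2⟩
    · exact h1
    · exact Set.mem_insert_of_mem _ (Set.mem_iUnion.2 ⟨j, ih j h2⟩)
  | mod i k f ih =>
    simp only [subs, Set.mem_insert_iff, Set.mem_iUnion] at h2
    rcases h2 with rfl | ⟨j, h2⟩
    · exact h1
    · exact Set.mem_insert_of_mem _ (Set.mem_iUnion.2 ⟨j, ih j h2⟩)

theorem neg_mem_subs (φ : Fml p α) : φ ∈ (neg φ).subs :=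
  Set.mem_insert_of_mem _ (self_mem_subs φ)

theorem and_mem_subs {k : ℕ} (f : Fin k → Fml p α) (j : Fin k) : f j ∈ (and k f).subs :=
  Set.mem_insert_of_mem _ (Set.mem_iUnion.2 ⟨j, self_mem_subs _⟩)

theorem or_mem_subs {k : ℕ} (f : Fin k → Fml p α) (j : Fin k) : f j ∈ (or k f).subs :=
  Set.mem_insert_of_mem _ (Set.mem_iUnion.2 ⟨j, self_mem_subs _⟩)

theorem mod_mem_subs {i : ZMod p} {k : ℕ} (f : Fin k → Fml p α) (j : Fin k) :
    f j ∈ (mod i k f).subs :=
  Set.mem_insert_of_mem _ (Set.mem_iUnion.2 ⟨j, self_mem_subs _⟩)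

theorem depth_subs {φ ψ : Fml p α} (h : ψ ∈ φ.subs) : ψ.depth ≤ φ.depth := by
  induction φ with
  | var x =>
    simp only [subs, Set.mem_singleton_iff] at h
    rw [h]
  | neg φ ih =>
    simp only [subs, Set.mem_insert_iff] at h
    rcases h with rfl | h
    · exact le_refl _
    · exact (ih h).trans (depth_le_neg φ)
  | and k f ih =>
    simp only [subs, Set.mem_insert_iff, Set.mem_iUnion] at h
    rcases h with rfl | ⟨j, h⟩
    · exact le_refl _
    · refine (ih j h).trans ?_
      rw [depth]
      refine le_trans ?_ (Finset.le_sup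
        (f := fun j => if (f j).isAnd then (f j).depth else (f j).depth + 1) (Finset.mem_univ j))
      split_ifs <;> omega
  | or k f ih =>
    simp only [subs, Set.mem_insert_iff, Set.mem_iUnion] at h
    rcases h with rfl | ⟨j, h⟩
    · exact le_refl _
    · refine (ih j h).trans ?_
      rw [depth]
      refine le_trans ?_ (Finset.le_sup
        (f := fun j => if (f j).isOr then (f j).depth else (f j).depth + 1) (Finset.mem_univ j))
      split_ifs <;> omega
  | mod i k f ih =>
    simp only [subs, Set.mem_insert_iff, Set.mem_iUnion] at h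
    rcases h with rfl | ⟨j, h⟩
    · exact le_refl _
    · refine (ih j h).trans ?_
      rw [depth]
      exact (Finset.le_sup (f := fun j => (f j).depth) (Finset.mem_univ j)).trans (by omega)

end Fml

variable {p : ℕ} {α : Type}

open Classical in
/-- The formulas without MOD gates given by a proof. -/
noncomputable def GG (π : List (Fml p α)) : Finset (Fml p α) :=
  (π.toFinset.biUnion Fml.subF).biUnion Fml.insts ∪ {Fml.tt, Fml.ff}

theorem mem_GG {π : List (Fml p α)} {ψ : Fml p α} :
    ψ ∈ GG π ↔ (∃ φ ∈ Occurring π, ψ ∈ φ.insts) ∨ ψ = Fml.tt ∨ ψ = Fml.ff := by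
  classical
  unfold GG Occurring
  simp only [Finset.mem_union, Finset.mem_biUnion, List.mem_toFinset, Finset.mem_insert,
    Finset.mem_singleton, Fml.mem_subF, Set.mem_ofPred_eq]

theorem closed_GG (π : List (Fml p α)) : Fml.Closed ((GG π : Finset (Fml p α)) : Set (Fml p α)) := by
  classical
  refine ⟨fun χ h => ?_, fun k g h j => ?_, fun k g h j => ?_⟩
  · rw [Finset.mem_coe, mem_GG] at h ⊢
    rcases h with ⟨φ, hφ, h⟩ | h | h
    · left
      cases φ with
      | var x => simp [Fml.insts] at h
      | neg φ =>
        rw [Fml.insts, Finset.mem_image] at h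
        obtain ⟨χ', h1, h2⟩ := h
        injection h2 with h2
        obtain ⟨A, hA, hs⟩ := hφ
        exact ⟨φ, ⟨A, hA, Fml.subs_trans (Fml.neg_mem_subs φ) hs⟩, h2 ▸ h1⟩
      | and k f => simp [Fml.insts] at h
      | or k f => simp [Fml.insts] at h
      | mod i k f =>
        rw [Fml.insts, Finset.mem_insert, Finset.mem_singleton] at h
        rcases h with h | h <;> cases h
    · cases h
    · cases h
  · rw [Finset.mem_coe, mem_GG] at h ⊢
    rcases h with ⟨φ, hφ, h⟩ | h | h
    · left
      cases φ with
      | var x => simp [Fml.insts] at h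
      | neg φ => simp [Fml.insts] at h
      | and k' f =>
        rw [Fml.insts, Finset.mem_image] at h
        obtain ⟨g', h1, h2⟩ := h
        rw [Fintype.mem_piFinset] at h1
        cases h2
        obtain ⟨A, hA, hs⟩ := hφ
        exact ⟨f j, ⟨A, hA, Fml.subs_trans (Fml.and_mem_subs f j) hs⟩, h1 j⟩
      | or k' f => simp [Fml.insts] at h
      | mod i k' f =>
        rw [Fml.insts, Finset.mem_insert, Finset.mem_singleton] at h
        rcases h with h | h
        · cases h
          exact j.elim0
        · cases h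
    · cases h
      exact j.elim0
    · cases h
  · rw [Finset.mem_coe, mem_GG] at h ⊢
    rcases h with ⟨φ, hφ, h⟩ | h | h
    · left
      cases φ with
      | var x => simp [Fml.insts] at h
      | neg φ => simp [Fml.insts] at h
      | or k' f =>
        rw [Fml.insts, Finset.mem_image] at h
        obtain ⟨g', h1, h2⟩ := h
        rw [Fintype.mem_piFinset] at h1
        cases h2
        obtain ⟨A, hA, hs⟩ := hφ
        exact ⟨f j, ⟨A, hA, Fml.subs_trans (Fml.or_mem_subs f j) hs⟩, h1 j⟩
      | and k' f => simp [Fml.insts] at h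
      | mod i k' f =>
        rw [Fml.insts, Finset.mem_insert, Finset.mem_singleton] at h
        rcases h with h | h
        · cases h
        · cases h
          exact j.elim0
    · cases h
    · cases h
      exact j.elim0

theorem front_GG {π : List (Fml p α)} {ψ : Fml p α} (h : ψ ∈ GG π) : ψ.front = 0 := by
  rw [mem_GG] at h
  rcases h with ⟨φ, -, h⟩ | rfl | rfl
  · exact Fml.front_insts h
  · simp [Fml.tt, Fml.front]
  · simp [Fml.ff, Fml.front]

theorem depth_GG {π : List (Fml p α)} {d : ℕ} (hd : ∀ A ∈ π, A.depth ≤ d) {ψ : Fml p α}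
    (h : ψ ∈ GG π) : ψ.depth ≤ d := by
  rw [mem_GG] at h
  rcases h with ⟨φ, ⟨A, hA, hs⟩, h⟩ | rfl | rfl
  · exact (Fml.depth_insts h).trans ((Fml.depth_subs hs).trans (hd A hA))
  · simp [Fml.tt, Fml.depth]
  · simp [Fml.ff, Fml.depth]

theorem card_GG {π : List (Fml p α)} {K : ℕ} (hK : ∀ ψ ∈ Occurring π, ψ.front ≤ K) :
    (GG π).card ≤ proofSize π * 2 ^ K + 2 := by
  classical
  unfold GG
  refine (Finset.card_union_le _ _).trans (Nat.add_le_add ?_ Finset.card_le_two)
  have h1 : (π.toFinset.biUnion Fml.subF).card ≤ proofSize π := by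
    clear hK
    induction π with
    | nil => simp
    | cons A π ih =>
      rw [List.toFinset_cons, Finset.biUnion_insert]
      refine (Finset.card_union_le _ _).trans ?_
      have : proofSize (A :: π) = A.size + proofSize π := by simp [proofSize]
      rw [this]
      exact Nat.add_le_add (Fml.card_subF A) ih
  refine Finset.card_biUnion_le.trans ?_
  refine (Finset.sum_le_sum (g := fun _ => 2 ^ K) fun φ hφ => ?_).trans ?_
  · refine (Fml.card_insts φ).trans (Nat.pow_le_pow_right (by omega) (hK φ ?_))
    rw [Finset.mem_biUnion] at hφ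
    obtain ⟨A, hA, h⟩ := hφ
    exact ⟨A, List.mem_toFinset.1 hA, Fml.mem_subF.1 h⟩
  · rw [Finset.sum_const, smul_eq_mul]
    exact Nat.mul_le_mul_right _ h1

end Pool.Agent.L0h36.BF
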