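import Mathlib

set_option autoImplicit false
set_option linter.unusedSectionVars false

/-!
# Systems of disjoint q-sets and decision trees which query points
-/

namespace Pool.Agent.L0h36.BF

open Finset

variable {V : Type} [DecidableEq V]

/-- `M` is a set of pairwise disjoint sets of size `q`. -/
def PM (q : ℕ) (M : Finset (Finset V)) : Prop :=
  (∀ e ∈ M, e.card = q) ∧ ∀ e ∈ M, ∀ f ∈ M, e ≠ f → Disjoint e f

/-- The points covered by `M`. -/
def cov (M : Finset (Finset V)) : Finset V := M.biUnion id

theorem mem_cov {M : Finset (Finset V)} {v : V} : v ∈ cov M ↔ ∃ e ∈ M, v ∈ e := by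
  simp [cov]

theorem cov_mono {M N : Finset (Finset V)} (h : M ⊆ N) : cov M ⊆ cov N :=
  Finset.biUnion_subset_biUnion_of_subset_left _ h

theorem cov_union (M N : Finset (Finset V)) : cov (M ∪ N) = cov M ∪ cov N := by
  ext v
  simp only [mem_cov, mem_union]
  constructor
  · rintro ⟨e, h | h, hv⟩
    · exact Or.inl ⟨e, h, hv⟩
    · exact Or.inr ⟨e, h, hv⟩
  · rintro (⟨e, h, hv⟩ | ⟨e, h, hv⟩)
    · exact ⟨e, Or.inl h, hv⟩
    · exact ⟨e, Or.inr h, hv⟩

theorem cov_insert (e : Finset V) (M : Finset (Finset V)) : cov (insert e M) = e ∪ cov M := by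
  simp [cov]

theorem PM.mono {q : ℕ} {M N : Finset (Finset V)} (h : PM q N) (hMN : M ⊆ N) : PM q M :=
  ⟨fun e he => h.1 e (hMN he), fun e he f hf => h.2 e (hMN he) f (hMN hf)⟩

theorem PM.eq_of_mem {q : ℕ} {M : Finset (Finset V)} (h : PM q M) {e f : Finset V}
    (he : e ∈ M) (hf : f ∈ M) {v : V} (hve : v ∈ e) (hvf : v ∈ f) : e = f := by
  by_contra hne
  exact Finset.disjoint_left.1 (h.2 e he f hf hne) hve hvf

theorem PM.card_cov {q : ℕ} {M : Finset (Finset V)} (h : PM q M) : (cov M).card = q * M.card := by
  unfold cov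
  rw [Finset.card_biUnion]
  · rw [Finset.sum_congr rfl (fun e he => show (id e).card = q from h.1 e he)]
    simp [mul_comm]
  · intro e he f hf hne
    exact h.2 e he f hf hne

theorem PM.empty (q : ℕ) : PM q (∅ : Finset (Finset V)) := by
  constructor <;> simp

theorem PM.cons {q : ℕ} {M : Finset (Finset V)} (h : PM q M) {e : Finset V} (he : e.card = q)
    (hd : Disjoint e (cov M)) : PM q (insert e M) := by
  constructor
  · intro f hf
    rcases Finset.mem_insert.1 hf with hf1 | hf1
    · rw [hf1]; exact he
    · exact h.1 f hf1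
  · intro f hf g hg hne
    rcases Finset.mem_insert.1 hf with hf1 | hf1 <;>
      rcases Finset.mem_insert.1 hg with hg1 | hg1
    · exact absurd (hf1.trans hg1.symm) hne
    · rw [hf1]
      rw [Finset.disjoint_left] at hd ⊢
      intro v hv hv'
      exact hd hv (mem_cov.2 ⟨g, hg1, hv'⟩)
    · rw [hg1]
      rw [Finset.disjoint_left] at hd ⊢
      intro v hv hv'
      exact hd hv' (mem_cov.2 ⟨f, hf1, hv⟩)
    · exact h.2 f hf1 g hg1 hne

theorem PM.disjoint_cov_of_insert {q : ℕ} {M : Finset (Finset V)} {e : Finset V}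
    (h : PM q (insert e M)) (he : e ∉ M) : Disjoint e (cov M) := by
  rw [Finset.disjoint_left]
  intro v hv hv'
  obtain ⟨f, hf, hvf⟩ := mem_cov.1 hv'
  have := h.eq_of_mem (Finset.mem_insert_self e M) (Finset.mem_insert_of_mem hf) hv hvf
  exact he (this ▸ hf)

theorem PM.union {q : ℕ} {M N : Finset (Finset V)} (hM : PM q M) (hN : PM q N)
    (hd : Disjoint (cov M) (cov N)) : PM q (M ∪ N) := by
  constructor
  · intro e he
    rcases Finset.mem_union.1 he with h | h
    · exact hM.1 e h
    · exact hN.1 e h
  · intro e he f hf hne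
    rcases Finset.mem_union.1 he with h | h <;> rcases Finset.mem_union.1 hf with h' | h'
    · exact hM.2 e h f h' hne
    · rw [Finset.disjoint_left] at hd ⊢
      intro v hv hv'
      exact hd (mem_cov.2 ⟨e, h, hv⟩) (mem_cov.2 ⟨f, h', hv'⟩)
    · rw [Finset.disjoint_left] at hd ⊢
      intro v hv hv'
      exact hd (mem_cov.2 ⟨f, h', hv'⟩) (mem_cov.2 ⟨e, h, hv⟩)
    · exact hN.2 e h f h' hne

/-- The two parts of a disjoint system cover disjoint sets. -/
theorem PM.disjoint_cov {q : ℕ} {M N : Finset (Finset V)} (h : PM q (M ∪ N))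
    (hd : Disjoint M N) : Disjoint (cov M) (cov N) := by
  rw [Finset.disjoint_left]
  intro v hv hv'
  obtain ⟨e, he, hve⟩ := mem_cov.1 hv
  obtain ⟨f, hf, hvf⟩ := mem_cov.1 hv'
  have := h.eq_of_mem (Finset.mem_union_left _ he) (Finset.mem_union_right _ hf) hve hvf
  subst this
  exact Finset.disjoint_left.1 hd he hf

/-! ### Decision trees -/

/-- Decision trees which query points; the answer to the query of a point is the set of the
system which contains it. -/
inductive DT (V : Type) : Type
  | leaf (b : Bool) : DT V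
  | node (v : V) (c : Finset V → DT V) : DT V

/-- Exchange the labels. -/
def DT.flip : DT V → DT V
  | .leaf b => .leaf (!b)
  | .node v c => .node v (fun e => (c e).flip)

/-- `Br q T m r b`: starting from the system `m`, the tree `T` can end with the system `r` and the
label `b`. -/
inductive Br (q : ℕ) : DT V → Finset (Finset V) → Finset (Finset V) → Bool → Prop
  | leaf (b : Bool) (m : Finset (Finset V)) : Br q (.leaf b) m m b
  | covered (v : V) (c : Finset V → DT V) (m r : Finset (Finset V)) (b : Bool) (e : Finset V)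
      (he : e ∈ m) (hv : v ∈ e) (h : Br q (c e) m r b) : Br q (.node v c) m r b
  | query (v : V) (c : Finset V → DT V) (m r : Finset (Finset V)) (b : Bool) (e : Finset V)
      (hv' : v ∉ cov m) (hv : v ∈ e) (hpm : PM q (insert e m)) (h : Br q (c e) (insert e m) r b) :
      Br q (.node v c) m r b

theorem Br.subset {q : ℕ} {T : DT V} {m r : Finset (Finset V)} {b : Bool} (h : Br q T m r b) :
    m ⊆ r := by
  induction h with
  | leaf b m => exact Finset.Subset.refl _
  | covered v c m r b e he hv h ih => exact ih
  | query v c m r b e hv' hv hpm h ih => exact (Finset.subset_insert _ _).trans ih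

theorem Br.pm {q : ℕ} {T : DT V} {m r : Finset (Finset V)} {b : Bool} (h : Br q T m r b)
    (hm : PM q m) : PM q r := by
  induction h with
  | leaf b m => exact hm
  | covered v c m r b e he hv h ih => exact ih hm
  | query v c m r b e hv' hv hpm h ih => exact ih hpm

theorem Br.leaf_inv {q : ℕ} {b b' : Bool} {m r : Finset (Finset V)}
    (h : Br q (.leaf b') m r b) : r = m ∧ b' = b := by
  generalize hT : (DT.leaf b' : DT V) = T at h
  cases h with
  | leaf => exact ⟨rfl, by injection hT⟩
  | covered => cases hT
  | query => cases hT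

theorem Br.flip {q : ℕ} {T : DT V} {m r : Finset (Finset V)} {b : Bool} (h : Br q T m r b) :
    Br q T.flip m r (!b) := by
  induction h with
  | leaf b m => exact Br.leaf _ _
  | covered v c m r b e he hv h ih => exact Br.covered v _ m r _ e he hv ih
  | query v c m r b e hv' hv hpm h ih => exact Br.query v _ m r _ e hv' hv hpm ih

theorem DT.flip_flip (T : DT V) : T.flip.flip = T := by
  induction T with
  | leaf b => simp [DT.flip]
  | node v c ih => simp only [DT.flip, ih]

theorem Br.flip_iff {q : ℕ} {T : DT V} {m r : Finset (Finset V)} {b : Bool} :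
    Br q T.flip m r b ↔ Br q T m r (!b) := by
  constructor
  · intro h
    have := h.flip
    rwa [DT.flip_flip] at this
  · intro h
    have := h.flip
    rwa [Bool.not_not] at this

/-- A branch over a larger system comes from a branch over the smaller one. -/
theorem Br.restrict {q : ℕ} {T : DT V} {s r : Finset (Finset V)} {b : Bool} (h : Br q T s r b)
    (hs : PM q s) (m : Finset (Finset V)) (hm : m ⊆ s) :
    ∃ r', Br q T m r' b ∧ r = s ∪ r' := by
  induction h generalizing m with
  | leaf b s => exact ⟨m, Br.leaf _ _, (Finset.union_eq_left.2 hm).symm⟩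
  | covered v c s r b e he hv h ih =>
    by_cases hvm : v ∈ cov m
    · obtain ⟨f, hf, hvf⟩ := mem_cov.1 hvm
      have : e = f := hs.eq_of_mem he (hm hf) hv hvf
      subst this
      obtain ⟨r', h1, h2⟩ := ih hs m hm
      exact ⟨r', Br.covered v c m r' b e hf hv h1, h2⟩
    · have hsub : insert e m ⊆ s := Finset.insert_subset he hm
      obtain ⟨r', h1, h2⟩ := ih hs (insert e m) hsub
      exact ⟨r', Br.query v c m r' b e hvm hv (hs.mono hsub) h1, h2⟩
  | query v c s r b e hv' hv hpm h ih =>
    have hvm : v ∉ cov m := fun h => hv' (cov_mono hm h)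
    have hsub : insert e m ⊆ insert e s := Finset.insert_subset_insert _ hm
    obtain ⟨r', h1, h2⟩ := ih hpm (insert e m) hsub
    refine ⟨r', Br.query v c m r' b e hvm hv (hpm.mono hsub) h1, ?_⟩
    rw [h2]
    have he : e ∈ r' := h1.subset (Finset.mem_insert_self _ _)
    ext x
    simp only [Finset.mem_union, Finset.mem_insert]
    constructor
    · rintro ((rfl | h) | h)
      · exact Or.inr he
      · exact Or.inl h
      · exact Or.inr h
    · rintro (h | h)
      · exact Or.inl (Or.inr h)
      · exact Or.inr h

/-- Compatible branches over the same system are equal. -/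
theorem Br.unique {q : ℕ} {T : DT V} {m r s M : Finset (Finset V)} {b b' : Bool}
    (h : Br q T m r b) (h' : Br q T m s b') (hM : PM q M) (hr : r ⊆ M) (hs : s ⊆ M) :
    r = s ∧ b = b' := by
  induction h generalizing s b' with
  | leaf b m =>
    cases h' with
    | leaf => exact ⟨rfl, rfl⟩
  | covered v c m r b e he hv h ih =>
    cases h' with
    | covered _ _ _ _ _ f hf hvf h'' =>
      have hfe : e = f := hM.eq_of_mem (hr (h.subset he)) (hs (h''.subset hf)) hv hvf
      subst hfe
      exact ih h'' hr hs
    | query _ _ _ _ _ f hv' hvf hpm h'' =>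
      exact absurd (mem_cov.2 ⟨e, he, hv⟩) hv'
  | query v c m r b e hv' hv hpm h ih =>
    cases h' with
    | covered _ _ _ _ _ f hf hvf h'' =>
      exact absurd (mem_cov.2 ⟨f, hf, hvf⟩) hv'
    | query _ _ _ _ _ f hv'' hvf hpm' h'' =>
      have hfe : e = f := hM.eq_of_mem (hr (h.subset (Finset.mem_insert_self _ _)))
        (hs (h''.subset (Finset.mem_insert_self _ _))) hv hvf
      subst hfe
      exact ih h'' hr hs

open Classical in
/-- The value of the tree on a system (default `false` if a queried point is not covered). -/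
noncomputable def DT.val (M : Finset (Finset V)) : DT V → Bool
  | .leaf b => b
  | .node v c => if h : ∃ e ∈ M, v ∈ e then (c h.choose).val M else false

theorem Br.val {q : ℕ} {T : DT V} {m r M : Finset (Finset V)} {b : Bool} (h : Br q T m r b)
    (hM : PM q M) (hr : r ⊆ M) : T.val M = b := by
  induction h with
  | leaf b m => rfl
  | covered v c m r b e he hv h ih =>
    have hex : ∃ e ∈ M, v ∈ e := ⟨e, hr (h.subset he), hv⟩
    have : hex.choose = e := hM.eq_of_mem hex.choose_spec.1 (hr (h.subset he))
      hex.choose_spec.2 hv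
    rw [DT.val, dif_pos hex, this]
    exact ih hr
  | query v c m r b e hv' hv hpm h ih =>
    have hem : e ∈ M := hr (h.subset (Finset.mem_insert_self _ _))
    have hex : ∃ e ∈ M, v ∈ e := ⟨e, hem, hv⟩
    have : hex.choose = e := hM.eq_of_mem hex.choose_spec.1 hem hex.choose_spec.2 hv
    rw [DT.val, dif_pos hex, this]
    exact ih hr

/-- `Reach q T m r`: starting from the system `m`, the system `r` can be reached in the tree `T`. -/
inductive Reach (q : ℕ) : DT V → Finset (Finset V) → Finset (Finset V) → Prop
  | here (T : DT V) (m : Finset (Finset V)) : Reach q T m m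
  | covered (v : V) (c : Finset V → DT V) (m r : Finset (Finset V)) (e : Finset V)
      (he : e ∈ m) (hv : v ∈ e) (h : Reach q (c e) m r) : Reach q (.node v c) m r
  | query (v : V) (c : Finset V → DT V) (m r : Finset (Finset V)) (e : Finset V)
      (hv' : v ∉ cov m) (hv : v ∈ e) (hpm : PM q (insert e m)) (h : Reach q (c e) (insert e m) r) :
      Reach q (.node v c) m r

theorem Br.reach {q : ℕ} {T : DT V} {m r : Finset (Finset V)} {b : Bool} (h : Br q T m r b) :
    Reach q T m r := by
  induction h with
  | leaf b m => exact Reach.here _ _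
  | covered v c m r b e he hv h ih => exact Reach.covered v c m r e he hv ih
  | query v c m r b e hv' hv hpm h ih => exact Reach.query v c m r e hv' hv hpm ih

theorem Reach.leaf_inv {q : ℕ} {b : Bool} {m r : Finset (Finset V)}
    (h : Reach q (.leaf b) m r) : r = m := by
  generalize hT : (DT.leaf b : DT V) = T at h
  cases h with
  | here => rfl
  | covered => cases hT
  | query => cases hT

theorem Reach.subset {q : ℕ} {T : DT V} {m r : Finset (Finset V)} (h : Reach q T m r) :
    m ⊆ r := by
  induction h with
  | here => exact Finset.Subset.refl _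
  | covered v c m r e he hv h ih => exact ih
  | query v c m r e hv' hv hpm h ih => exact (Finset.subset_insert _ _).trans ih

theorem Reach.flip {q : ℕ} {T : DT V} {m r : Finset (Finset V)} (h : Reach q T m r) :
    Reach q T.flip m r := by
  induction h with
  | here => exact Reach.here _ _
  | covered v c m r e he hv h ih => exact Reach.covered v _ m r e he hv ih
  | query v c m r e hv' hv hpm h ih => exact Reach.query v _ m r e hv' hv hpm ih

theorem Reach.restrict {q : ℕ} {T : DT V} {s r : Finset (Finset V)} (h : Reach q T s r)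
    (hs : PM q s) (m : Finset (Finset V)) (hm : m ⊆ s) :
    ∃ r', Reach q T m r' ∧ r = s ∪ r' := by
  induction h generalizing m with
  | here T s => exact ⟨m, Reach.here _ _, (Finset.union_eq_left.2 hm).symm⟩
  | covered v c s r e he hv h ih =>
    by_cases hvm : v ∈ cov m
    · obtain ⟨f, hf, hvf⟩ := mem_cov.1 hvm
      have : e = f := hs.eq_of_mem he (hm hf) hv hvf
      subst this
      obtain ⟨r', h1, h2⟩ := ih hs m hm
      exact ⟨r', Reach.covered v c m r' e hf hv h1, h2⟩
    · have hsub : insert e m ⊆ s := Finset.insert_subset he hm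
      obtain ⟨r', h1, h2⟩ := ih hs (insert e m) hsub
      exact ⟨r', Reach.query v c m r' e hvm hv (hs.mono hsub) h1, h2⟩
  | query v c s r e hv' hv hpm h ih =>
    have hvm : v ∉ cov m := fun h => hv' (cov_mono hm h)
    have hsub : insert e m ⊆ insert e s := Finset.insert_subset_insert _ hm
    obtain ⟨r', h1, h2⟩ := ih hpm (insert e m) hsub
    refine ⟨r', Reach.query v c m r' e hvm hv (hpm.mono hsub) h1, ?_⟩
    rw [h2]
    have he : e ∈ r' := h1.subset (Finset.mem_insert_self _ _)
    ext x
    simp only [Finset.mem_union, Finset.mem_insert]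
    constructor
    · rintro ((rfl | h) | h)
      · exact Or.inr he
      · exact Or.inl h
      · exact Or.inr h
    · rintro (h | h)
      · exact Or.inl (Or.inr h)
      · exact Or.inr h

/-- All paths over `m` add at most `t` sets. -/
def Dep (q : ℕ) (T : DT V) (m : Finset (Finset V)) (t : ℕ) : Prop :=
  ∀ r, Reach q T m r → (r \ m).card ≤ t

theorem Dep.mono {q : ℕ} {T : DT V} {m s : Finset (Finset V)} {t : ℕ} (h : Dep q T m t)
    (hs : PM q s) (hm : m ⊆ s) : Dep q T s t := by
  intro r hb
  obtain ⟨r', h1, h2⟩ := hb.restrict hs m hm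
  refine le_trans (Finset.card_le_card ?_) (h r' h1)
  intro x hx
  rw [h2] at hx
  simp only [Finset.mem_sdiff, Finset.mem_union] at hx ⊢
  exact ⟨hx.1.resolve_left hx.2, fun h => hx.2 (hm h)⟩

theorem Dep.flip {q : ℕ} {T : DT V} {m : Finset (Finset V)} {t : ℕ} (h : Dep q T m t) :
    Dep q T.flip m t := by
  intro r hb
  have := hb.flip
  rw [DT.flip_flip] at this
  exact h r this

/-- The tree `T` represents over `m` the disjunction of the trees `S i`. -/
def RepOr (q : ℕ) {ι : Type} (T : DT V) (m : Finset (Finset V)) (S : ι → DT V) : Prop :=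
  (∀ r, Br q T m r false → ∀ i s, Br q (S i) m s true → ¬ PM q (r ∪ s)) ∧
  (∀ r, Br q T m r true → ∃ i, ∀ s, Br q (S i) m s false → ¬ PM q (r ∪ s))

theorem RepOr.mono {q : ℕ} {ι : Type} {T : DT V} {m n : Finset (Finset V)} {S : ι → DT V}
    (h : RepOr q T m S) (hn : PM q n) (hm : m ⊆ n) : RepOr q T n S := by
  constructor
  · intro r hr i s hs hpm
    obtain ⟨r', h1, h2⟩ := hr.restrict hn m hm
    obtain ⟨s', h3, h4⟩ := hs.restrict hn m hm
    refine h.1 r' h1 i s' h3 (hpm.mono ?_)
    rw [h2, h4]
    intro x hx
    simp only [Finset.mem_union] at hx ⊢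
    tauto
  · intro r hr
    obtain ⟨r', h1, h2⟩ := hr.restrict hn m hm
    obtain ⟨i, hi⟩ := h.2 r' h1
    refine ⟨i, fun s hs hpm => ?_⟩
    obtain ⟨s', h3, h4⟩ := hs.restrict hn m hm
    refine hi s' h3 (hpm.mono ?_)
    rw [h2, h4]
    intro x hx
    simp only [Finset.mem_union] at hx ⊢
    tauto

end Pool.Agent.L0h36.BF
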