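import Pool.Agent.L0h36.BF.Points

set_option autoImplicit false
set_option linter.unusedSectionVars false

/-!
# The local model: functions of low degree and negligible functions
-/

namespace Pool.Agent.L0h36.BF

open Finset

/-- A model in which, up to degree `D`, the points of `U` look as if they were partitioned into
sets of size `q`. -/
structure Model (F : Type) [Field F] {V : Type} [DecidableEq V] (q : ℕ) (U : Finset V)
    (D : ℕ) : Type 1 where
  Y : Type
  M : Y → Finset (Finset V)
  A : ℕ → Submodule F (Y → F)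
  K : Submodule F (Y → F)
  pm : ∀ y, PM q (M y)
  sub : ∀ y, cov (M y) ⊆ U
  mono : ∀ {i j : ℕ}, i ≤ j → A i ≤ A j
  one : 1 ∈ A 0
  mul : ∀ {i j : ℕ} {f g : Y → F}, f ∈ A i → g ∈ A j → f * g ∈ A (i + j)
  edge : ∀ e, (fun y => if e ∈ M y then (1 : F) else 0) ∈ A 1
  unc : ∀ v ∈ U, (fun y => if v ∈ cov (M y) then (0 : F) else 1) ∈ K
  uncA : ∀ v ∈ U, (fun y => if v ∈ cov (M y) then (0 : F) else 1) ∈ A 1
  closed : ∀ {i j : ℕ} {f g : Y → F}, f ∈ K → f ∈ A i → g ∈ A j → i + j ≤ D → g * f ∈ K
  one_not : 1 ∉ K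

section

variable {q m r : ℕ} [NeZero q]

/-- The edges at a vertex. -/
def star (u : Fin m) : Finset (Fin m × Fin m) :=
  Finset.univ.filter (fun e => e.1 = u ∨ e.2 = u)

theorem card_star (u : Fin m) : (star u).card ≤ 2 * m := by
  have h1 : star u ⊆ (Finset.univ.image (fun v : Fin m => (u, v))) ∪
      (Finset.univ.image (fun v : Fin m => (v, u))) := by
    rintro ⟨x, y⟩ he
    simp only [star, Finset.mem_filter, Finset.mem_univ, true_and] at he
    simp only [Finset.mem_union, Finset.mem_image, Finset.mem_univ, true_and, Prod.mk.injEq]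
    rcases he with rfl | rfl
    · exact Or.inl ⟨y, rfl, rfl⟩
    · exact Or.inr ⟨x, rfl, rfl⟩
  refine (Finset.card_le_card h1).trans ((Finset.card_union_le _ _).trans ?_)
  have h2 : (Finset.univ.image (fun v : Fin m => (u, v))).card ≤ m := by
    refine Finset.card_image_le.trans ?_
    simp
  have h3 : (Finset.univ.image (fun v : Fin m => (v, u))).card ≤ m := by
    refine Finset.card_image_le.trans ?_
    simp
  omega

theorem nz_dd_single (u : Fin m) (x : ZMod q) :
    nz (dd (Pi.single u x : Fin m → ZMod q)) ≤ 2 * m := by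
  refine le_trans (Finset.card_le_card ?_) (card_star u)
  intro e he
  simp only [Finset.mem_filter, Finset.mem_univ, true_and, star] at he ⊢
  by_contra h
  push Not at h
  apply he
  simp [dd, h.1, h.2]

theorem used_congr {a b : Fin m × Fin m → ZMod q} (u0 : Fin m) (x : Pt q m r)
    (h : ∀ e ∈ star (cl u0 x), a e = b e) : used a x ↔ used b x := by
  match x, h with
  | .inl (e, i, true), h =>
    have := h e (by simp [star, cl])
    simp only [used, this]
  | .inl (e, i, false), h =>
    have := h e (by simp [star, cl])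
    simp only [used, this]
  | .inr i, h => simp only [used]

theorem Rem_congr {a b : Fin m × Fin m → ZMod q} (u0 u : Fin m)
    (h : ∀ e ∈ star u, a e = b e) : Rem r u0 a u = Rem r u0 b u := by
  classical
  unfold Rem
  ext x
  simp only [Finset.mem_filter, Finset.mem_univ, true_and]
  constructor
  · rintro ⟨h1, h2⟩
    refine ⟨h1, fun h3 => h2 ?_⟩
    rw [← h1] at h
    exact (used_congr u0 x h).2 h3
  · rintro ⟨h1, h2⟩
    refine ⟨h1, fun h3 => h2 ?_⟩
    rw [← h1] at h
    exact (used_congr u0 x h).1 h3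

theorem cov_congr {a b : Fin m × Fin m → ZMod q} (u0 : Fin m) (x : Pt q m r)
    (h : ∀ e ∈ star (cl u0 x), a e = b e) :
    x ∈ cov (MM r u0 a) ↔ x ∈ cov (MM r u0 b) := by
  rw [mem_cov_MM, mem_cov_MM, used_congr u0 x h, Rem_congr u0 _ h]

theorem cross_congr {a b : Fin m × Fin m → ZMod q} (e : Fin m × Fin m) (h : a e = b e) :
    cross r a e = cross r b e := by
  classical
  unfold cross
  ext x
  simp only [Finset.mem_filter, Finset.mem_univ, true_and]
  constructor
  · rintro ⟨h1, i, c, rfl⟩
    refine ⟨?_, i, c, rfl⟩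
    cases c <;> simp only [used, h] at h1 ⊢ <;> exact h1
  · rintro ⟨h1, i, c, rfl⟩
    refine ⟨?_, i, c, rfl⟩
    cases c <;> simp only [used, ← h] at h1 ⊢ <;> exact h1

theorem mem_MM_iff {u0 : Fin m} {a : Fin m × Fin m → ZMod q} {B : Finset (Pt q m r)}
    {x : Pt q m r} (hx : x ∈ B) :
    B ∈ MM r u0 a ↔ ((∃ e ∈ star (cl u0 x), a e ≠ 0 ∧ cross r a e = B) ∨
      B ∈ chop q (Rem r u0 a (cl u0 x))) := by
  classical
  rw [mem_MM]
  constructor
  · rintro (⟨e, he, rfl⟩ | ⟨u, hu⟩)
    · left
      refine ⟨e, ?_, he, rfl⟩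
      simp only [cross, Finset.mem_filter, Finset.mem_univ, true_and] at hx
      obtain ⟨-, i, c, rfl⟩ := hx
      cases c <;> simp [star, cl]
    · right
      have h1 := chop_sub q _ hu hx
      simp only [Rem, Finset.mem_filter, Finset.mem_univ, true_and] at h1
      rw [h1.1]
      exact hu
  · rintro (⟨e, -, he, rfl⟩ | hu)
    · exact Or.inl ⟨e, he, rfl⟩
    · exact Or.inr ⟨_, hu⟩

theorem mem_MM_congr {a b : Fin m × Fin m → ZMod q} (u0 : Fin m) {B : Finset (Pt q m r)}
    {x : Pt q m r} (hx : x ∈ B) (h : ∀ e ∈ star (cl u0 x), a e = b e) :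
    B ∈ MM r u0 a ↔ B ∈ MM r u0 b := by
  rw [mem_MM_iff hx, mem_MM_iff hx, Rem_congr u0 _ h]
  constructor
  · rintro (⟨e, he, h1, h2⟩ | h1)
    · refine Or.inl ⟨e, he, ?_, ?_⟩
      · rw [← h e he]; exact h1
      · rw [← cross_congr e (h e he)]; exact h2
    · exact Or.inr h1
  · rintro (⟨e, he, h1, h2⟩ | h1)
    · refine Or.inl ⟨e, he, ?_, ?_⟩
      · rw [h e he]; exact h1
      · rw [cross_congr e (h e he)]; exact h2
    · exact Or.inr h1

end

/-- The model exists if `U` is large. -/
theorem exists_model {F : Type} [Field F] {V : Type} [DecidableEq V] {q : ℕ} (hq : 1 ≤ q)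
    {ω : F} (hω : IsPrimitiveRoot ω q) (U : Finset V) (D : ℕ) (hD : 2 ≤ D)
    (hU : 2048 * q * D ^ 2 ≤ U.card) : Nonempty (Model F q U D) := by
  classical
  have : NeZero q := ⟨by omega⟩
  set m : ℕ := 32 * D with hm
  set b : ℕ := 8 * D with hb
  set s : ℕ := 2 * m * D with hs
  have hmpos : 0 < m := by omega
  set u0 : Fin m := ⟨0, hmpos⟩ with hu0
  set r : ℕ := U.card - (m * m) * ((q - 1) * 2) with hr
  have hle : (m * m) * ((q - 1) * 2) ≤ U.card := by
    refine le_trans ?_ hU
    rw [hm]
    have h1 : (q - 1) * 2 ≤ 2 * q := by omega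
    calc (32 * D * (32 * D)) * ((q - 1) * 2) ≤ (32 * D * (32 * D)) * (2 * q) := by gcongr
      _ = 2048 * q * D ^ 2 := by ring
  have hcard : Fintype.card (Pt q m r) = U.card := by
    simp only [Fintype.card_sum, Fintype.card_prod, Fintype.card_fin, Fintype.card_bool]
    omega
  have hcard' : Fintype.card (Pt q m r) = Fintype.card U := by
    rw [hcard]; simp
  set eqv : Pt q m r ≃ U := Fintype.equivOfCardEq hcard' with heqv
  set em : Pt q m r ↪ V := eqv.toEmbedding.trans (Function.Embedding.subtype _) with hem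
  have hψex : ∃ ψ : AddChar (ZMod q) F, ∀ x : ZMod q, x ≠ 0 → ψ x ≠ 1 := by
    refine ⟨AddChar.zmodChar q hω.pow_eq_one, fun x hx h1 => ?_⟩
    rw [AddChar.zmodChar_apply] at h1
    have h2 := hω.dvd_of_pow_eq_one _ h1
    have h3 : x.val < q := ZMod.val_lt x
    have h4 : x.val = 0 := Nat.eq_zero_of_dvd_of_lt h2 h3
    exact hx ((ZMod.val_eq_zero x).1 h4)
  obtain ⟨ψ, hψ⟩ := hψex
  have hqF : (q : F) ≠ 0 := (hω.neZero' (R := F)).out
  set c : Fin m → ZMod q := fun u =>
    ((Finset.univ.filter (fun x : Pt q m r => cl u0 x = u)).card : ZMod q) with hc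
  have hexp : ∀ g : Fin m → ZMod q, nz g ≤ 2 * b → nz (dd g) ≤ 2 * s → nz g ≤ b := by
    intro g h1 h2
    by_contra h3
    have h4 := nz_dd g
    have h5 : (b + 1) * (m - 2 * b) ≤ nz g * (m - nz g) := by
      apply Nat.mul_le_mul
      · omega
      · omega
    have h6 : (b + 1) * (m - 2 * b) = 128 * D ^ 2 + 16 * D := by
      have : m - 2 * b = 16 * D := by omega
      rw [this, hb]
      ring
    have h7 : 2 * s = 128 * D ^ 2 := by
      rw [hs, hm]
      ring
    omega
  have hcover : ∀ (a : Fin m × Fin m → ZMod q) (x : Pt q m r),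
      em x ∈ cov ((MM r u0 a).map (Finset.mapEmbedding em).toEmbedding) ↔
        x ∈ cov (MM r u0 a) := by
    intro a x
    rw [mem_cov, mem_cov]
    constructor
    · rintro ⟨e, he, hxe⟩
      rw [Finset.mem_map] at he
      obtain ⟨e', he', rfl⟩ := he
      refine ⟨e', he', ?_⟩
      simpa using hxe
    · rintro ⟨e, he, hxe⟩
      refine ⟨e.map em, ?_, ?_⟩
      · rw [Finset.mem_map]
        exact ⟨e, he, rfl⟩
      · exact Finset.mem_map_of_mem em hxe
  have hUem : ∀ v ∈ U, ∃ x, em x = v := by
    intro v hv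
    refine ⟨eqv.symm ⟨v, hv⟩, ?_⟩
    simp [hem]
  have hsm : 2 * m + 2 * m ≤ s := by
    rw [hs]
    nlinarith
  have huncA : ∀ v ∈ U, (fun y => if v ∈ cov ((MM r u0 y).map
      (Finset.mapEmbedding em).toEmbedding) then (0 : F) else 1) ∈
      AA ψ (ι := Fin m × Fin m) (2 * m) := by
    intro v hv
    obtain ⟨x, rfl⟩ := hUem v hv
    refine AA_mono ψ (card_star (cl u0 x)) ?_
    apply junta ψ hψ hqF
    intro a a' h
    simp only [hcover, cov_congr u0 x h]
  refine ⟨{
    Y := Fin m × Fin m → ZMod q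
    M := fun y => (MM r u0 y).map (Finset.mapEmbedding em).toEmbedding
    A := fun i => AA ψ (2 * m * i)
    K := KK ψ b s c
    pm := ?_
    sub := ?_
    mono := ?_
    one := ?_
    mul := ?_
    edge := ?_
    unc := ?_
    uncA := ?_
    closed := ?_
    one_not := ?_ }⟩
  · -- pm
    intro y
    have h1 := MM_pm (r := r) u0 y
    constructor
    · intro e he
      rw [Finset.mem_map] at he
      obtain ⟨e', he', rfl⟩ := he
      simpa using h1.1 e' he'
    · intro e he f hf hne
      rw [Finset.mem_map] at he hf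
      obtain ⟨e', he', rfl⟩ := he
      obtain ⟨f', hf', rfl⟩ := hf
      have h2 : e' ≠ f' := fun h => hne (by rw [h])
      have h3 := h1.2 e' he' f' hf' h2
      simpa using h3
  · -- sub
    intro y v hv
    rw [mem_cov] at hv
    obtain ⟨e, he, hve⟩ := hv
    rw [Finset.mem_map] at he
    obtain ⟨e', he', rfl⟩ := he
    simp only [RelEmbedding.coe_toEmbedding, Finset.mapEmbedding_apply, Finset.mem_map] at hve
    obtain ⟨x, -, rfl⟩ := hve
    exact (eqv x).2
  · -- mono
    intro i j hij
    exact AA_mono ψ (Nat.mul_le_mul_left _ hij)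
  · -- one
    exact one_mem_AA ψ _
  · -- mul
    intro i j f g hf hg
    rw [mul_add]
    exact mul_mem_AA ψ hf hg
  · -- edge
    intro e
    rw [mul_one]
    by_cases he : ∃ e' : Finset (Pt q m r), e'.Nonempty ∧ e = e'.map em
    · obtain ⟨e', ⟨x, hx⟩, rfl⟩ := he
      refine AA_mono ψ (card_star (cl u0 x)) ?_
      apply junta ψ hψ hqF
      intro a a' h
      have h1 : ∀ y : Fin m × Fin m → ZMod q, e'.map em ∈
          (MM r u0 y).map (Finset.mapEmbedding em).toEmbedding ↔ e' ∈ MM r u0 y := by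
        intro y
        rw [Finset.mem_map]
        constructor
        · rintro ⟨e'', he'', h2⟩
          have h3 : e'' = e' := by
            apply (Finset.mapEmbedding em).injective
            exact h2
          rw [← h3]; exact he''
        · intro h2
          exact ⟨e', h2, rfl⟩
      simp only [h1, mem_MM_congr u0 hx h]
    · have h1 : (fun y : Fin m × Fin m → ZMod q => if e ∈ (MM r u0 y).map
          (Finset.mapEmbedding em).toEmbedding then (1 : F) else 0) = 0 := by
        ext y
        rw [if_neg]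
        · rfl
        · intro h2
          apply he
          rw [Finset.mem_map] at h2
          obtain ⟨e', he', rfl⟩ := h2
          refine ⟨e', ?_, rfl⟩
          rw [← Finset.card_pos, (MM_pm (r := r) u0 y).1 e' he']
          omega
      rw [h1]
      exact Submodule.zero_mem _
  · -- unc
    intro v hv
    have h0 := huncA v hv
    obtain ⟨x, rfl⟩ := hUem v hv
    refine KK_vanish ψ b s c hψ hexp hqF (cl u0 x) (by omega) (fun z => nz_dd_single _ z)
      hsm h0 ?_
    intro a ha
    rw [if_pos]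
    rw [hcover, mem_cov_MM]
    right
    have h1 := card_Rem (r := r) u0 a (cl u0 x)
    rw [ha] at h1
    simp only [hc, sub_self] at h1
    exact (ZMod.natCast_eq_zero_iff _ _).1 h1
  · -- uncA
    intro v hv
    rw [mul_one]
    exact huncA v hv
  · -- closed
    intro i j f g hf hfi hg hij
    refine KK_mul ψ b s c hψ hexp hf hfi hg ?_
    rw [← mul_add, hs]
    exact Nat.mul_le_mul_left _ hij
  · exact one_not_mem_KK ψ b s c hψ hqF (by omega)

end Pool.Agent.L0h36.BF
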