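import Pool.Agent.L0h36.BF.Bounds

set_option autoImplicit false
set_option linter.unusedSectionVars false

/-!
# The choice of the parameters
-/

namespace Pool.Agent.L0h36.BF

open Finset

/-- One step: the numbers fit. -/
theorem step_param {q n t x y z : ℕ} (hq : 2 ≤ q) (hx : 4 * q * t * 2 ^ (q ^ 2) ≤ x)
    (hqx : q ≤ x) (hxy : x ≤ y) (hz : y ^ (q ^ 2 + 2) ≤ z) (hzn : z ≤ n) :
    4 * (t * ((n - q * ((n - y) / q)) ^ (q - 1)) ^ q) * (n - q * ((n - y) / q)) ^ q ≤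
      (n - y) / q - (n - z) / q := by
  have hy2 : 2 ≤ y := by omega
  have hyz : y ≤ z := by
    refine le_trans ?_ hz
    calc y = y ^ 1 := (pow_one y).symm
      _ ≤ y ^ (q ^ 2 + 2) := Nat.pow_le_pow_right (by omega) (by omega)
  set u := n - q * ((n - y) / q) with hu
  have hu1 : u ≤ 2 * y := by
    have h1 := Nat.div_add_mod (n - y) q
    have h2 := Nat.mod_lt (n - y) (show 0 < q by omega)
    omega
  have hpow : 4 * (t * (u ^ (q - 1)) ^ q) * u ^ q = 4 * t * u ^ (q ^ 2) := by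
    have h1 : (u ^ (q - 1)) ^ q * u ^ q = u ^ (q ^ 2) := by
      rw [← pow_mul, ← pow_add]
      congr 1
      obtain ⟨k, rfl⟩ : ∃ k, q = k + 1 := ⟨q - 1, by omega⟩
      simp only [Nat.add_sub_cancel]
      ring
    calc 4 * (t * (u ^ (q - 1)) ^ q) * u ^ q = 4 * t * ((u ^ (q - 1)) ^ q * u ^ q) := by ring
      _ = _ := by rw [h1]
  rw [hpow]
  have hmain : q * (4 * t * u ^ (q ^ 2)) + y ≤ z := by
    refine le_trans ?_ hz
    have h1 : u ^ (q ^ 2) ≤ 2 ^ (q ^ 2) * y ^ (q ^ 2) := by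
      rw [← mul_pow]
      exact Nat.pow_le_pow_left hu1 _
    have h2 : q * (4 * t * u ^ (q ^ 2)) ≤ y ^ (q ^ 2 + 1) := by
      calc q * (4 * t * u ^ (q ^ 2)) ≤ q * (4 * t * (2 ^ (q ^ 2) * y ^ (q ^ 2))) := by gcongr
        _ = (4 * q * t * 2 ^ (q ^ 2)) * y ^ (q ^ 2) := by ring
        _ ≤ y * y ^ (q ^ 2) := Nat.mul_le_mul_right _ (hx.trans hxy)
        _ = y ^ (q ^ 2 + 1) := by ring
    have h3 : y ≤ y ^ (q ^ 2 + 1) := by
      calc y = y ^ 1 := (pow_one y).symm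
        _ ≤ y ^ (q ^ 2 + 1) := Nat.pow_le_pow_right (by omega) (by omega)
    calc q * (4 * t * u ^ (q ^ 2)) + y ≤ y ^ (q ^ 2 + 1) + y ^ (q ^ 2 + 1) := Nat.add_le_add h2 h3
      _ = 2 * y ^ (q ^ 2 + 1) := by ring
      _ ≤ y * y ^ (q ^ 2 + 1) := Nat.mul_le_mul_right _ hy2
      _ = y ^ (q ^ 2 + 2) := by ring
  have h4 : (n - z) / q + 4 * t * u ^ (q ^ 2) ≤ (n - y) / q := by
    rw [← Nat.add_mul_div_left _ _ (show 0 < q by omega)]
    apply Nat.div_le_div_right
    omega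
  omega

/-- The constants. -/
def Ec (q : ℕ) : ℕ := q ^ 2 + 2

def Rc (q d : ℕ) : ℕ := Ec q ^ (d + 1) * (2 * d + 7)

def Cc (p q d : ℕ) : ℕ := 3612672 * q ^ 3 * p ^ (2 * d + 2) + 20 * q ^ 2 * 2 ^ (q ^ 2) + q + 4

/-- The lower bound, with natural numbers as parameters. -/
theorem main_bound {p q d b n : ℕ} [Fact p.Prime] (hq : 2 ≤ q) (hpq : p.Coprime q)
    (hb : Cc p q d ≤ b) (hn : b ^ Rc q d ≤ n) {L K : ℕ} (hL : L + 1 ≤ b) (hK : K + 1 ≤ b)
    {π : List (Fml p (Finset (Fin n)))} (hpr : IsProof L π) (hd : ∀ A ∈ π, A.depth ≤ d)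
    (hf : ∀ ψ ∈ Occurring π, ψ.front ≤ K) (hC : countFml p q n ∈ π) :
    2 ^ b ≤ proofSize π := by
  classical
  by_contra hsize
  push Not at hsize
  have hp : p.Prime := Fact.out
  have hb4 : 4 ≤ b := by unfold Cc at hb; omega
  set j0 := 2 * b + 3 with hj0
  set t := q * j0 with ht
  set x := b ^ (2 * d + 7) with hx
  have hb1 : 1 ≤ b := by omega
  have hxb2 : b * b ≤ x := by
    rw [hx, ← pow_two]
    exact Nat.pow_le_pow_right hb1 (by omega)
  have hxb : b ≤ x := le_trans (Nat.le_mul_of_pos_left b hb1) hxb2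
  have hqb : q ≤ b := by unfold Cc at hb; omega
  have hqx : q ≤ x := hqb.trans hxb
  have ht5 : t ≤ 5 * q * b := by
    rw [ht, hj0]
    nlinarith
  have hxt : 4 * q * t * 2 ^ (q ^ 2) ≤ x := by
    have h1 : 20 * q ^ 2 * 2 ^ (q ^ 2) ≤ b := by unfold Cc at hb; omega
    calc 4 * q * t * 2 ^ (q ^ 2) ≤ 4 * q * (5 * q * b) * 2 ^ (q ^ 2) := by gcongr
      _ = (20 * q ^ 2 * 2 ^ (q ^ 2)) * b := by ring
      _ ≤ b * b := Nat.mul_le_mul_right _ h1
      _ ≤ x := hxb2
  have hE : 2 ≤ Ec q := by unfold Ec; omega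
  have hxn : x ^ (Ec q ^ (d + 1)) ≤ n := by
    rw [hx, ← pow_mul, mul_comm]
    exact hn
  set M : ℕ → ℕ := fun h => if h = 0 then n else x ^ (Ec q ^ (d + 1 - h)) with hM
  have hMx : ∀ h, x ≤ M (h + 1) := by
    intro h
    simp only [hM, Nat.succ_ne_zero, if_false]
    calc x = x ^ 1 := (pow_one x).symm
      _ ≤ x ^ (Ec q ^ (d + 1 - (h + 1))) :=
        Nat.pow_le_pow_right (by omega) (Nat.one_le_pow _ _ (by omega))
  have hMstep : ∀ h < d + 1, M (h + 1) ^ (q ^ 2 + 2) ≤ M h := by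
    intro h hh
    have h1 : M (h + 1) ^ (q ^ 2 + 2) = x ^ (Ec q ^ (d + 1 - h)) := by
      simp only [hM, Nat.succ_ne_zero, if_false]
      rw [← pow_mul]
      congr 1
      have : d + 1 - h = (d + 1 - (h + 1)) + 1 := by omega
      rw [this, pow_succ]
      rfl
    rw [h1]
    by_cases h0 : h = 0
    · subst h0
      simpa [hM] using hxn
    · simp only [hM, h0, if_false, le_refl]
  have hMn : ∀ h ≤ d + 1, M h ≤ n := by
    intro h hh
    by_cases h0 : h = 0
    · simp [hM, h0]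
    · simp only [hM, h0, if_false]
      refine le_trans ?_ hxn
      exact Nat.pow_le_pow_right (by omega) (Nat.pow_le_pow_right (by omega) (by omega))
  set A : ℕ → ℕ := fun h => (n - M h) / q with hA
  have hbig : ∀ h < d + 1, 4 * (t * ((n - q * A (h + 1)) ^ (q - 1)) ^ q) *
      (n - q * A (h + 1)) ^ q ≤ A (h + 1) - A h := by
    intro h hh
    exact step_param hq hxt hqx (hMx h) (hMstep h hh) (hMn h (by omega))
  have hle : ∀ h < d + 1, q * A (h + 1) < n := by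
    intro h hh
    have h1 : q * A (h + 1) ≤ n - M (h + 1) := Nat.mul_div_le _ _
    have h2 := hMx h
    have h3 := hMn (h + 1) (by omega)
    omega
  have htpos : 0 < t := by
    rw [ht]
    exact Nat.mul_pos (by omega) (by omega)
  have hlt : ∀ h < d + 1, A h < A (h + 1) := by
    intro h hh
    have h1 := hbig h hh
    have h2 := hle h hh
    have h3 : 0 < n - q * A (h + 1) := by omega
    have h4 : 0 < 4 * (t * ((n - q * A (h + 1)) ^ (q - 1)) ^ q) *
      (n - q * A (h + 1)) ^ q := by positivity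
    omega
  have hcard : 2 * (GG π).card < 2 ^ j0 := by
    have h1 := card_GG hf
    have h2 : proofSize π * 2 ^ K ≤ 2 ^ b * 2 ^ b :=
      Nat.mul_le_mul hsize.le (Nat.pow_le_pow_right (by omega) (by omega))
    have h3 : 2 ^ j0 = 8 * (2 ^ b * 2 ^ b) := by
      rw [hj0, pow_add, two_mul, pow_add]
      ring
    have h4 : 1 ≤ 2 ^ b * 2 ^ b := Nat.one_le_iff_ne_zero.2 (by positivity)
    omega
  have hcardV : Fintype.card (Fin n) = n := Fintype.card_fin n
  obtain ⟨ρ, hρ, hρc, T, hT⟩ := all_stages (by omega) (GG π) (closed_GG π)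
    (fun ψ h => front_GG h) t j0 ht (by omega) hcard A (by simp [hA, hM]) (d + 1) hlt
    (by rw [hcardV]; exact hle) (by rw [hcardV]; exact hbig) (d + 1) (le_refl _)
  have hT' : ∀ ψ ∈ GG π, Dep q (T ψ) ρ t ∧ LC q T ρ ψ := fun ψ hψ =>
    hT ψ hψ (Nat.lt_succ_of_le (depth_GG hd hψ))
  set X := t * (p * (K + 1)) ^ (d + 1) with hX
  have hXb := Fd_occ (t := t) hp.one_le hf hd
  set Dm := (3 * L + 4) * (X + t) + 2 with hDm
  have hDmb : Dm ≤ 42 * q * p ^ (d + 1) * b ^ (d + 3) := by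
    have h1 : X ≤ 5 * q * b * (p * b) ^ (d + 1) := by
      rw [hX]
      gcongr
    have h2 : t ≤ 5 * q * b * (p * b) ^ (d + 1) := by
      refine ht5.trans ?_
      refine Nat.le_mul_of_pos_right _ ?_
      exact Nat.pos_of_ne_zero (pow_ne_zero _ (Nat.mul_ne_zero hp.ne_zero (by omega)))
    have h3 : 3 * L + 4 ≤ 4 * b := by omega
    have h4 : 2 ≤ 2 * q * p ^ (d + 1) * b ^ (d + 3) := by
      have h5 : 1 ≤ q * p ^ (d + 1) * b ^ (d + 3) := by
        refine Nat.one_le_iff_ne_zero.2 ?_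
        refine Nat.mul_ne_zero (Nat.mul_ne_zero (by omega) ?_) ?_
        · exact pow_ne_zero _ hp.ne_zero
        · exact pow_ne_zero _ (by omega)
      nlinarith
    calc Dm ≤ (4 * b) * (5 * q * b * (p * b) ^ (d + 1) + 5 * q * b * (p * b) ^ (d + 1)) +
          2 * q * p ^ (d + 1) * b ^ (d + 3) := by
          rw [hDm]
          gcongr
      _ = 42 * q * p ^ (d + 1) * b ^ (d + 3) := by ring
  have hU : 2048 * q * Dm ^ 2 ≤ (Finset.univ \ cov ρ).card := by
    rw [Finset.card_sdiff_of_subset (Finset.subset_univ _), Finset.card_univ, hcardV, hρ.card_cov,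
      hρc]
    have h1 : q * A (d + 1) ≤ n - M (d + 1) := Nat.mul_div_le _ _
    have h2 : M (d + 1) = x := by simp [hM]
    have h3 := hMn (d + 1) (le_refl _)
    have h4 : 2048 * q * Dm ^ 2 ≤ x := by
      have h5 : 3612672 * q ^ 3 * p ^ (2 * d + 2) ≤ b := by unfold Cc at hb; omega
      calc 2048 * q * Dm ^ 2 ≤ 2048 * q * (42 * q * p ^ (d + 1) * b ^ (d + 3)) ^ 2 := by gcongr
        _ = (3612672 * q ^ 3 * p ^ (2 * d + 2)) * b ^ (2 * d + 6) := by ring
        _ ≤ b * b ^ (2 * d + 6) := Nat.mul_le_mul_right _ h5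
        _ = x := by rw [hx]; ring
    omega
  have hqF : ((q : ℕ) : AlgebraicClosure (ZMod p)) ≠ 0 := by
    rw [Ne, CharP.cast_eq_zero_iff (AlgebraicClosure (ZMod p)) p]
    intro h
    have h1 := Nat.Coprime.eq_one_of_dvd hpq h
    exact hp.one_lt.ne' h1
  have : NeZero ((q : ℕ) : AlgebraicClosure (ZMod p)) := ⟨hqF⟩
  obtain ⟨ω, hω⟩ := HasEnoughRootsOfUnity.exists_primitiveRoot (AlgebraicClosure (ZMod p)) q
  obtain ⟨MD⟩ := exists_model (by omega) hω (Finset.univ \ cov ρ) Dm (by omega) hU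
  exact no_proof MD T hρ hT' hXb (le_refl _) hpr hC

end Pool.Agent.L0h36.BF
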