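import Pool.Agent.L0h36.BF.Match
import Pool.Agent.L0h36.BF.Fourier

set_option autoImplicit false
set_option linter.unusedSectionVars false

/-!
# The systems of disjoint q-sets given by flows
-/

namespace Pool.Agent.L0h36.BF

open Finset

/-- Every set whose size is divisible by `q` is the union of disjoint sets of size `q`. -/
theorem exists_chop {P : Type} [DecidableEq P] {q : ℕ} (k : ℕ) :
    ∀ S : Finset P, S.card = q * k → ∃ M : Finset (Finset P), PM q M ∧ cov M = S := by
  induction k with
  | zero =>
    intro S hS
    rw [mul_zero, Finset.card_eq_zero] at hS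
    subst hS
    exact ⟨∅, PM.empty q, by simp [cov]⟩
  | succ k ih =>
    intro S hS
    have h1 : q ≤ S.card := by rw [hS]; exact Nat.le_mul_of_pos_right _ (by omega)
    obtain ⟨e, he, hec⟩ := Finset.exists_subset_card_eq h1
    obtain ⟨M, hM, hcov⟩ := ih (S \ e) (by
      rw [Finset.card_sdiff_of_subset he, hS, hec, mul_add, mul_one]; omega)
    refine ⟨insert e M, hM.cons hec ?_, ?_⟩
    · rw [hcov]
      exact Finset.disjoint_sdiff
    · rw [cov_insert, hcov]
      exact Finset.union_sdiff_of_subset he

variable {q m r : ℕ} [NeZero q]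

abbrev Pt (q m r : ℕ) : Type := ((Fin m × Fin m) × Fin (q - 1) × Bool) ⊕ Fin r

/-- The vertex to which a point belongs. -/
def cl (u0 : Fin m) : Pt q m r → Fin m
  | .inl (e, _, true) => e.1
  | .inl (e, _, false) => e.2
  | .inr _ => u0

/-- The points used for the sets across. -/
def used (a : Fin m × Fin m → ZMod q) : Pt q m r → Prop
  | .inl (e, i, true) => i.val < (a e).val
  | .inl (e, i, false) => a e ≠ 0 ∧ i.val < q - (a e).val
  | .inr _ => False

open Classical in
noncomputable def cross (r : ℕ) (a : Fin m × Fin m → ZMod q) (e : Fin m × Fin m) :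
    Finset (Pt q m r) :=
  Finset.univ.filter (fun x => used a x ∧ ∃ i b, x = .inl (e, i, b))

open Classical in
noncomputable def Rem (r : ℕ) (u0 : Fin m) (a : Fin m × Fin m → ZMod q) (u : Fin m) :
    Finset (Pt q m r) :=
  Finset.univ.filter (fun x => cl u0 x = u ∧ ¬ used a x)

open Classical in
noncomputable def chop {P : Type} [DecidableEq P] (q : ℕ) (S : Finset P) : Finset (Finset P) :=
  if h : ∃ M : Finset (Finset P), PM q M ∧ cov M = S then h.choose else ∅

theorem chop_pm {P : Type} [DecidableEq P] (q : ℕ) (S : Finset P) : PM q (chop q S) := by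
  classical
  unfold chop
  split_ifs with h
  · exact h.choose_spec.1
  · exact PM.empty q

theorem chop_sub {P : Type} [DecidableEq P] (q : ℕ) (S : Finset P) {e : Finset P} (he : e ∈ chop q S) :
    e ⊆ S := by
  classical
  unfold chop at he
  split_ifs at he with h
  · have h1 := h.choose_spec.2
    intro x hx
    rw [← h1]
    exact mem_cov.2 ⟨e, he, hx⟩
  · simp at he

theorem mem_cov_chop {P : Type} [DecidableEq P] {q : ℕ} {S : Finset P} {x : P}
    (hx : x ∈ S) : x ∈ cov (chop q S) ↔ q ∣ S.card := by
  constructor
  · intro h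
    unfold chop at h
    split_ifs at h with h'
    · have h1 := h'.choose_spec
      have h2 := h1.1.card_cov
      rw [h1.2] at h2
      exact ⟨_, h2⟩
    · simp [cov] at h
  · rintro ⟨k, hk⟩
    have h' := exists_chop k S hk
    unfold chop
    rw [dif_pos h', h'.choose_spec.2]
    exact hx

open Classical in
/-- The system given by the flow `a`. -/
noncomputable def MM (r : ℕ) (u0 : Fin m) (a : Fin m × Fin m → ZMod q) :
    Finset (Finset (Pt q m r)) :=
  (Finset.univ.filter (fun e => a e ≠ 0)).image (fun e => cross r a e) ∪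
    Finset.univ.biUnion (fun u => chop q (Rem r u0 a u))

theorem mem_MM {u0 : Fin m} {a : Fin m × Fin m → ZMod q} {B : Finset (Pt q m r)} :
    B ∈ MM r u0 a ↔ (∃ e, a e ≠ 0 ∧ cross r a e = B) ∨ ∃ u, B ∈ chop q (Rem r u0 a u) := by
  simp [MM]

theorem card_lt_filter (n k : ℕ) (hk : k ≤ n) :
    (Finset.univ.filter (fun i : Fin n => i.val < k)).card = k := by
  rw [Fin.card_filter_val_lt]
  omega

theorem card_cross {a : Fin m × Fin m → ZMod q} {e : Fin m × Fin m} (he : a e ≠ 0) :
    (cross r a e).card = q := by
  classical
  have hval : (a e).val < q := ZMod.val_lt _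
  have hpos : 0 < (a e).val := by
    rw [Nat.pos_iff_ne_zero]
    intro h
    exact he ((ZMod.val_eq_zero _).1 h)
  have h1 : cross r a e = (((Finset.univ.filter (fun i : Fin (q - 1) => i.val < (a e).val)).image
      (fun i => (Sum.inl (e, i, true) : Pt q m r))) ∪
      ((Finset.univ.filter (fun i : Fin (q - 1) => i.val < q - (a e).val)).image
      (fun i => (Sum.inl (e, i, false) : Pt q m r)))) := by
    ext x
    simp only [cross, Finset.mem_filter, Finset.mem_univ, true_and, Finset.mem_union,
      Finset.mem_image]
    constructor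
    · rintro ⟨h1, i, b, rfl⟩
      cases b
      · exact Or.inr ⟨i, h1.2, rfl⟩
      · exact Or.inl ⟨i, h1, rfl⟩
    · rintro (⟨i, hi, rfl⟩ | ⟨i, hi, rfl⟩)
      · exact ⟨hi, i, true, rfl⟩
      · exact ⟨⟨he, hi⟩, i, false, rfl⟩
  rw [h1, Finset.card_union_of_disjoint, Finset.card_image_of_injective,
    Finset.card_image_of_injective, card_lt_filter _ _ (by omega), card_lt_filter _ _ (by omega)]
  · omega
  · intro i j hij
    simpa using hij
  · intro i j hij
    simpa using hij
  · rw [Finset.disjoint_left]
    intro x hx hx'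
    simp only [Finset.mem_image, Finset.mem_filter, Finset.mem_univ, true_and] at hx hx'
    obtain ⟨i, -, rfl⟩ := hx
    obtain ⟨j, -, hj⟩ := hx'
    simp at hj

theorem MM_pm (u0 : Fin m) (a : Fin m × Fin m → ZMod q) : PM q (MM r u0 a) := by
  classical
  constructor
  · intro B hB
    rw [mem_MM] at hB
    rcases hB with ⟨e, he, rfl⟩ | ⟨u, hu⟩
    · exact card_cross he
    · exact (chop_pm q _).1 B hu
  · intro B hB B' hB' hne
    rw [mem_MM] at hB hB'
    rw [Finset.disjoint_left]
    intro x hx hx'
    rcases hB with ⟨e, he, rfl⟩ | ⟨u, hu⟩ <;> rcases hB' with ⟨e', he', rfl⟩ | ⟨u', hu'⟩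
    · simp only [cross, Finset.mem_filter, Finset.mem_univ, true_and] at hx hx'
      obtain ⟨-, i, b, h1⟩ := hx
      obtain ⟨-, j, b', h2⟩ := hx'
      rw [h1] at h2
      simp only [Sum.inl.injEq, Prod.mk.injEq] at h2
      exact hne (by rw [h2.1])
    · have h1 := chop_sub q _ hu' hx'
      simp only [Rem, cross, Finset.mem_filter, Finset.mem_univ, true_and] at h1 hx
      exact h1.2 hx.1
    · have h1 := chop_sub q _ hu hx
      simp only [Rem, cross, Finset.mem_filter, Finset.mem_univ, true_and] at h1 hx'
      exact h1.2 hx'.1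
    · have h1 := chop_sub q _ hu hx
      have h2 := chop_sub q _ hu' hx'
      simp only [Rem, Finset.mem_filter, Finset.mem_univ, true_and] at h1 h2
      have h3 : u = u' := h1.1.symm.trans h2.1
      subst h3
      exact Finset.disjoint_left.1 ((chop_pm q _).2 B hu B' hu' hne) hx hx'

theorem mem_cov_MM (u0 : Fin m) (a : Fin m × Fin m → ZMod q) (x : Pt q m r) :
    x ∈ cov (MM r u0 a) ↔ used a x ∨ q ∣ (Rem r u0 a (cl u0 x)).card := by
  classical
  by_cases hu : used a x
  · simp only [hu, true_or, iff_true]
    rw [mem_cov]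
    match x, hu with
    | .inl (e, i, true), hu =>
      refine ⟨cross r a e, mem_MM.2 (Or.inl ⟨e, ?_, rfl⟩), ?_⟩
      · intro h
        simp [used, h] at hu
      · simp only [cross, Finset.mem_filter, Finset.mem_univ, true_and]
        exact ⟨hu, i, true, rfl⟩
    | .inl (e, i, false), hu =>
      refine ⟨cross r a e, mem_MM.2 (Or.inl ⟨e, hu.1, rfl⟩), ?_⟩
      simp only [cross, Finset.mem_filter, Finset.mem_univ, true_and]
      exact ⟨hu, i, false, rfl⟩
    | .inr i, hu => exact hu.elim
  · simp only [hu, false_or]
    have hxR : x ∈ Rem r u0 a (cl u0 x) := by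
      simp only [Rem, Finset.mem_filter, Finset.mem_univ, true_and]
      exact hu
    rw [← mem_cov_chop hxR, mem_cov, mem_cov]
    constructor
    · rintro ⟨B, hB, hxB⟩
      rw [mem_MM] at hB
      rcases hB with ⟨e, he, rfl⟩ | ⟨u, hB⟩
      · simp only [cross, Finset.mem_filter, Finset.mem_univ, true_and] at hxB
        exact absurd hxB.1 hu
      · have h1 := chop_sub q _ hB hxB
        simp only [Rem, Finset.mem_filter, Finset.mem_univ, true_and] at h1
        rw [← h1.1] at hB
        exact ⟨B, hB, hxB⟩
    · rintro ⟨B, hB, hxB⟩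
      exact ⟨B, mem_MM.2 (Or.inr ⟨_, hB⟩), hxB⟩

/-- The number of points of `u` which are not used. -/
theorem card_Rem (u0 : Fin m) (a : Fin m × Fin m → ZMod q) (u : Fin m) :
    ((Rem r u0 a u).card : ZMod q) =
      ((Finset.univ.filter (fun x : Pt q m r => cl u0 x = u)).card : ZMod q) -
        dot (dd (Pi.single u 1 : Fin m → ZMod q)) a := by
  classical
  have h1 : (Finset.univ.filter (fun x : Pt q m r => cl u0 x = u)).card =
      (Rem r u0 a u).card + (Finset.univ.filter (fun x : Pt q m r => cl u0 x = u ∧
        used a x)).card := by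
    rw [add_comm, ← Finset.card_filter_add_card_filter_not (s := Finset.univ.filter
      (fun x : Pt q m r => cl u0 x = u)) (fun x => used a x)]
    rw [Finset.filter_filter, Finset.filter_filter]
    rfl
  have h2 : ((Finset.univ.filter (fun x : Pt q m r => cl u0 x = u ∧ used a x)).card : ZMod q) =
      dot (dd (Pi.single u 1 : Fin m → ZMod q)) a := by
    rw [Finset.card_filter]
    rw [Fintype.sum_sum_type]
    simp only [cl, used, and_false, if_false, Finset.sum_const_zero, add_zero]
    rw [Fintype.sum_prod_type]
    unfold dot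
    push_cast
    refine Finset.sum_congr rfl fun e _ => ?_
    rw [Fintype.sum_prod_type]
    simp only [Fintype.sum_bool]
    rw [Finset.sum_add_distrib]
    have hval : (a e).val < q := ZMod.val_lt _
    have h3 : (∑ x : Fin (q - 1), if e.1 = u ∧ x.val < (a e).val then (1 : ZMod q) else 0) =
        if e.1 = u then a e else 0 := by
      split_ifs with h
      · simp only [h, true_and]
        rw [← Finset.sum_filter, Finset.sum_const, card_lt_filter _ _ (by omega)]
        simp
      · simp [h]
    have h4 : (∑ x : Fin (q - 1), if e.2 = u ∧ a e ≠ 0 ∧ x.val < q - (a e).val then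
        (1 : ZMod q) else 0) = if e.2 = u then - a e else 0 := by
      split_ifs with h
      · by_cases ha : a e = 0
        · simp [ha]
        · have hpos : 0 < (a e).val := by
            rw [Nat.pos_iff_ne_zero]
            intro h
            exact ha ((ZMod.val_eq_zero _).1 h)
          simp only [h, ha, true_and, ne_eq, not_false_eq_true]
          rw [← Finset.sum_filter, Finset.sum_const, card_lt_filter _ _ (by omega)]
          rw [nsmul_eq_mul, mul_one, Nat.cast_sub hval.le]
          simp
      · simp [h]
    trans ((if e.1 = u then a e else 0) + (if e.2 = u then - a e else 0))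
    · congr 1
      · convert h3
      · convert h4
    · simp only [dd, Pi.single_apply]
      split_ifs <;> ring
  rw [← h2, h1]
  push_cast
  ring

end Pool.Agent.L0h36.BF
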