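import Pool.Agent.L0h36.BF.Model

set_option autoImplicit false
set_option linter.unusedSectionVars false

/-!
# Refinement along the branches of a tree
-/

namespace Pool.Agent.L0h36.BF

open Finset

open Classical in
/-- Indicator functions. -/
noncomputable def ind {Y F : Type} [Zero F] [One F] (P : Y → Prop) : Y → F :=
  fun y => if P y then 1 else 0

theorem ind_pos {Y F : Type} [Zero F] [One F] (P : Y → Prop) {y : Y} (h : P y) :
    (ind P y : F) = 1 := if_pos h

theorem ind_neg {Y F : Type} [Zero F] [One F] (P : Y → Prop) {y : Y} (h : ¬ P y) :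
    (ind P y : F) = 0 := if_neg h

theorem ind_congr {Y F : Type} [Zero F] [One F] {P Q : Y → Prop} (h : ∀ y, P y ↔ Q y) :
    (ind P : Y → F) = ind Q := by
  have : P = Q := funext fun y => propext (h y)
  rw [this]

theorem ind_ite {Y F : Type} [Zero F] [One F] (P : Y → Prop) [DecidablePred P] :
    (fun y => if P y then (1 : F) else 0) = ind P := by
  ext y
  by_cases h : P y
  · simp only [ind, if_pos h]
  · simp only [ind, if_neg h]

theorem ind_ite' {Y F : Type} [Zero F] [One F] (P : Y → Prop) [DecidablePred P] :
    (fun y => if P y then (0 : F) else 1) = ind (fun y => ¬ P y) := by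
  ext y
  by_cases h : P y
  · simp [ind, h]
  · simp [ind, h]

theorem ind_false {Y F : Type} [Zero F] [One F] {P : Y → Prop} (h : ∀ y, ¬ P y) :
    (ind P : Y → F) = 0 := by
  ext y
  exact ind_neg P (h y)

theorem ind_true {Y F : Type} [Zero F] [One F] {P : Y → Prop} (h : ∀ y, P y) :
    (ind P : Y → F) = 1 := by
  ext y
  exact ind_pos P (h y)

theorem ind_and {Y F : Type} [MulZeroOneClass F] (P Q : Y → Prop) :
    (ind (fun y => P y ∧ Q y) : Y → F) = ind P * ind Q := by
  ext y
  by_cases h : P y <;> by_cases h' : Q y <;> simp [ind, h, h']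

variable {F : Type} [Field F] {V : Type} [DecidableEq V] [Fintype V] {q D : ℕ}
  {ρ : Finset (Finset V)} (MD : Model F q (Finset.univ \ cov ρ) D)

/-- The total system at a point of the model. -/
def RR (y : MD.Y) : Finset (Finset V) := ρ ∪ MD.M y

theorem RR_pm (hρ : PM q ρ) (y : MD.Y) : PM q (RR MD y) := by
  refine hρ.union (MD.pm y) ?_
  rw [Finset.disjoint_left]
  intro v hv hv'
  exact (Finset.mem_sdiff.1 (MD.sub y hv')).2 hv

theorem edge_mem (e : Finset V) : (ind (fun y => e ∈ MD.M y) : MD.Y → F) ∈ MD.A 1 := by
  rw [← ind_ite]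
  exact MD.edge e

theorem prod_mem {ι : Type} (S : Finset ι) (f : ι → MD.Y → F) (k : ι → ℕ)
    (h : ∀ i ∈ S, f i ∈ MD.A (k i)) : ∏ i ∈ S, f i ∈ MD.A (∑ i ∈ S, k i) := by
  classical
  induction S using Finset.induction_on with
  | empty => simpa using MD.one
  | insert i S hi ih =>
    rw [Finset.prod_insert hi, Finset.sum_insert hi]
    exact MD.mul (h i (Finset.mem_insert_self _ _))
      (ih fun j hj => h j (Finset.mem_insert_of_mem hj))

/-- The indicator function of the systems which contain `r`. -/
noncomputable def xr (r : Finset (Finset V)) : MD.Y → F := ind (fun y => r ⊆ RR MD y)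

theorem xr_mem (r : Finset (Finset V)) : xr MD r ∈ MD.A (r \ ρ).card := by
  classical
  have h1 : xr MD r = ∏ e ∈ r \ ρ, (ind (fun y => e ∈ MD.M y) : MD.Y → F) := by
    ext y
    rw [Finset.prod_apply]
    unfold xr
    by_cases h : r ⊆ RR MD y
    · rw [ind_pos (fun y => r ⊆ RR MD y) h, Finset.prod_eq_one]
      intro e he
      rw [Finset.mem_sdiff] at he
      apply ind_pos
      exact (Finset.mem_union.1 (h he.1)).resolve_left he.2
    · rw [ind_neg (fun y => r ⊆ RR MD y) h]
      symm
      obtain ⟨e, he, he'⟩ := Finset.not_subset.1 h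
      have h2 : e ∉ ρ := fun h3 => he' (Finset.mem_union_left _ h3)
      refine Finset.prod_eq_zero (Finset.mem_sdiff.2 ⟨he, h2⟩) ?_
      exact ind_neg _ fun h3 => he' (Finset.mem_union_right _ h3)
  rw [h1]
  have h2 := prod_mem MD (r \ ρ) (fun e => (ind (fun y => e ∈ MD.M y) : MD.Y → F))
    (fun _ => 1) (fun e _ => edge_mem MD e)
  simpa using h2

theorem card_insert_sdiff {e : Finset V} {r : Finset (Finset V)} (he : e ∉ r) (hρr : ρ ⊆ r) :
    (insert e r \ ρ).card = (r \ ρ).card + 1 := by
  rw [Finset.card_sdiff_of_subset (hρr.trans (Finset.subset_insert _ _)),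
    Finset.card_sdiff_of_subset hρr, Finset.card_insert_of_notMem he]
  have := Finset.card_le_card hρr
  omega

theorem dep_covered {v : V} {c : Finset V → DT V} {r : Finset (Finset V)} {t : ℕ}
    {e : Finset V} (h : Dep q (.node v c) r t) (he : e ∈ r) (hv : v ∈ e) : Dep q (c e) r t :=
  fun s hs => h s (Reach.covered v c r s e he hv hs)

theorem dep_query {v : V} {c : Finset V → DT V} {r : Finset (Finset V)} {t : ℕ}
    {e : Finset V} (h : Dep q (.node v c) r t) (hv' : v ∉ cov r) (hv : v ∈ e)
    (hpm : PM q (insert e r)) : 1 ≤ t ∧ Dep q (c e) (insert e r) (t - 1) := by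
  have her : e ∉ r := fun h => hv' (mem_cov.2 ⟨e, h, hv⟩)
  have key : ∀ s, insert e r ⊆ s → (s \ r).card = (s \ insert e r).card + 1 := by
    intro s hs
    have h1 : r ⊆ s := (Finset.subset_insert _ _).trans hs
    rw [Finset.card_sdiff_of_subset hs, Finset.card_sdiff_of_subset h1,
      Finset.card_insert_of_notMem her]
    have h2 := Finset.card_le_card hs
    rw [Finset.card_insert_of_notMem her] at h2
    omega
  constructor
  · have h1 := h (insert e r) (Reach.query v c r _ e hv' hv hpm (Reach.here _ _))
    rw [key _ (Finset.Subset.refl _)] at h1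
    omega
  · intro s hs
    have h1 := h s (Reach.query v c r s e hv' hv hpm hs)
    rw [key s hs.subset] at h1
    omega

/-- The value of a shallow tree is a function of low degree. -/
theorem tree_mem (hρ : PM q ρ) (T : DT V) : ∀ (r : Finset (Finset V)) (t : ℕ), ρ ⊆ r →
    Dep q T r t → (ind (fun y => r ⊆ RR MD y ∧ T.val (RR MD y) = true) : MD.Y → F) ∈
      MD.A ((r \ ρ).card + t) := by
  classical
  induction T with
  | leaf b =>
    intro r t hr hT
    refine MD.mono (Nat.le_add_right _ _) ?_
    cases b with
    | false =>
      have : (ind (fun y => r ⊆ RR MD y ∧ (DT.leaf false : DT V).val (RR MD y) = true) :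
          MD.Y → F) = 0 := by
        apply ind_false
        intro y
        simp [DT.val]
      rw [this]
      exact Submodule.zero_mem _
    | true =>
      have : (ind (fun y => r ⊆ RR MD y ∧ (DT.leaf true : DT V).val (RR MD y) = true) :
          MD.Y → F) = xr MD r := by
        apply ind_congr
        intro y
        simp [DT.val]
      rw [this]
      exact xr_mem MD r
  | node v c ih =>
    intro r t hr hT
    by_cases hv : v ∈ cov r
    · obtain ⟨e, he, hve⟩ := mem_cov.1 hv
      have h1 := ih e r t hr (dep_covered hT he hve)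
      have h2 : (ind (fun y => r ⊆ RR MD y ∧ (DT.node v c).val (RR MD y) = true) :
          MD.Y → F) = ind (fun y => r ⊆ RR MD y ∧ (c e).val (RR MD y) = true) := by
        apply ind_congr
        intro y
        refine and_congr_right fun hsub => ?_
        have hex : ∃ e ∈ RR MD y, v ∈ e := ⟨e, hsub he, hve⟩
        have : hex.choose = e := (RR_pm MD hρ y).eq_of_mem hex.choose_spec.1 (hsub he)
          hex.choose_spec.2 hve
        rw [DT.val, dif_pos hex, this]
      rw [h2]
      exact h1
    · have h2 : (ind (fun y => r ⊆ RR MD y ∧ (DT.node v c).val (RR MD y) = true) :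
          MD.Y → F) = ∑ e ∈ Finset.univ.filter (fun e : Finset V => v ∈ e ∧ PM q (insert e r)),
            ind (fun y => insert e r ⊆ RR MD y ∧ (c e).val (RR MD y) = true) := by
        ext y
        rw [Finset.sum_apply]
        have hpm := RR_pm MD hρ y
        by_cases h : r ⊆ RR MD y ∧ (DT.node v c).val (RR MD y) = true
        · rw [ind_pos (fun y => r ⊆ RR MD y ∧ (DT.node v c).val (RR MD y) = true) h]
          obtain ⟨hsub, hval⟩ := h
          rw [DT.val] at hval
          split_ifs at hval with hex
          obtain ⟨h3, h4⟩ := hex.choose_spec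
          have hins : insert hex.choose r ⊆ RR MD y := Finset.insert_subset h3 hsub
          rw [Finset.sum_eq_single hex.choose]
          · rw [ind_pos]
            exact ⟨hins, hval⟩
          · intro e he hne
            apply ind_neg
            rintro ⟨h5, -⟩
            rw [Finset.mem_filter] at he
            exact hne (hpm.eq_of_mem (h5 (Finset.mem_insert_self _ _)) h3 he.2.1 h4)
          · intro h5
            exfalso
            apply h5
            rw [Finset.mem_filter]
            exact ⟨Finset.mem_univ _, h4, hpm.mono hins⟩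
        · rw [ind_neg (fun y => r ⊆ RR MD y ∧ (DT.node v c).val (RR MD y) = true) h]
          symm
          apply Finset.sum_eq_zero
          intro e he
          rw [Finset.mem_filter] at he
          apply ind_neg
          rintro ⟨h5, h6⟩
          apply h
          refine ⟨(Finset.subset_insert _ _).trans h5, ?_⟩
          have hem := h5 (Finset.mem_insert_self _ _)
          have hex : ∃ e ∈ RR MD y, v ∈ e := ⟨e, hem, he.2.1⟩
          have : hex.choose = e := hpm.eq_of_mem hex.choose_spec.1 hem
            hex.choose_spec.2 he.2.1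
          rw [DT.val, dif_pos hex, this]
          exact h6
      rw [h2]
      refine Submodule.sum_mem _ fun e he => ?_
      rw [Finset.mem_filter] at he
      obtain ⟨h3, h4⟩ := dep_query hT hv he.2.1 he.2.2
      have h5 := ih e (insert e r) (t - 1) (hr.trans (Finset.subset_insert _ _)) h4
      have her : e ∉ r := fun h => hv (mem_cov.2 ⟨e, h, he.2.1⟩)
      rw [card_insert_sdiff her hr] at h5
      have h6 : (r \ ρ).card + 1 + (t - 1) = (r \ ρ).card + t := by omega
      rw [h6] at h5
      exact h5

/-- If `h` is negligible on each branch, then it is negligible. -/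
theorem refine_tree (hρ : PM q ρ) (T : DT V) : ∀ (r : Finset (Finset V)) (t k : ℕ)
    (h : MD.Y → F), ρ ⊆ r → Dep q T r t → h ∈ MD.A k →
    (r \ ρ).card + t + 1 + k ≤ D → (∀ s b, Br q T r s b → xr MD s * h ∈ MD.K) →
    xr MD r * h ∈ MD.K := by
  classical
  induction T with
  | leaf b =>
    intro r t k h hr hT hh hD hbr
    exact hbr r b (Br.leaf _ _)
  | node v c ih =>
    intro r t k h hr hT hh hD hbr
    by_cases hv : v ∈ cov r
    · obtain ⟨e, he, hve⟩ := mem_cov.1 hv
      exact ih e r t k h hr (dep_covered hT he hve) hh hD fun s b hs =>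
        hbr s b (Br.covered v c r s b e he hve hs)
    · have h2 : xr MD r * h =
          ∑ e ∈ Finset.univ.filter (fun e : Finset V => v ∈ e ∧ PM q (insert e r)),
            xr MD (insert e r) * h +
          (xr MD r * h) * (ind (fun y => ¬ v ∈ cov (MD.M y)) : MD.Y → F) := by
        ext y
        simp only [Pi.add_apply, Pi.mul_apply, Finset.sum_apply]
        rw [← Finset.sum_mul]
        have hpm := RR_pm MD hρ y
        by_cases hsub : r ⊆ RR MD y
        · have h3 : (xr MD r y : F) = 1 := ind_pos (fun y => r ⊆ RR MD y) hsub
          rw [h3, one_mul]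
          by_cases hvc : v ∈ cov (MD.M y)
          · have h4 : (ind (fun y => ¬ v ∈ cov (MD.M y)) y : F) = 0 :=
              ind_neg (fun y => ¬ v ∈ cov (MD.M y)) (by simpa using hvc)
            rw [h4, mul_zero, add_zero]
            obtain ⟨e, he, hve⟩ := mem_cov.1 hvc
            have heR : e ∈ RR MD y := Finset.mem_union_right _ he
            have hins : insert e r ⊆ RR MD y := Finset.insert_subset heR hsub
            have h5 : ∑ e ∈ Finset.univ.filter
                (fun e : Finset V => v ∈ e ∧ PM q (insert e r)), (xr MD (insert e r) y : F) = 1 := by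
              rw [Finset.sum_eq_single e]
              · exact ind_pos (fun y => insert e r ⊆ RR MD y) hins
              · intro f hf hne
                apply ind_neg (fun y => insert f r ⊆ RR MD y)
                intro h6
                rw [Finset.mem_filter] at hf
                exact hne (hpm.eq_of_mem (h6 (Finset.mem_insert_self _ _)) heR hf.2.1 hve)
              · intro h6
                exfalso
                apply h6
                rw [Finset.mem_filter]
                exact ⟨Finset.mem_univ _, hve, hpm.mono hins⟩
            rw [h5, one_mul]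
          · have h4 : (ind (fun y => ¬ v ∈ cov (MD.M y)) y : F) = 1 :=
              ind_pos (fun y => ¬ v ∈ cov (MD.M y)) hvc
            have h5 : ∑ e ∈ Finset.univ.filter
                (fun e : Finset V => v ∈ e ∧ PM q (insert e r)), (xr MD (insert e r) y : F) = 0 := by
              apply Finset.sum_eq_zero
              intro f hf
              apply ind_neg (fun y => insert f r ⊆ RR MD y)
              intro h6
              rw [Finset.mem_filter] at hf
              rcases Finset.mem_union.1 (h6 (Finset.mem_insert_self _ _)) with h7 | h7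
              · exact hv (mem_cov.2 ⟨f, hr h7, hf.2.1⟩)
              · exact hvc (mem_cov.2 ⟨f, h7, hf.2.1⟩)
            rw [h5, h4, zero_mul, zero_add, mul_one]
        · have h3 : (xr MD r y : F) = 0 := ind_neg (fun y => r ⊆ RR MD y) hsub
          have h5 : ∑ e ∈ Finset.univ.filter
              (fun e : Finset V => v ∈ e ∧ PM q (insert e r)), (xr MD (insert e r) y : F) = 0 := by
            apply Finset.sum_eq_zero
            intro f hf
            apply ind_neg (fun y => insert f r ⊆ RR MD y)
            intro h6
            exact hsub ((Finset.subset_insert _ _).trans h6)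
          rw [h5, h3, zero_mul, zero_mul, add_zero]
      rw [h2]
      refine Submodule.add_mem _ (Submodule.sum_mem _ fun e he => ?_) ?_
      · rw [Finset.mem_filter] at he
        obtain ⟨h3, h4⟩ := dep_query hT hv he.2.1 he.2.2
        have her : e ∉ r := fun h => hv (mem_cov.2 ⟨e, h, he.2.1⟩)
        refine ih e (insert e r) (t - 1) k h (hr.trans (Finset.subset_insert _ _)) h4 hh ?_ ?_
        · rw [card_insert_sdiff her hr]
          omega
        · intro s b hs
          exact hbr s b (Br.query v c r s b e hv he.2.1 he.2.2 hs)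
      · have hvU : v ∈ Finset.univ \ cov ρ :=
          Finset.mem_sdiff.2 ⟨Finset.mem_univ _, fun h => hv (cov_mono hr h)⟩
        have h3 := MD.unc v hvU
        have h4 := MD.uncA v hvU
        rw [ind_ite'] at h3 h4
        exact MD.closed h3 h4 (MD.mul (xr_mem MD r) hh) (by omega)

/-- Refinement along several trees. -/
theorem refine_list (hρ : PM q ρ) (t : ℕ) (Ts : List (DT V)) : ∀ (r : Finset (Finset V)) (k : ℕ)
    (h : MD.Y → F), ρ ⊆ r → PM q r → (∀ T ∈ Ts, Dep q T ρ t) → h ∈ MD.A k →
    (r \ ρ).card + Ts.length * t + 1 + k ≤ D →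
    (∀ r', r ⊆ r' → PM q r' → (r' \ ρ).card ≤ (r \ ρ).card + Ts.length * t →
      (∀ T ∈ Ts, ∃ m b, Br q T ρ m b ∧ m ⊆ r') → xr MD r' * h ∈ MD.K) →
    xr MD r * h ∈ MD.K := by
  induction Ts with
  | nil =>
    intro r k h hr hpm hT hh hD hbr
    exact hbr r (Finset.Subset.refl _) hpm (by simp) (by simp)
  | cons T Ts ih =>
    intro r k h hr hpm hT hh hD hbr
    rw [List.length_cons] at hD hbr
    have hlen : (Ts.length + 1) * t = Ts.length * t + t := by ring
    rw [hlen] at hD hbr
    have hTr : Dep q T r t := (hT T (by simp)).mono hpm hr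
    refine refine_tree MD hρ T r t k h hr hTr hh (by omega) fun s b hs => ?_
    have hsub := hs.subset
    have hsc : (s \ ρ).card ≤ (r \ ρ).card + t := by
      have h1 := hTr s hs.reach
      have h2 : s \ ρ ⊆ (r \ ρ) ∪ (s \ r) := by
        intro x hx
        simp only [Finset.mem_union, Finset.mem_sdiff] at hx ⊢
        by_cases hxr : x ∈ r
        · exact Or.inl ⟨hxr, hx.2⟩
        · exact Or.inr ⟨hx.1, hxr⟩
      have h3 := (Finset.card_le_card h2).trans (Finset.card_union_le _ _)
      omega
    have hsp : PM q s := hs.pm hpm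
    obtain ⟨m, hm, hms⟩ := hs.restrict hpm ρ hr
    have hms' : m ⊆ s := by
      rw [hms]; exact Finset.subset_union_right
    refine ih s k h (hr.trans hsub) hsp (fun T' hT' => hT T' (by simp [hT'])) hh (by omega) ?_
    intro r' hr' hpm' hc hall
    refine hbr r' (hsub.trans hr') hpm' (by omega) ?_
    intro T' hT'
    rcases List.mem_cons.1 hT' with rfl | hT'
    · exact ⟨m, b, hm, hms'.trans hr'⟩
    · exact hall T' hT'

end Pool.Agent.L0h36.BF
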