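import Pool.Agent.L0h36.BF.Trans

set_option autoImplicit false
set_option linter.unusedSectionVars false

/-!
# Soundness in the local model
-/

namespace Pool.Agent.L0h36.BF

open Finset

variable {V : Type} [DecidableEq V] {q : ℕ} {ρ : Finset (Finset V)}

/-- No branch with the label `b` is compatible with `r`. -/
def NoBr (q : ℕ) (T : DT V) (ρ r : Finset (Finset V)) (b : Bool) : Prop :=
  ∀ s, Br q T ρ s b → ¬ PM q (r ∪ s)

theorem NoBr.of_br {T : DT V} {m r : Finset (Finset V)} {b : Bool} (h : Br q T ρ m b)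
    (hmr : m ⊆ r) : NoBr q T ρ r (!b) := by
  intro s hs hp
  have := (h.unique hs hp (hmr.trans Finset.subset_union_left) Finset.subset_union_right).2
  cases b <;> simp at this

theorem not_NoBr {T : DT V} {m r : Finset (Finset V)} {b : Bool} (h : Br q T ρ m b)
    (hmr : m ⊆ r) (hr : PM q r) : ¬ NoBr q T ρ r b := by
  intro h'
  refine h' m h ?_
  rwa [Finset.union_eq_left.2 hmr]

section rep

variable {p : ℕ} {T : Fml p (Finset V) → DT V}

theorem rep_or_true {k : ℕ} {g : Fin k → Fml p (Finset V)} {m r : Finset (Finset V)}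
    (hLC : LC q T ρ (.or k g)) (hLCg : ∀ j, LC q T ρ (g j)) (hm : Br q (T (.or k g)) ρ m true)
    (hmr : m ⊆ r) : ∃ j, NoBr q (T (g j)) ρ r false := by
  obtain ⟨ξ, hξ, τ, hτ, hτm⟩ := hLC.1 m hm
  rw [Fml.orLeaves, Set.mem_iUnion] at hξ
  obtain ⟨j, hj⟩ := hξ
  refine ⟨j, ?_⟩
  have hg := hLCg j
  revert hj hg
  generalize g j = ψ
  intro hj hg
  cases ψ with
  | or k' g' =>
    intro s hs hp
    refine hg.2.1 s hs ξ hj τ hτ (hp.mono ?_)
    exact Finset.union_subset Finset.subset_union_right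
      ((hτm.trans hmr).trans Finset.subset_union_left)
  | var x =>
    rw [Fml.orLeaves, Set.mem_singleton_iff] at hj
    rw [hj] at hτ
    exact NoBr.of_br hτ (hτm.trans hmr)
  | neg φ =>
    rw [Fml.orLeaves, Set.mem_singleton_iff] at hj
    rw [hj] at hτ
    exact NoBr.of_br hτ (hτm.trans hmr)
  | and k' g' =>
    rw [Fml.orLeaves, Set.mem_singleton_iff] at hj
    rw [hj] at hτ
    exact NoBr.of_br hτ (hτm.trans hmr)
  | mod i k' g' =>
    rw [Fml.orLeaves, Set.mem_singleton_iff] at hj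
    rw [hj] at hτ
    exact NoBr.of_br hτ (hτm.trans hmr)

theorem rep_or_false {k : ℕ} {g : Fin k → Fml p (Finset V)} {m r : Finset (Finset V)}
    (hLC : LC q T ρ (.or k g)) (hLCg : ∀ j, LC q T ρ (g j)) (hm : Br q (T (.or k g)) ρ m false)
    (hmr : m ⊆ r) (j : Fin k) : NoBr q (T (g j)) ρ r true := by
  have hsub : (g j).orLeaves ⊆ (Fml.or k g).orLeaves := by
    rw [Fml.orLeaves]
    exact Set.subset_iUnion (fun j => (g j).orLeaves) j
  have h2 := hLC.2.1 m hm
  have hg := hLCg j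
  revert hsub hg
  generalize g j = ψ
  intro hsub hg s hs hp
  have hself : ψ.isOr = false → False := by
    intro h
    refine h2 ψ (hsub ?_) s hs (hp.mono ?_)
    · rw [Fml.orLeaves_of_not_isOr h]
      exact Set.mem_singleton _
    · exact Finset.union_subset_union_left hmr
  cases ψ with
  | or k' g' =>
    obtain ⟨ξ, hξ, τ, hτ, hτs⟩ := hg.1 s hs
    exact h2 ξ (hsub hξ) τ hτ (hp.mono (Finset.union_subset_union hmr hτs))
  | var x => exact hself rfl
  | neg φ => exact hself rfl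
  | and k' g' => exact hself rfl
  | mod i k' g' => exact hself rfl

theorem rep_and_false {k : ℕ} {g : Fin k → Fml p (Finset V)} {m r : Finset (Finset V)}
    (hLC : LC q T ρ (.and k g)) (hLCg : ∀ j, LC q T ρ (g j)) (hm : Br q (T (.and k g)) ρ m false)
    (hmr : m ⊆ r) : ∃ j, NoBr q (T (g j)) ρ r true := by
  obtain ⟨ξ, hξ, τ, hτ, hτm⟩ := hLC.1 m hm
  rw [Fml.andLeaves, Set.mem_iUnion] at hξ
  obtain ⟨j, hj⟩ := hξ
  refine ⟨j, ?_⟩
  have hg := hLCg j
  revert hj hg
  generalize g j = ψ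
  intro hj hg
  cases ψ with
  | and k' g' =>
    intro s hs hp
    refine hg.2.1 s hs ξ hj τ hτ (hp.mono ?_)
    exact Finset.union_subset Finset.subset_union_right
      ((hτm.trans hmr).trans Finset.subset_union_left)
  | var x =>
    rw [Fml.andLeaves, Set.mem_singleton_iff] at hj
    rw [hj] at hτ
    exact NoBr.of_br hτ (hτm.trans hmr)
  | neg φ =>
    rw [Fml.andLeaves, Set.mem_singleton_iff] at hj
    rw [hj] at hτ
    exact NoBr.of_br hτ (hτm.trans hmr)
  | or k' g' =>
    rw [Fml.andLeaves, Set.mem_singleton_iff] at hj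
    rw [hj] at hτ
    exact NoBr.of_br hτ (hτm.trans hmr)
  | mod i k' g' =>
    rw [Fml.andLeaves, Set.mem_singleton_iff] at hj
    rw [hj] at hτ
    exact NoBr.of_br hτ (hτm.trans hmr)

theorem rep_and_true {k : ℕ} {g : Fin k → Fml p (Finset V)} {m r : Finset (Finset V)}
    (hLC : LC q T ρ (.and k g)) (hLCg : ∀ j, LC q T ρ (g j)) (hm : Br q (T (.and k g)) ρ m true)
    (hmr : m ⊆ r) (j : Fin k) : NoBr q (T (g j)) ρ r false := by
  have hsub : (g j).andLeaves ⊆ (Fml.and k g).andLeaves := by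
    rw [Fml.andLeaves]
    exact Set.subset_iUnion (fun j => (g j).andLeaves) j
  have h2 := hLC.2.1 m hm
  have hg := hLCg j
  revert hsub hg
  generalize g j = ψ
  intro hsub hg s hs hp
  have hself : ψ.isAnd = false → False := by
    intro h
    refine h2 ψ (hsub ?_) s hs (hp.mono ?_)
    · rw [Fml.andLeaves_of_not_isAnd h]
      exact Set.mem_singleton _
    · exact Finset.union_subset_union_left hmr
  cases ψ with
  | and k' g' =>
    obtain ⟨ξ, hξ, τ, hτ, hτs⟩ := hg.1 s hs
    exact h2 ξ (hsub hξ) τ hτ (hp.mono (Finset.union_subset_union hmr hτs))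
  | var x => exact hself rfl
  | neg φ => exact hself rfl
  | or k' g' => exact hself rfl
  | mod i k' g' => exact hself rfl

end rep

section insts

variable {p : ℕ} {T : Fml p (Finset V) → DT V} {π : List (Fml p (Finset V))}

theorem occ_neg {φ : Fml p (Finset V)} (h : Fml.neg φ ∈ Occurring π) : φ ∈ Occurring π := by
  obtain ⟨A, hA, hs⟩ := h
  exact ⟨A, hA, Fml.subs_trans (Fml.neg_mem_subs φ) hs⟩

theorem occ_and {k : ℕ} {f : Fin k → Fml p (Finset V)} (h : Fml.and k f ∈ Occurring π)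
    (j : Fin k) : f j ∈ Occurring π := by
  obtain ⟨A, hA, hs⟩ := h
  exact ⟨A, hA, Fml.subs_trans (Fml.and_mem_subs f j) hs⟩

theorem occ_or {k : ℕ} {f : Fin k → Fml p (Finset V)} (h : Fml.or k f ∈ Occurring π)
    (j : Fin k) : f j ∈ Occurring π := by
  obtain ⟨A, hA, hs⟩ := h
  exact ⟨A, hA, Fml.subs_trans (Fml.or_mem_subs f j) hs⟩

theorem occ_mod {i : ZMod p} {k : ℕ} {f : Fin k → Fml p (Finset V)}
    (h : Fml.mod i k f ∈ Occurring π) (j : Fin k) : f j ∈ Occurring π := by
  obtain ⟨A, hA, hs⟩ := h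
  exact ⟨A, hA, Fml.subs_trans (Fml.mod_mem_subs f j) hs⟩

theorem sv_mem_GG (ev : Fml p (Finset V) → Bool) {φ : Fml p (Finset V)}
    (h : φ ∈ Occurring π) : Fml.sv ev φ ∈ GG π :=
  mem_GG.2 (Or.inl ⟨φ, h, Fml.sv_mem ev φ⟩)

/-- The truth values given by `r`. -/
def ww (q : ℕ) (T : Fml p (Finset V) → DT V) (ρ r : Finset (Finset V))
    (ev : Fml p (Finset V) → Bool) (φ : Fml p (Finset V)) : Prop :=
  NoBr q (T (Fml.sv ev φ)) ρ r false

theorem T_tt (hT : ∀ ψ ∈ GG π, LC q T ρ ψ) : T .tt = .leaf true :=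
  (hT .tt (mem_GG.2 (Or.inr (Or.inl rfl)))).2.2 rfl

theorem T_ff (hT : ∀ ψ ∈ GG π, LC q T ρ ψ) : T .ff = .leaf false :=
  (hT .ff (mem_GG.2 (Or.inr (Or.inr rfl)))).2.2 rfl

theorem ww_mod (hT : ∀ ψ ∈ GG π, LC q T ρ ψ) {r : Finset (Finset V)} (hρr : ρ ⊆ r)
    (hr : PM q r) (ev : Fml p (Finset V) → Bool) (i : ZMod p) (k : ℕ)
    (f : Fin k → Fml p (Finset V)) :
    ww q T ρ r ev (.mod i k f) ↔
      (∑ j, (if ev (Fml.sv ev (f j)) = true then (1 : ZMod p) else 0)) = i := by
  unfold ww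
  rw [Fml.sv]
  by_cases h : (∑ j, (if ev (Fml.sv ev (f j)) = true then (1 : ZMod p) else 0)) = i
  · rw [if_pos h, T_tt hT]
    refine iff_of_true ?_ h
    exact NoBr.of_br (Br.leaf true ρ) hρr
  · rw [if_neg h, T_ff hT]
    refine iff_of_false ?_ h
    exact not_NoBr (Br.leaf false ρ) hρr hr

/-- The truth values given by `r` are correct, or some tree has no branch compatible with `r`. -/
theorem correct_or_dead (hT : ∀ ψ ∈ GG π, LC q T ρ ψ) {r m : Finset (Finset V)} (hρr : ρ ⊆ r)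
    (hr : PM q r) (ev : Fml p (Finset V) → Bool) {ψ : Fml p (Finset V)}
    (hψ : ψ ∈ Occurring π) {b : Bool} (hm : Br q (T (Fml.sv ev ψ)) ρ m b) (hmr : m ⊆ r) :
    Fml.CorrectAt (ww q T ρ r ev) ψ ∨ ∃ χ ∈ GG π, ∀ b, NoBr q (T χ) ρ r b := by
  cases ψ with
  | var x => left; trivial
  | neg φ =>
    left
    rw [Fml.CorrectAt]
    have h1 := hT _ (sv_mem_GG ev hψ)
    rw [Fml.sv, LC] at h1
    unfold ww
    rw [Fml.sv, h1] at hm ⊢
    rw [Br.flip_iff] at hm
    have h2 : NoBr q (T (Fml.sv ev φ)).flip ρ r false ↔ NoBr q (T (Fml.sv ev φ)) ρ r true := by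
      constructor
      · intro h s hs
        exact h s (Br.flip_iff.2 hs)
      · intro h s hs
        exact h s (Br.flip_iff.1 hs)
    rw [h2]
    have h3 := NoBr.of_br hm hmr
    have h4 := not_NoBr hm hmr hr
    cases b <;> simp only [Bool.not_false, Bool.not_true] at h3 h4
    · exact iff_of_false h4 (by simpa using h3)
    · exact iff_of_true h3 h4
  | and k f =>
    rw [Fml.CorrectAt]
    have h1 := hT _ (sv_mem_GG ev hψ)
    have h2 : ∀ j, LC q T ρ (Fml.sv ev (f j)) := fun j => hT _ (sv_mem_GG ev (occ_and hψ j))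
    rw [Fml.sv] at h1 hm
    unfold ww
    have h3 := NoBr.of_br hm hmr
    have h4 := not_NoBr hm hmr hr
    cases b with
    | true =>
      left
      rw [Fml.sv]
      exact iff_of_true h3 (rep_and_true h1 h2 hm hmr)
    | false =>
      obtain ⟨j, hj⟩ := rep_and_false h1 h2 hm hmr
      by_cases h5 : NoBr q (T (Fml.sv ev (f j))) ρ r false
      · right
        refine ⟨_, sv_mem_GG ev (occ_and hψ j), fun b => ?_⟩
        cases b
        · exact h5
        · exact hj
      · left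
        rw [Fml.sv]
        exact iff_of_false h4 fun h => h5 (h j)
  | or k f =>
    rw [Fml.CorrectAt]
    have h1 := hT _ (sv_mem_GG ev hψ)
    have h2 : ∀ j, LC q T ρ (Fml.sv ev (f j)) := fun j => hT _ (sv_mem_GG ev (occ_or hψ j))
    rw [Fml.sv] at h1 hm
    unfold ww
    have h3 := NoBr.of_br hm hmr
    have h4 := not_NoBr hm hmr hr
    cases b with
    | true =>
      left
      rw [Fml.sv]
      exact iff_of_true h3 (rep_or_true h1 h2 hm hmr)
    | false =>
      have h6 := rep_or_false h1 h2 hm hmr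
      by_cases h5 : ∃ j, NoBr q (T (Fml.sv ev (f j))) ρ r false
      · obtain ⟨j, hj⟩ := h5
        right
        refine ⟨_, sv_mem_GG ev (occ_or hψ j), fun b => ?_⟩
        cases b
        · exact hj
        · exact h6 j
      · left
        rw [Fml.sv]
        exact iff_of_false h4 h5
  | mod i k f =>
    left
    rw [Fml.CorrectAt]
    intro hk
    subst hk
    rw [ww_mod hT hρr hr, Finset.univ_eq_empty, Finset.sum_empty]
    exact eq_comm

/-- The truth values satisfy the defining axioms. -/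
theorem respects (hT : ∀ ψ ∈ GG π, LC q T ρ ψ) {r m : Finset (Finset V)} (hρr : ρ ⊆ r)
    (hr : PM q r) (ev : Fml p (Finset V) → Bool) (μ : ModAxiom p (Finset V)) {b : Bool}
    (hm : Br q (T (Fml.sv ev μ.φ)) ρ m b) (hmr : m ⊆ r) (hb : ev (Fml.sv ev μ.φ) = b) :
    μ.Respects (ww q T ρ r ev) := by
  unfold ModAxiom.Respects
  rw [ww_mod hT hρr hr, ww_mod hT hρr hr, ww_mod hT hρr hr]
  have h1 : (∑ j, (if ev (Fml.sv ev (μ.f j)) = true then (1 : ZMod p) else 0)) =
      (if ev (Fml.sv ev μ.φ) = true then (1 : ZMod p) else 0) +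
        ∑ j, (if ev (Fml.sv ev (μ.g j)) = true then (1 : ZMod p) else 0) := by
    rw [← Equiv.sum_comp μ.order.symm, Fintype.sum_option]
    congr 1
    · rw [μ.eq, Equiv.apply_symm_apply]
      rfl
    · refine Finset.sum_congr rfl fun j _ => ?_
      rw [μ.eq, Equiv.apply_symm_apply]
      rfl
  rw [h1]
  have h3 := NoBr.of_br hm hmr
  have h4 := not_NoBr hm hmr hr
  have hw : ww q T ρ r ev μ.φ = NoBr q (T (Fml.sv ev μ.φ)) ρ r false := rfl
  rw [hb, hw]
  cases b with
  | true =>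
    have h5 : NoBr q (T (Fml.sv ev μ.φ)) ρ r false := h3
    simp only [if_true, h5, true_and, not_true, false_and, or_false]
    rw [eq_sub_iff_add_eq, add_comm]
  | false =>
    simp [h4]

end insts

end Pool.Agent.L0h36.BF
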