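import Pool.Agent.L0h36.BF.Sound

set_option autoImplicit false
set_option linter.unusedSectionVars false

/-!
# Each line of a proof is true up to a negligible function, and the final contradiction
-/

namespace Pool.Agent.L0h36.BF

open Finset

theorem ind_ne_zero {Y F : Type} [Zero F] [One F] (P : Y → Prop) {y : Y}
    (h : (ind P y : F) ≠ 0) : P y := by
  by_contra h'
  exact h (ind_neg P h')

section main

variable {F : Type} [Field F] {V : Type} [DecidableEq V] [Fintype V] {p q D t X : ℕ}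
  {ρ : Finset (Finset V)} (MD : Model F q (Finset.univ \ cov ρ) D)
  (T : Fml p (Finset V) → DT V) {π : List (Fml p (Finset V))}

theorem dead_mem (hρ : PM q ρ) {χ : Fml p (Finset V)} (hdep : Dep q (T χ) ρ t)
    {r : Finset (Finset V)} (hρr : ρ ⊆ r) (hr : PM q r) (hdead : ∀ b, NoBr q (T χ) ρ r b)
    {k : ℕ} {h : MD.Y → F} (hh : h ∈ MD.A k) (hD : (r \ ρ).card + t + 1 + k ≤ D) :
    xr MD r * h ∈ MD.K := by
  refine refine_tree MD hρ (T χ) r t k h hρr (hdep.mono hr hρr) hh hD fun s b hs => ?_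
  exfalso
  obtain ⟨m, hm, hsm⟩ := hs.restrict hr ρ hρr
  refine hdead b m hm ?_
  rw [← hsm]
  exact hs.pm hr

theorem vl_eq {φ χ : Fml p (Finset V)} {m : Finset (Finset V)} {b : Bool} (hρ : PM q ρ)
    (hm : Br q (T χ) ρ m b) (y : MD.Y) (hmy : m ⊆ RR MD y) (h : Fml.sv (tv MD T y) φ = χ) :
    vl MD T y φ = b := by
  unfold vl
  rw [h]
  exact hm.val (RR_pm MD hρ y) hmy

theorem local_sound [Fact p.Prime] [CharP F p] (hρ : PM q ρ)
    (hT : ∀ ψ ∈ GG π, Dep q (T ψ) ρ t ∧ LC q T ρ ψ)
    (hX : ∀ ψ ∈ Occurring π, Fml.Fd t ψ ≤ X)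
    {L : ℕ} (hD : (3 * L + 4) * (X + t) + 2 ≤ D) {P : List (Fml p (Finset V))}
    {B : Fml p (Finset V)} (hB : B ∈ Occurring π)
    (hP : ∀ A ∈ P, A ∈ Occurring π) (hLI : LocalInference L (Occurring π) P B)
    (hPK : ∀ A ∈ P, (ind (fun y => vl MD T y A = false) : MD.Y → F) ∈ MD.K) :
    (ind (fun y => vl MD T y B = false) : MD.Y → F) ∈ MD.K := by
  classical
  obtain ⟨hPL, S, M, hSL, hML, hS, hM, hw⟩ := hLI
  have hdep : ∀ φ ∈ Occurring π, ∀ ψ ∈ φ.subs, ∀ χ ∈ ψ.insts, Dep q (T χ) ρ t := by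
    rintro φ ⟨A, hA, hs⟩ ψ hψ χ hχ
    exact (hT χ (mem_GG.2 (Or.inl ⟨ψ, ⟨A, hA, Fml.subs_trans hψ hs⟩, hχ⟩))).1
  have hLC : ∀ ψ ∈ GG π, LC q T ρ ψ := fun ψ h => (hT ψ h).2
  set Z : Finset (Fml p (Finset V)) := (B :: (P ++ S ++ M.map ModAxiom.φ)).toFinset with hZ
  have hZc : Z.card ≤ 3 * L + 1 := by
    refine (List.toFinset_card_le _).trans ?_
    simp only [List.length_cons, List.length_append, List.length_map]
    omega
  have hBZ : B ∈ Z := by simp [hZ]
  have hPZ : ∀ A ∈ P, A ∈ Z := fun A hA => by simp [hZ, hA]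
  have hSZ : ∀ A ∈ S, A ∈ Z := fun A hA => by simp [hZ, hA]
  have hMZ : ∀ μ ∈ M, μ.φ ∈ Z := fun μ hμ => by
    simp only [hZ, List.mem_toFinset, List.mem_cons, List.mem_append, List.mem_map]
    exact Or.inr (Or.inr ⟨μ, hμ, rfl⟩)
  have hMocc : ∀ μ ∈ M, μ.φ ∈ Occurring π := by
    intro μ hμ
    have h1 : Fml.mod μ.i (μ.k + 1) μ.f ∈ Occurring π := hM μ hμ (by simp [ModAxiom.formulas])
    have h2 := occ_mod h1 (μ.order.symm none)
    rw [μ.eq, Equiv.apply_symm_apply] at h2
    exact h2
  have hZocc : ∀ φ ∈ Z, φ ∈ Occurring π := by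
    intro φ hφ
    simp only [hZ, List.mem_toFinset, List.mem_cons, List.mem_append, List.mem_map] at hφ
    rcases hφ with rfl | (h | h) | ⟨μ, hμ, rfl⟩
    · exact hB
    · exact hP φ h
    · exact hS φ h
    · exact hMocc μ hμ
  set a := (3 * L + 1) * X with ha
  set b' := (3 * L + 1) * t with hb'
  have hD' : a + b' + 3 * X + 3 * t + 2 ≤ D := by
    have : (3 * L + 4) * (X + t) = a + b' + 3 * X + 3 * t := by rw [ha, hb']; ring
    omega
  set hc : (Z → Fml p (Finset V)) → MD.Y → F :=
    fun c => ∏ φ : Z, ind (fun y => Fml.sv (tv MD T y) φ = c φ) with hhc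
  have hcm : ∀ c, hc c ∈ MD.A a := by
    intro c
    have h1 := prod_mem MD (Finset.univ : Finset Z)
      (fun φ => (ind (fun y => Fml.sv (tv MD T y) φ = c φ) : MD.Y → F)) (fun _ => X)
      (fun φ _ => MD.mono (hX φ (hZocc φ φ.2))
        (sv_mem_A MD T hρ (φ : Fml p (Finset V)) (hdep φ (hZocc φ φ.2)) (c φ)))
    refine MD.mono ?_ h1
    rw [Finset.sum_const, smul_eq_mul, ha]
    refine Nat.mul_le_mul_right _ ?_
    rw [Finset.card_univ, Fintype.card_coe]
    exact hZc
  set g : MD.Y → F := ind (fun y => vl MD T y B = false) with hg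
  have hgA : g ∈ MD.A (X + t) :=
    MD.mono (Nat.add_le_add_right (hX B hB) t) (vl_mem' MD T hρ B (hdep B hB))
  have hsum : g = ∑ c ∈ Fintype.piFinset (fun φ : Z => (φ : Fml p (Finset V)).insts),
      hc c * g := by
    rw [← Finset.sum_mul]
    have h1 : ∑ c ∈ Fintype.piFinset (fun φ : Z => (φ : Fml p (Finset V)).insts), hc c = 1 := by
      have h2 := Finset.prod_univ_sum
        (fun φ : Z => (φ : Fml p (Finset V)).insts)
        (fun (φ : Z) (χ : Fml p (Finset V)) =>
          (ind (fun y => Fml.sv (tv MD T y) (φ : Fml p (Finset V)) = χ) : MD.Y → F))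
      refine h2.symm.trans ?_
      apply Finset.prod_eq_one
      intro φ _
      ext y
      rw [Finset.sum_apply, Pi.one_apply,
        Finset.sum_eq_single (Fml.sv (tv MD T y) (φ : Fml p (Finset V)))]
      · exact ind_pos (fun z => Fml.sv (tv MD T z) (φ : Fml p (Finset V)) =
          Fml.sv (tv MD T y) (φ : Fml p (Finset V))) rfl
      · intro χ _ hne
        exact ind_neg (fun z => Fml.sv (tv MD T z) (φ : Fml p (Finset V)) = χ)
          (fun h => hne h.symm)
      · intro h
        exact absurd (Fml.sv_mem _ _) h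
    rw [h1, one_mul]
  rw [hsum]
  refine Submodule.sum_mem _ fun c hcmem => ?_
  rw [Fintype.mem_piFinset] at hcmem
  have hk : hc c * g ∈ MD.A (a + (X + t)) := MD.mul (hcm c) hgA
  have hxρ : xr MD ρ = (1 : MD.Y → F) := ind_true (fun y => rho_sub MD y)
  have h0 : xr MD ρ * (hc c * g) ∈ MD.K := by
    have hlen : (Z.attach.toList.map (fun φ => T (c φ))).length * t ≤ b' := by
      rw [List.length_map, Finset.length_toList, Finset.card_attach, hb']
      exact Nat.mul_le_mul_right _ hZc
    refine refine_list MD hρ t (Z.attach.toList.map (fun φ => T (c φ))) ρ (a + (X + t)) _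
      (Finset.Subset.refl _) hρ ?_ hk ?_ ?_
    · intro T' hT'
      rw [List.mem_map] at hT'
      obtain ⟨φ, -, rfl⟩ := hT'
      exact hdep φ (hZocc φ φ.2) φ (Fml.self_mem_subs _) _ (hcmem φ)
    · rw [Finset.sdiff_self, Finset.card_empty]
      omega
    · intro r hρr hr hcard hbr
      rw [Finset.sdiff_self, Finset.card_empty] at hcard
      have hrc : (r \ ρ).card ≤ b' := by omega
      by_cases hz : ∀ y, (xr MD r * (hc c * g)) y = 0
      · have : xr MD r * (hc c * g) = 0 := funext hz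
        rw [this]
        exact Submodule.zero_mem _
      push Not at hz
      obtain ⟨y0, hy0⟩ := hz
      have key : ∀ y, (xr MD r * (hc c * g)) y ≠ 0 → r ⊆ RR MD y ∧
          (∀ φ : Z, Fml.sv (tv MD T y) φ = c φ) ∧ vl MD T y B = false := by
        intro y hy
        rw [Pi.mul_apply, Pi.mul_apply] at hy
        have h1 := left_ne_zero_of_mul hy
        have h2 := right_ne_zero_of_mul hy
        have h3 := left_ne_zero_of_mul h2
        have h4 := right_ne_zero_of_mul h2
        refine ⟨ind_ne_zero (fun y => r ⊆ RR MD y) h1, fun φ => ?_,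
          ind_ne_zero (fun y => vl MD T y B = false) h4⟩
        have h3' : (∏ φ : Z, (ind (fun y => Fml.sv (tv MD T y) (φ : Fml p (Finset V)) = c φ) :
            MD.Y → F)) y ≠ 0 := h3
        rw [Finset.prod_apply] at h3'
        have h5 := Finset.prod_ne_zero_iff.1 h3' φ (Finset.mem_univ _)
        exact ind_ne_zero (fun y => Fml.sv (tv MD T y) φ = c φ) h5
      obtain ⟨hry, hcy, hBy⟩ := key y0 hy0
      set ev := tv MD T y0 with hev
      have hbr' : ∀ φ ∈ Z, ∃ m, Br q (T (Fml.sv ev φ)) ρ m (vl MD T y0 φ) ∧ m ⊆ r := by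
        intro φ hφ
        obtain ⟨m, b, hm, hmr⟩ := hbr (T (c ⟨φ, hφ⟩)) (by
          rw [List.mem_map]
          exact ⟨⟨φ, hφ⟩, by simp, rfl⟩)
        have h1 := hcy ⟨φ, hφ⟩
        have h2 := vl_eq MD T hρ hm y0 (hmr.trans hry) h1
        rw [h2]
        refine ⟨m, ?_, hmr⟩
        rw [h1]
        exact hm
      by_cases hcor : ∀ ψ ∈ S, Fml.CorrectAt (ww q T ρ r ev) ψ
      · have hres : ∀ μ ∈ M, μ.Respects (ww q T ρ r ev) := by
          intro μ hμ
          obtain ⟨m, hm, hmr⟩ := hbr' μ.φ (hMZ μ hμ)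
          exact respects hLC hρr hr ev μ hm hmr rfl
        have hwB : ¬ ww q T ρ r ev B := by
          obtain ⟨m, hm, hmr⟩ := hbr' B hBZ
          rw [hBy] at hm
          exact not_NoBr hm hmr hr
        have hexA : ∃ A ∈ P, ¬ ww q T ρ r ev A := by
          by_contra hcon
          push Not at hcon
          exact hwB (hw _ hcor hres hcon)
        obtain ⟨A, hA, hwA⟩ := hexA
        obtain ⟨m, hm, hmr⟩ := hbr' A (hPZ A hA)
        have hAf : vl MD T y0 A = false := by
          by_contra h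
          rw [Bool.not_eq_false] at h
          rw [h] at hm
          exact hwA (NoBr.of_br hm hmr)
        rw [hAf] at hm
        have heq : xr MD r * (hc c * g) = (xr MD r * (hc c * g)) *
            ind (fun y => vl MD T y A = false) := by
          ext y
          by_cases h : (xr MD r * (hc c * g)) y = 0
          · rw [Pi.mul_apply (xr MD r * (hc c * g)), h, zero_mul]
          · obtain ⟨h1, h2, -⟩ := key y h
            have h3 : vl MD T y A = false := by
              refine vl_eq MD T hρ hm y (hmr.trans h1) ?_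
              rw [h2 ⟨A, hPZ A hA⟩, ← hcy ⟨A, hPZ A hA⟩]
            rw [Pi.mul_apply (xr MD r * (hc c * g)),
              ind_pos (fun y => vl MD T y A = false) h3, mul_one]
        rw [heq]
        refine MD.closed (hPK A hA) (vl_mem' MD T hρ A (hdep A (hP A hA)))
          (MD.mul (xr_mem MD r) hk) ?_
        have := hX A (hP A hA)
        omega
      · push Not at hcor
        obtain ⟨ψ, hψ, hne⟩ := hcor
        obtain ⟨m, hm, hmr⟩ := hbr' ψ (hSZ ψ hψ)
        rcases correct_or_dead hLC hρr hr ev (hS ψ hψ) hm hmr with h | ⟨χ, hχ, hdead⟩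
        · exact absurd h hne
        · exact dead_mem MD T hρ (hT χ hχ).1 hρr hr hdead hk (by omega)
  rwa [hxρ, one_mul] at h0

/-- Each line is true up to a negligible function. -/
theorem all_lines [Fact p.Prime] [CharP F p] (hρ : PM q ρ)
    (hT : ∀ ψ ∈ GG π, Dep q (T ψ) ρ t ∧ LC q T ρ ψ)
    (hX : ∀ ψ ∈ Occurring π, Fml.Fd t ψ ≤ X)
    {L : ℕ} (hD : (3 * L + 4) * (X + t) + 2 ≤ D) (hL : IsProof L π) :
    ∀ A ∈ π, (ind (fun y => vl MD T y A = false) : MD.Y → F) ∈ MD.K := by
  have hocc : ∀ A ∈ π, A ∈ Occurring π := fun A hA => ⟨A, hA, Fml.self_mem_subs A⟩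
  have key : ∀ l r : List (Fml p (Finset V)), π = l ++ r →
      ∀ A ∈ l, (ind (fun y => vl MD T y A = false) : MD.Y → F) ∈ MD.K := by
    intro l
    induction l using List.reverseRecOn with
    | nil => intro r _ A hA; simp at hA
    | append_singleton l A' ih =>
      intro r hr A hA
      have hr' : π = l ++ A' :: r := by rw [hr]; simp
      have ih' := ih (A' :: r) hr'
      rw [List.mem_append, List.mem_singleton] at hA
      rcases hA with hA | rfl
      · exact ih' A hA
      · obtain ⟨P, hP, hLI⟩ := hL A l r hr'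
        refine local_sound MD T hρ hT hX hD (hocc A (by rw [hr']; simp)) ?_ hLI ?_
        · intro B hB
          refine hocc B ?_
          rw [hr']
          exact List.mem_append_left _ (hP B hB)
        · intro B hB
          exact ih' B (hP B hB)
  exact key π [] (by simp)

end main

end Pool.Agent.L0h36.BF
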