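import Pool.Agent.L0h36.BF.Canon
import Pool.Agent.L0h36.BF.Defs

set_option autoImplicit false
set_option linter.unusedSectionVars false

/-!
# Evaluation of formulas without MOD gates by shallow trees
-/

namespace Pool.Agent.L0h36.BF

open Finset

variable {V : Type} [DecidableEq V] {p : ℕ}

namespace Fml

variable {α : Type}

/-- The maximal subformulas which are not disjunctions reached through disjunctions. -/
def orLeaves : Fml p α → Set (Fml p α)
  | or _ f => ⋃ j, (f j).orLeaves
  | var x => {var x}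
  | neg φ => {neg φ}
  | and k f => {and k f}
  | mod i k f => {mod i k f}

def andLeaves : Fml p α → Set (Fml p α)
  | and _ f => ⋃ j, (f j).andLeaves
  | var x => {var x}
  | neg φ => {neg φ}
  | or k f => {or k f}
  | mod i k f => {mod i k f}

theorem orLeaves_of_not_isOr {φ : Fml p α} (h : φ.isOr = false) : φ.orLeaves = {φ} := by
  cases φ <;> simp_all [isOr, orLeaves]

theorem andLeaves_of_not_isAnd {φ : Fml p α} (h : φ.isAnd = false) : φ.andLeaves = {φ} := by
  cases φ <;> simp_all [isAnd, andLeaves]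

theorem depth_orLeaves {φ ξ : Fml p α} (h : ξ ∈ φ.orLeaves) :
    ξ.isOr = false ∧ (φ.isOr = true → ξ.depth + 1 ≤ φ.depth) ∧ (φ.isOr = false → ξ = φ) := by
  induction φ with
  | var x => simp_all [orLeaves, isOr]
  | neg φ ih => simp_all [orLeaves, isOr]
  | and k f ih => simp_all [orLeaves, isOr]
  | mod i k f ih => simp_all [orLeaves, isOr]
  | or k f ih =>
    simp only [orLeaves, Set.mem_iUnion] at h
    obtain ⟨j, hj⟩ := h
    obtain ⟨h1, h2, h3⟩ := ih j hj
    refine ⟨h1, fun _ => ?_, by simp [isOr]⟩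
    have h4 : (if (f j).isOr then (f j).depth else (f j).depth + 1) ≤ (or k f).depth := by
      rw [depth]
      exact Finset.le_sup (f := fun j => if (f j).isOr then (f j).depth else (f j).depth + 1)
        (Finset.mem_univ j)
    by_cases hor : (f j).isOr = true
    · rw [if_pos hor] at h4
      exact (h2 hor).trans h4
    · rw [if_neg hor] at h4
      rw [h3 (by simpa using hor)]
      exact h4

theorem depth_andLeaves {φ ξ : Fml p α} (h : ξ ∈ φ.andLeaves) :
    ξ.isAnd = false ∧ (φ.isAnd = true → ξ.depth + 1 ≤ φ.depth) ∧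
      (φ.isAnd = false → ξ = φ) := by
  induction φ with
  | var x => simp_all [andLeaves, isAnd]
  | neg φ ih => simp_all [andLeaves, isAnd]
  | or k f ih => simp_all [andLeaves, isAnd]
  | mod i k f ih => simp_all [andLeaves, isAnd]
  | and k f ih =>
    simp only [andLeaves, Set.mem_iUnion] at h
    obtain ⟨j, hj⟩ := h
    obtain ⟨h1, h2, h3⟩ := ih j hj
    refine ⟨h1, fun _ => ?_, by simp [isAnd]⟩
    have h4 : (if (f j).isAnd then (f j).depth else (f j).depth + 1) ≤ (and k f).depth := by
      rw [depth]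
      exact Finset.le_sup (f := fun j => if (f j).isAnd then (f j).depth else (f j).depth + 1)
        (Finset.mem_univ j)
    by_cases hor : (f j).isAnd = true
    · rw [if_pos hor] at h4
      exact (h2 hor).trans h4
    · rw [if_neg hor] at h4
      rw [h3 (by simpa using hor)]
      exact h4

/-- A set of formulas closed under immediate subformulas. -/
def Closed (Γ : Set (Fml p α)) : Prop :=
  (∀ φ, neg φ ∈ Γ → φ ∈ Γ) ∧ (∀ k f, and k f ∈ Γ → ∀ j, f j ∈ Γ) ∧
  (∀ k f, or k f ∈ Γ → ∀ j, f j ∈ Γ)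

theorem Closed.orLeaves {Γ : Set (Fml p α)} (h : Closed Γ) {φ ξ : Fml p α} (hφ : φ ∈ Γ)
    (hξ : ξ ∈ φ.orLeaves) : ξ ∈ Γ := by
  induction φ with
  | var x => rw [Fml.orLeaves, Set.mem_singleton_iff] at hξ; exact hξ ▸ hφ
  | neg φ ih => rw [Fml.orLeaves, Set.mem_singleton_iff] at hξ; exact hξ ▸ hφ
  | and k f ih => rw [Fml.orLeaves, Set.mem_singleton_iff] at hξ; exact hξ ▸ hφ
  | mod i k f ih => rw [Fml.orLeaves, Set.mem_singleton_iff] at hξ; exact hξ ▸ hφ
  | or k f ih =>
    simp only [Fml.orLeaves, Set.mem_iUnion] at hξ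
    obtain ⟨j, hj⟩ := hξ
    exact ih j (h.2.2 k f hφ j) hj

theorem Closed.andLeaves {Γ : Set (Fml p α)} (h : Closed Γ) {φ ξ : Fml p α} (hφ : φ ∈ Γ)
    (hξ : ξ ∈ φ.andLeaves) : ξ ∈ Γ := by
  induction φ with
  | var x => rw [Fml.andLeaves, Set.mem_singleton_iff] at hξ; exact hξ ▸ hφ
  | neg φ ih => rw [Fml.andLeaves, Set.mem_singleton_iff] at hξ; exact hξ ▸ hφ
  | or k f ih => rw [Fml.andLeaves, Set.mem_singleton_iff] at hξ; exact hξ ▸ hφ
  | mod i k f ih => rw [Fml.andLeaves, Set.mem_singleton_iff] at hξ; exact hξ ▸ hφ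
  | and k f ih =>
    simp only [Fml.andLeaves, Set.mem_iUnion] at hξ
    obtain ⟨j, hj⟩ := hξ
    exact ih j (h.2.1 k f hφ j) hj

end Fml

/-- A branch over a smaller system which is compatible with a larger system is a branch over the
larger system. -/
theorem Br.extend {q : ℕ} {T : DT V} {m r : Finset (Finset V)} {b : Bool} (h : Br q T m r b)
    (s : Finset (Finset V)) (hms : m ⊆ s) (hs : PM q (s ∪ r)) : Br q T s (s ∪ r) b := by
  induction h generalizing s with
  | leaf b m =>
    rw [Finset.union_eq_left.2 hms]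
    exact Br.leaf _ _
  | covered v c m r b e he hv h ih =>
    exact Br.covered v c s _ b e (hms he) hv (ih s hms hs)
  | query v c m r b e hv' hv hpm h ih =>
    have her : e ∈ r := h.subset (Finset.mem_insert_self _ _)
    by_cases hvs : v ∈ cov s
    · obtain ⟨f, hf, hvf⟩ := mem_cov.1 hvs
      have : e = f := hs.eq_of_mem (Finset.mem_union_right _ her) (Finset.mem_union_left _ hf)
        hv hvf
      subst this
      exact Br.covered v c s _ b e hf hv (ih s (Finset.insert_subset hf hms) hs)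
    · have h1 : insert e s ∪ r = s ∪ r := by
        rw [Finset.insert_union, Finset.insert_eq_of_mem (Finset.mem_union_right _ her)]
      have h2 := ih (insert e s) (Finset.insert_subset_insert _ hms) (by rw [h1]; exact hs)
      rw [h1] at h2
      refine Br.query v c s _ b e hvs hv (hs.mono ?_) h2
      exact Finset.insert_subset (Finset.mem_union_right _ her) Finset.subset_union_left

/-- The trees `T` are locally correct at the formula, over the system `ρ`. -/
def LC (q : ℕ) (T : Fml p (Finset V) → DT V) (ρ : Finset (Finset V)) : Fml p (Finset V) → Prop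
  | .var e => (∀ r, Br q (T (.var e)) ρ r true → e ∈ r) ∧
      (∀ r, Br q (T (.var e)) ρ r false → ¬ PM q (insert e r))
  | .neg φ => T (.neg φ) = (T φ).flip
  | .and k f => (∀ s, Br q (T (.and k f)) ρ s false →
        ∃ ξ ∈ (Fml.and k f).andLeaves, ∃ τ, Br q (T ξ) ρ τ false ∧ τ ⊆ s) ∧
      (∀ s, Br q (T (.and k f)) ρ s true →
        ∀ ξ ∈ (Fml.and k f).andLeaves, ∀ τ, Br q (T ξ) ρ τ false → ¬ PM q (s ∪ τ)) ∧
      (k = 0 → T (.and k f) = .leaf true)
  | .or k f => (∀ s, Br q (T (.or k f)) ρ s true →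
        ∃ ξ ∈ (Fml.or k f).orLeaves, ∃ τ, Br q (T ξ) ρ τ true ∧ τ ⊆ s) ∧
      (∀ s, Br q (T (.or k f)) ρ s false →
        ∀ ξ ∈ (Fml.or k f).orLeaves, ∀ τ, Br q (T ξ) ρ τ true → ¬ PM q (s ∪ τ)) ∧
      (k = 0 → T (.or k f) = .leaf false)
  | .mod _ _ _ => True

theorem LC.mono {q : ℕ} {T : Fml p (Finset V) → DT V} {ρ ρ' : Finset (Finset V)}
    {ψ : Fml p (Finset V)} (h : LC q T ρ ψ) (hρ : ρ ⊆ ρ') (hpm : PM q ρ') : LC q T ρ' ψ := by
  cases ψ with
  | var e =>
    refine ⟨fun r hr => ?_, fun r hr hp => ?_⟩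
    · obtain ⟨r', h1, h2⟩ := hr.restrict hpm ρ hρ
      rw [h2]
      exact Finset.mem_union_right _ (h.1 r' h1)
    · obtain ⟨r', h1, h2⟩ := hr.restrict hpm ρ hρ
      refine h.2 r' h1 (hp.mono ?_)
      rw [h2]
      exact Finset.insert_subset_insert _ Finset.subset_union_right
  | neg φ => exact h
  | and k f =>
    refine ⟨fun s hs => ?_, fun s hs ξ hξ τ hτ hp => ?_, h.2.2⟩
    · have hsp := hs.pm hpm
      obtain ⟨s', h1, h2⟩ := hs.restrict hpm ρ hρ
      obtain ⟨ξ, hξ, τ, hτ, hτs⟩ := h.1 s' h1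
      have hsub : ρ' ∪ τ ⊆ s := by
        rw [h2]
        exact Finset.union_subset_union_right hτs
      exact ⟨ξ, hξ, ρ' ∪ τ, hτ.extend ρ' hρ (hsp.mono hsub), hsub⟩
    · obtain ⟨s', h1, h2⟩ := hs.restrict hpm ρ hρ
      obtain ⟨τ', h3, h4⟩ := hτ.restrict hpm ρ hρ
      refine h.2.1 s' h1 ξ hξ τ' h3 (hp.mono ?_)
      rw [h2, h4]
      intro x hx
      simp only [Finset.mem_union] at hx ⊢
      tauto
  | or k f =>
    refine ⟨fun s hs => ?_, fun s hs ξ hξ τ hτ hp => ?_, h.2.2⟩
    · have hsp := hs.pm hpm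
      obtain ⟨s', h1, h2⟩ := hs.restrict hpm ρ hρ
      obtain ⟨ξ, hξ, τ, hτ, hτs⟩ := h.1 s' h1
      have hsub : ρ' ∪ τ ⊆ s := by
        rw [h2]
        exact Finset.union_subset_union_right hτs
      exact ⟨ξ, hξ, ρ' ∪ τ, hτ.extend ρ' hρ (hsp.mono hsub), hsub⟩
    · obtain ⟨s', h1, h2⟩ := hs.restrict hpm ρ hρ
      obtain ⟨τ', h3, h4⟩ := hτ.restrict hpm ρ hρ
      refine h.2.1 s' h1 ξ hξ τ' h3 (hp.mono ?_)
      rw [h2, h4]
      intro x hx
      simp only [Finset.mem_union] at hx ⊢
      tauto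
  | mod i k f => trivial

/-- The tree for a variable. -/
noncomputable def litT (q : ℕ) (e : Finset V) : DT V := by
  classical
  exact if h : e.card = q ∧ e.Nonempty then
    .node h.2.choose (fun f => .leaf (decide (f = e))) else .leaf false

theorem litT_true {q : ℕ} {e : Finset V} {m r : Finset (Finset V)}
    (h : Br q (litT q e) m r true) : e ∈ r := by
  classical
  unfold litT at h
  split_ifs at h with he
  · cases h with
    | covered _ _ _ _ _ f hf hv h =>
      obtain ⟨h1, h2⟩ := h.leaf_inv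
      have : f = e := by simpa using h2
      rw [h1]
      exact this ▸ hf
    | query _ _ _ _ _ f hv' hv hpm h =>
      obtain ⟨h1, h2⟩ := h.leaf_inv
      have : f = e := by simpa using h2
      rw [h1]
      exact this ▸ Finset.mem_insert_self _ _
  · exact absurd h.leaf_inv.2 (by simp)

theorem litT_false {q : ℕ} (hq : 1 ≤ q) {e : Finset V} {m r : Finset (Finset V)}
    (h : Br q (litT q e) m r false) : ¬ PM q (insert e r) := by
  classical
  intro hpm
  unfold litT at h
  split_ifs at h with he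
  · cases h with
    | covered _ _ _ _ _ f hf hv h =>
      obtain ⟨h1, h2⟩ := h.leaf_inv
      subst h1
      have hne : f ≠ e := by simpa using h2
      exact hne (hpm.eq_of_mem (Finset.mem_insert_of_mem hf) (Finset.mem_insert_self _ _) hv
        he.2.choose_spec)
    | query _ _ _ _ _ f hv' hv hpm' h =>
      obtain ⟨h1, h2⟩ := h.leaf_inv
      subst h1
      have hne : f ≠ e := by simpa using h2
      exact hne (hpm.eq_of_mem (Finset.mem_insert_of_mem (Finset.mem_insert_self _ _))
        (Finset.mem_insert_self _ _) hv he.2.choose_spec)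
  · apply he
    have h1 := hpm.1 e (Finset.mem_insert_self _ _)
    exact ⟨h1, Finset.card_pos.1 (by omega)⟩

theorem litT_dep {q : ℕ} {e : Finset V} {m : Finset (Finset V)} : Dep q (litT q e) m 1 := by
  classical
  intro r h
  unfold litT at h
  split_ifs at h with he
  · cases h with
    | here => simp
    | covered _ _ _ _ f hf hv h =>
      rw [h.leaf_inv]
      simp
    | query _ _ _ _ f hv' hv hpm' h =>
      rw [h.leaf_inv]
      refine le_trans (Finset.card_le_card (t := {f}) ?_) (by simp)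
      intro x hx
      simp only [Finset.mem_sdiff, Finset.mem_insert, Finset.mem_singleton] at hx ⊢
      tauto
  · rw [h.leaf_inv]
    simp

end Pool.Agent.L0h36.BF
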