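import Pool.Agent.L0h36.BF.Stage

set_option autoImplicit false
set_option linter.unusedSectionVars false

/-!
# One stage of the evaluation, and all stages
-/

namespace Pool.Agent.L0h36.BF

open Finset

variable {V : Type} [DecidableEq V] [Fintype V] {p : ℕ}

open Classical in
noncomputable def orFam (q : ℕ) (T : Fml p (Finset V) → DT V) (b : Finset (Finset V))
    (ψ : Fml p (Finset V)) : List (Finset (Finset V)) :=
  (Finset.univ.filter (fun m => ∃ ξ ∈ ψ.orLeaves, Br q (T ξ) b m true)).toList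

open Classical in
noncomputable def andFam (q : ℕ) (T : Fml p (Finset V) → DT V) (b : Finset (Finset V))
    (ψ : Fml p (Finset V)) : List (Finset (Finset V)) :=
  (Finset.univ.filter (fun m => ∃ ξ ∈ ψ.andLeaves, Br q (T ξ) b m false)).toList

theorem mem_orFam {q : ℕ} {T : Fml p (Finset V) → DT V} {b : Finset (Finset V)}
    {ψ : Fml p (Finset V)} {m : Finset (Finset V)} :
    m ∈ orFam q T b ψ ↔ ∃ ξ ∈ ψ.orLeaves, Br q (T ξ) b m true := by
  simp [orFam]

theorem mem_andFam {q : ℕ} {T : Fml p (Finset V) → DT V} {b : Finset (Finset V)}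
    {ψ : Fml p (Finset V)} {m : Finset (Finset V)} :
    m ∈ andFam q T b ψ ↔ ∃ ξ ∈ ψ.andLeaves, Br q (T ξ) b m false := by
  simp [andFam]

noncomputable def core (q h : ℕ) (T : Fml p (Finset V) → DT V) (b ρ : Finset (Finset V)) :
    Fml p (Finset V) → DT V
  | .var e => litT q e
  | .neg φ => (if φ.depth < h then T φ else core q h T b ρ φ).flip
  | .and k f => (canon q (andFam q T b (.and k f)) (Fintype.card V + 1) ρ).flip
  | .or k f => canon q (orFam q T b (.or k f)) (Fintype.card V + 1) ρ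
  | .mod _ _ _ => .leaf false

noncomputable def next (q h : ℕ) (T : Fml p (Finset V) → DT V) (b ρ : Finset (Finset V))
    (ψ : Fml p (Finset V)) : DT V :=
  if ψ.depth < h then T ψ else core q h T b ρ ψ

theorem next_lt {q h : ℕ} {T : Fml p (Finset V) → DT V} {b ρ : Finset (Finset V)}
    {ψ : Fml p (Finset V)} (hψ : ψ.depth < h) : next q h T b ρ ψ = T ψ := if_pos hψ

theorem next_ge {q h : ℕ} {T : Fml p (Finset V) → DT V} {b ρ : Finset (Finset V)}
    {ψ : Fml p (Finset V)} (hψ : ¬ ψ.depth < h) : next q h T b ρ ψ = core q h T b ρ ψ :=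
  if_neg hψ

theorem depth_le_neg {α : Type} (φ : Fml p α) : φ.depth ≤ (Fml.neg φ).depth := by
  rw [Fml.depth]
  split_ifs <;> omega

theorem canon_nil {q : ℕ} (k : ℕ) (m : Finset (Finset V)) :
    canon q [] (k + 1) m = .leaf false := by
  simp [canon, first]

theorem orFam_zero {q : ℕ} (T : Fml p (Finset V) → DT V) (b : Finset (Finset V))
    (f : Fin 0 → Fml p (Finset V)) : orFam q T b (.or 0 f) = [] := by
  rw [List.eq_nil_iff_forall_not_mem]
  intro m hm
  rw [mem_orFam] at hm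
  obtain ⟨ξ, hξ, -⟩ := hm
  simp [Fml.orLeaves] at hξ

theorem andFam_zero {q : ℕ} (T : Fml p (Finset V) → DT V) (b : Finset (Finset V))
    (f : Fin 0 → Fml p (Finset V)) : andFam q T b (.and 0 f) = [] := by
  rw [List.eq_nil_iff_forall_not_mem]
  intro m hm
  rw [mem_andFam] at hm
  obtain ⟨ξ, hξ, -⟩ := hm
  simp [Fml.andLeaves] at hξ

/-- One stage. -/
theorem stage {q : ℕ} (hq : 1 ≤ q) (Γ : Finset (Fml p (Finset V)))
    (hΓ : Fml.Closed (Γ : Set (Fml p (Finset V)))) (hfree : ∀ ψ ∈ Γ, ψ.front = 0)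
    (h t u a j0 : ℕ) (ht : t = q * j0) (hj0 : 1 ≤ j0) (b : Finset (Finset V)) (hb : PM q b)
    (T : Fml p (Finset V) → DT V)
    (hT : ∀ ψ ∈ Γ, ψ.depth < h → Dep q (T ψ) b t ∧ LC q T b ψ)
    (hu : Fintype.card V - q * (b.card + a) ≤ u) (hu1 : 1 ≤ u) (ha : 0 < a)
    (hle : q * (b.card + a) ≤ Fintype.card V)
    (hbig : 4 * (t * (u ^ (q - 1)) ^ q) * u ^ q ≤ a) (hI : 2 * Γ.card < 2 ^ j0) :
    ∃ ρ, b ⊆ ρ ∧ PM q ρ ∧ ρ.card = b.card + a ∧
      ∃ T' : Fml p (Finset V) → DT V, ∀ ψ ∈ Γ, ψ.depth < h + 1 →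
        Dep q (T' ψ) ρ t ∧ LC q T' ρ ψ := by
  classical
  set fam : Fml p (Finset V) → List (Finset (Finset V)) := fun ψ =>
    if ψ.depth = h then (if ψ.isAnd then andFam q T b ψ else
      if ψ.isOr then orFam q T b ψ else []) else [] with hfam
  have hF : ∀ ψ ∈ Γ, ∀ τ ∈ fam ψ, (τ \ b).card ≤ t := by
    intro ψ hψ τ hτ
    simp only [hfam] at hτ
    split_ifs at hτ with h1 h2 h3
    · rw [mem_andFam] at hτ
      obtain ⟨ξ, hξ, hbr⟩ := hτ
      have h4 := (Fml.depth_andLeaves hξ).2.1 h2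
      exact (hT ξ (hΓ.andLeaves hψ hξ) (by omega)).1 τ hbr.reach
    · rw [mem_orFam] at hτ
      obtain ⟨ξ, hξ, hbr⟩ := hτ
      have h4 := (Fml.depth_orLeaves hξ).2.1 h3
      exact (hT ξ (hΓ.orLeaves hψ hξ) (by omega)).1 τ hbr.reach
    · simp at hτ
    · simp at hτ
  obtain ⟨ρ, hbρ, hρ, hρc, hgood⟩ := exists_good hq Γ fam b hb t u a j0 hF hu hu1 ha hle hbig hI
  refine ⟨ρ, hbρ, hρ, hρc, next q h T b ρ, ?_⟩
  have hqj : 1 ≤ t := by
    rw [ht]
    exact Nat.mul_pos hq hj0
  -- depth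
  have hdep : ∀ ψ : Fml p (Finset V), ψ ∈ Γ → ψ.depth < h + 1 →
      Dep q (next q h T b ρ ψ) ρ t := by
    intro ψ
    induction ψ with
    | var e =>
      intro hψ hd
      by_cases hlt : (Fml.var e : Fml p (Finset V)).depth < h
      · rw [next_lt hlt]
        exact (hT _ hψ hlt).1.mono hρ hbρ
      · rw [next_ge hlt, core]
        intro r hr
        exact (litT_dep r hr).trans hqj
    | neg φ ih =>
      intro hψ hd
      by_cases hlt : (Fml.neg φ).depth < h
      · rw [next_lt hlt]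
        exact (hT _ hψ hlt).1.mono hρ hbρ
      · rw [next_ge hlt, core]
        have h1 := depth_le_neg φ
        exact (ih (hΓ.1 φ hψ) (by omega)).flip
    | and k f ih =>
      intro hψ hd
      by_cases hlt : (Fml.and k f).depth < h
      · rw [next_lt hlt]
        exact (hT _ hψ hlt).1.mono hρ hbρ
      · rw [next_ge hlt, core, ht]
        apply Dep.flip
        apply canon_dep _ _ hρ
        intro j r hr
        refine hgood _ hψ j r ?_
        have : fam (.and k f) = andFam q T b (.and k f) := by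
          simp only [hfam]
          rw [if_pos (by omega), if_pos (show (Fml.and k f).isAnd = true from rfl)]
        rw [this]
        exact hr
    | or k f ih =>
      intro hψ hd
      by_cases hlt : (Fml.or k f).depth < h
      · rw [next_lt hlt]
        exact (hT _ hψ hlt).1.mono hρ hbρ
      · rw [next_ge hlt, core, ht]
        apply canon_dep _ _ hρ
        intro j r hr
        refine hgood _ hψ j r ?_
        have : fam (.or k f) = orFam q T b (.or k f) := by
          simp only [hfam]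
          rw [if_pos (by omega), if_neg (by simp [Fml.isAnd]),
            if_pos (show (Fml.or k f).isOr = true from rfl)]
        rw [this]
        exact hr
    | mod i k f ih =>
      intro hψ hd
      exact absurd (hfree _ hψ) (by simp [Fml.front])
  intro ψ hψ hd
  refine ⟨hdep ψ hψ hd, ?_⟩
  -- local correctness
  cases ψ with
  | var e =>
    by_cases hlt : (Fml.var e : Fml p (Finset V)).depth < h
    · have h1 := (hT _ hψ hlt).2.mono hbρ hρ
      rw [LC] at h1 ⊢
      rw [next_lt hlt]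
      exact h1
    · rw [LC, next_ge hlt, core]
      exact ⟨fun r hr => litT_true hr, fun r hr => litT_false hq hr⟩
  | neg φ =>
    by_cases hlt : (Fml.neg φ).depth < h
    · have h1 := (hT _ hψ hlt).2
      have h2 := depth_le_neg φ
      rw [LC] at h1 ⊢
      rw [next_lt hlt, next_lt (by omega), h1]
    · rw [LC, next_ge hlt, core]
      rfl
  | and k f =>
    by_cases hlt : (Fml.and k f).depth < h
    · have h1 := (hT _ hψ hlt).2.mono hbρ hρ
      rw [LC] at h1 ⊢
      rw [next_lt hlt]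
      have h2 : ∀ ξ ∈ (Fml.and k f).andLeaves, next q h T b ρ ξ = T ξ := by
        intro ξ hξ
        have := (Fml.depth_andLeaves hξ).2.1 rfl
        exact next_lt (by omega)
      refine ⟨fun s hs => ?_, fun s hs ξ hξ τ hτ => ?_, h1.2.2⟩
      · obtain ⟨ξ, hξ, τ, hτ, hτs⟩ := h1.1 s hs
        exact ⟨ξ, hξ, τ, by rw [h2 ξ hξ]; exact hτ, hτs⟩
      · rw [h2 ξ hξ] at hτ
        exact h1.2.1 s hs ξ hξ τ hτ
    · rw [LC, next_ge hlt, core]
      have h2 : ∀ ξ ∈ (Fml.and k f).andLeaves, next q h T b ρ ξ = T ξ := by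
        intro ξ hξ
        have := (Fml.depth_andLeaves hξ).2.1 rfl
        exact next_lt (by omega)
      refine ⟨fun s hs => ?_, fun s hs ξ hξ τ hτ hp => ?_, fun hk => ?_⟩
      · have hsp := hs.pm hρ
        rw [Br.flip_iff] at hs
        obtain ⟨τ, hτF, hτs⟩ := (canon_br hq _ _ ρ s _ hρ (by omega) hs).1 rfl
        rw [mem_andFam] at hτF
        obtain ⟨ξ, hξ, hτ⟩ := hτF
        have hρs := hs.subset
        have hsub : ρ ∪ τ ⊆ s := Finset.union_subset hρs hτs
        refine ⟨ξ, hξ, ρ ∪ τ, ?_, hsub⟩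
        rw [h2 ξ hξ]
        exact hτ.extend ρ hbρ (hsp.mono hsub)
      · rw [Br.flip_iff] at hs
        rw [h2 ξ hξ] at hτ
        obtain ⟨τ', h3, h4⟩ := hτ.restrict hρ b hbρ
        refine (canon_br hq _ _ ρ s _ hρ (by omega) hs).2 rfl τ' ?_ (hp.mono ?_)
        · rw [mem_andFam]
          exact ⟨ξ, hξ, h3⟩
        · rw [h4]
          intro x hx
          simp only [Finset.mem_union] at hx ⊢
          tauto
      · subst hk
        rw [andFam_zero, canon_nil]
        rfl
  | or k f =>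
    by_cases hlt : (Fml.or k f).depth < h
    · have h1 := (hT _ hψ hlt).2.mono hbρ hρ
      rw [LC] at h1 ⊢
      rw [next_lt hlt]
      have h2 : ∀ ξ ∈ (Fml.or k f).orLeaves, next q h T b ρ ξ = T ξ := by
        intro ξ hξ
        have := (Fml.depth_orLeaves hξ).2.1 rfl
        exact next_lt (by omega)
      refine ⟨fun s hs => ?_, fun s hs ξ hξ τ hτ => ?_, h1.2.2⟩
      · obtain ⟨ξ, hξ, τ, hτ, hτs⟩ := h1.1 s hs
        exact ⟨ξ, hξ, τ, by rw [h2 ξ hξ]; exact hτ, hτs⟩
      · rw [h2 ξ hξ] at hτ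
        exact h1.2.1 s hs ξ hξ τ hτ
    · rw [LC, next_ge hlt, core]
      have h2 : ∀ ξ ∈ (Fml.or k f).orLeaves, next q h T b ρ ξ = T ξ := by
        intro ξ hξ
        have := (Fml.depth_orLeaves hξ).2.1 rfl
        exact next_lt (by omega)
      refine ⟨fun s hs => ?_, fun s hs ξ hξ τ hτ hp => ?_, fun hk => ?_⟩
      · have hsp := hs.pm hρ
        obtain ⟨τ, hτF, hτs⟩ := (canon_br hq _ _ ρ s _ hρ (by omega) hs).1 rfl
        rw [mem_orFam] at hτF
        obtain ⟨ξ, hξ, hτ⟩ := hτF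
        have hρs := hs.subset
        have hsub : ρ ∪ τ ⊆ s := Finset.union_subset hρs hτs
        refine ⟨ξ, hξ, ρ ∪ τ, ?_, hsub⟩
        rw [h2 ξ hξ]
        exact hτ.extend ρ hbρ (hsp.mono hsub)
      · rw [h2 ξ hξ] at hτ
        obtain ⟨τ', h3, h4⟩ := hτ.restrict hρ b hbρ
        refine (canon_br hq _ _ ρ s _ hρ (by omega) hs).2 rfl τ' ?_ (hp.mono ?_)
        · rw [mem_orFam]
          exact ⟨ξ, hξ, h3⟩
        · rw [h4]
          intro x hx
          simp only [Finset.mem_union] at hx ⊢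
          tauto
      · subst hk
        rw [orFam_zero, canon_nil]
  | mod i k f => trivial

/-- All stages: `A h` is the number of sets after `h` stages. -/
theorem all_stages {q : ℕ} (hq : 1 ≤ q) (Γ : Finset (Fml p (Finset V)))
    (hΓ : Fml.Closed (Γ : Set (Fml p (Finset V)))) (hfree : ∀ ψ ∈ Γ, ψ.front = 0)
    (t j0 : ℕ) (ht : t = q * j0) (hj0 : 1 ≤ j0) (hI : 2 * Γ.card < 2 ^ j0)
    (A : ℕ → ℕ) (hA0 : A 0 = 0) (D : ℕ) (hlt : ∀ h < D, A h < A (h + 1))
    (hle : ∀ h < D, q * A (h + 1) < Fintype.card V)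
    (hbig : ∀ h < D, 4 * (t * ((Fintype.card V - q * A (h + 1)) ^ (q - 1)) ^ q) *
      (Fintype.card V - q * A (h + 1)) ^ q ≤ A (h + 1) - A h) :
    ∀ h ≤ D, ∃ ρ : Finset (Finset V), PM q ρ ∧ ρ.card = A h ∧
      ∃ T : Fml p (Finset V) → DT V, ∀ ψ ∈ Γ, ψ.depth < h →
        Dep q (T ψ) ρ t ∧ LC q T ρ ψ := by
  intro h
  induction h with
  | zero =>
    intro _
    exact ⟨∅, PM.empty q, by simp [hA0], fun _ => .leaf false, fun ψ _ h => absurd h (by omega)⟩
  | succ h ih =>
    intro hD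
    obtain ⟨b, hb, hbc, T, hT⟩ := ih (by omega)
    have h1 := hlt h (by omega)
    have h2 : b.card + (A (h + 1) - A h) = A (h + 1) := by omega
    obtain ⟨ρ, -, hρ, hρc, T', hT'⟩ := stage hq Γ hΓ hfree h t
      (Fintype.card V - q * A (h + 1)) (A (h + 1) - A h) j0 ht hj0 b hb T hT
      (by rw [h2]) (by have := hle h (by omega); omega) (by omega)
      (by rw [h2]; exact (hle h (by omega)).le) (hbig h (by omega)) hI
    exact ⟨ρ, hρ, by omega, T', hT'⟩

end Pool.Agent.L0h36.BF
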