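import Pool.Agent.L0h36.BF.Match

set_option autoImplicit false
set_option linter.unusedSectionVars false

/-!
# A switching lemma for systems of disjoint q-sets
-/

namespace Pool.Agent.L0h36.BF

open Finset

variable {V : Type} [DecidableEq V]

open Classical in
/-- The first member of `F` compatible with `m`. -/
noncomputable def first (q : ℕ) (F : List (Finset (Finset V))) (m : Finset (Finset V)) :
    Option (Finset (Finset V)) :=
  F.find? (fun τ => decide (PM q (m ∪ τ)))

theorem first_mem {q : ℕ} {F : List (Finset (Finset V))} {m τ : Finset (Finset V)}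
    (h : first q F m = some τ) : τ ∈ F := List.mem_of_find?_eq_some h

theorem first_pm {q : ℕ} {F : List (Finset (Finset V))} {m τ : Finset (Finset V)}
    (h : first q F m = some τ) : PM q (m ∪ τ) := by
  classical
  have := List.find?_some h
  simpa using this

theorem first_none {q : ℕ} {F : List (Finset (Finset V))} {m : Finset (Finset V)}
    (h : first q F m = none) : ∀ τ ∈ F, ¬ PM q (m ∪ τ) := by
  classical
  intro τ hτ
  have := List.find?_eq_none.1 h τ hτ
  simpa using this

theorem first_mono {q : ℕ} {F : List (Finset (Finset V))} {m s τ : Finset (Finset V)}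
    (h : first q F m = some τ) (hm : m ⊆ s) (hs : PM q (s ∪ τ)) : first q F s = some τ := by
  classical
  unfold first at h ⊢
  rw [List.find?_eq_some_iff_append] at h ⊢
  obtain ⟨-, as, bs, h1, h2⟩ := h
  refine ⟨by simpa using hs, as, bs, h1, fun a ha => ?_⟩
  have := h2 a ha
  simp only [Bool.not_eq_true', decide_eq_false_iff_not] at this ⊢
  exact fun hpm => this (hpm.mono (Finset.union_subset_union_left hm))

/-- `m₁` extends `m` by sets which meet the points covered by `σ`, and covers these points. -/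
def Cov (q : ℕ) (m σ m₁ : Finset (Finset V)) : Prop :=
  m ⊆ m₁ ∧ PM q m₁ ∧ cov σ ⊆ cov m₁ ∧ ∀ e ∈ m₁ \ m, ∃ v ∈ cov σ, v ∈ e

theorem card_meet {q : ℕ} {m m₁ : Finset (Finset V)} {X : Finset V} (hpm : PM q m₁)
    (h : ∀ e ∈ m₁ \ m, ∃ v ∈ X, v ∈ e) : (m₁ \ m).card ≤ X.card := by
  classical
  choose f hf1 hf2 using h
  rw [← Finset.card_attach (s := m₁ \ m)]
  refine Finset.card_le_card_of_injOn (fun e => f e.1 e.2) (fun e _ => hf1 e.1 e.2) ?_
  intro e _ e' _ hee
  have he1 := hf2 e.1 e.2
  have he1' := hf2 e'.1 e'.2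
  simp only at hee
  rw [← hee] at he1'
  exact Subtype.ext (hpm.eq_of_mem (Finset.mem_sdiff.1 e.2).1 (Finset.mem_sdiff.1 e'.2).1
    he1 he1')

theorem Cov.card {q : ℕ} {m σ m₁ : Finset (Finset V)} (h : Cov q m σ m₁) :
    (m₁ \ m).card ≤ (cov σ).card := card_meet h.2.1 h.2.2.2

inductive Run (q : ℕ) (F : List (Finset (Finset V))) :
    Finset (Finset V) → ℕ → Finset (Finset V) → Prop
  | nil (m : Finset (Finset V)) (hm : PM q m) : Run q F m 0 m
  | cons (m τ m₁ r : Finset (Finset V)) (j : ℕ) (hm : PM q m) (hτ : first q F m = some τ)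
      (hne : ¬ τ ⊆ m) (hc : Cov q m (τ \ m) m₁) (h : Run q F m₁ j r) :
      Run q F m ((τ \ m).card + j) ((r \ (m₁ \ m)) ∪ (τ \ m))
  | last (m τ : Finset (Finset V)) (hm : PM q m) (hτ : first q F m = some τ)
      (hne : ¬ τ ⊆ m) : Run q F m (τ \ m).card (m ∪ (τ \ m))

theorem disjoint_of_disjoint_cov {q : ℕ} (hq : 1 ≤ q) {M N : Finset (Finset V)} (hM : PM q M)
    (h : Disjoint (cov M) (cov N)) : Disjoint M N := by
  rw [Finset.disjoint_left]
  intro e he he'
  have hc : 0 < e.card := by rw [hM.1 e he]; omega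
  obtain ⟨v, hv⟩ := Finset.card_pos.1 hc
  exact Finset.disjoint_left.1 h (mem_cov.2 ⟨e, he, hv⟩) (mem_cov.2 ⟨e, he', hv⟩)

theorem step_disjoint {q : ℕ} {m τ m₁ r : Finset (Finset V)} (hτ : PM q (m ∪ τ))
    (hc : Cov q m (τ \ m) m₁) (hr : PM q r) (hm₁r : m₁ ⊆ r) :
    Disjoint (cov (r \ (m₁ \ m))) (cov (τ \ m)) := by
  rw [Finset.disjoint_left]
  intro v hv hv'
  obtain ⟨e, he, hve⟩ := mem_cov.1 hv
  obtain ⟨f, hf, hvf⟩ := mem_cov.1 (hc.2.2.1 hv')
  obtain ⟨g, hg, hvg⟩ := mem_cov.1 hv'
  rw [Finset.mem_sdiff] at he hg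
  have h1 : e = f := hr.eq_of_mem he.1 (hm₁r hf) hve hvf
  subst h1
  have h2 : e ∈ m := by
    by_contra h
    exact he.2 (Finset.mem_sdiff.2 ⟨hf, h⟩)
  have h3 : e = g := hτ.eq_of_mem (Finset.mem_union_left _ h2) (Finset.mem_union_right _ hg.1)
    hve hvg
  subst h3
  exact hg.2 h2

theorem Run.inv {q : ℕ} (hq : 1 ≤ q) {F : List (Finset (Finset V))} {m r : Finset (Finset V)}
    {j : ℕ} (h : Run q F m j r) : m ⊆ r ∧ PM q r ∧ r.card = m.card + j := by
  induction h with
  | nil m hm => exact ⟨Finset.Subset.refl _, hm, rfl⟩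
  | last m τ hm hτ hne =>
    refine ⟨Finset.subset_union_left, ?_, ?_⟩
    · rw [Finset.union_sdiff_self_eq_union]
      exact first_pm hτ
    · rw [Finset.card_union_of_disjoint Finset.disjoint_sdiff]
  | cons m τ m₁ r j hm hτ hne hc h ih =>
    obtain ⟨h1, h2, h3⟩ := ih
    have hτ' := first_pm hτ
    have hd := step_disjoint hτ' hc h2 h1
    have hpr : PM q (r \ (m₁ \ m)) := h2.mono Finset.sdiff_subset
    have hpt : PM q (τ \ m) := hτ'.mono (Finset.sdiff_subset.trans Finset.subset_union_right)
    refine ⟨?_, hpr.union hpt hd, ?_⟩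
    · intro e he
      apply Finset.mem_union_left
      rw [Finset.mem_sdiff, Finset.mem_sdiff]
      exact ⟨h1 (hc.1 he), fun h => h.2 he⟩
    · have hd' := disjoint_of_disjoint_cov hq hpr hd
      rw [Finset.card_union_of_disjoint hd', Finset.card_sdiff_of_subset
        (Finset.sdiff_subset.trans h1), Finset.card_sdiff_of_subset hc.1, h3]
      have := Finset.card_le_card hc.1
      omega

theorem Run.pm {q : ℕ} {F : List (Finset (Finset V))} {m r : Finset (Finset V)}
    {j : ℕ} (h : Run q F m j r) : PM q m := by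
  cases h with
  | nil _ hm => exact hm
  | cons _ _ _ _ _ hm => exact hm
  | last _ _ hm => exact hm

/-- The possible sets `m₁ \ m` in a step. -/
def Ans (q : ℕ) (A X : Finset V) (π : Finset (Finset V)) : Prop :=
  PM q π ∧ (∀ e ∈ π, e ⊆ A) ∧ (∀ e ∈ π, ∃ v ∈ X, v ∈ e) ∧ X ⊆ cov π

variable [Fintype V]

theorem card_sets_through {q : ℕ} (A : Finset V) (x : V) :
    (Finset.univ.filter (fun e : Finset V => e.card = q ∧ e ⊆ A ∧ x ∈ e)).card ≤
      A.card ^ (q - 1) := by
  rcases Nat.eq_zero_or_pos q with rfl | hq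
  · have : Finset.univ.filter (fun e : Finset V => e.card = 0 ∧ e ⊆ A ∧ x ∈ e) = ∅ := by
      apply Finset.filter_eq_empty_iff.2
      rintro e - ⟨h1, -, h3⟩
      rw [Finset.card_eq_zero.1 h1] at h3
      simp at h3
    rw [this]
    simp
  · refine le_trans ?_ (Nat.choose_le_pow A.card (q - 1))
    rw [← Finset.card_powersetCard]
    refine Finset.card_le_card_of_injOn (fun e => e.erase x) ?_ ?_
    · intro e he
      simp only [Finset.mem_coe, Finset.mem_filter, Finset.mem_univ, true_and] at he
      simp only [Finset.mem_coe, Finset.mem_powersetCard]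
      refine ⟨(Finset.erase_subset _ _).trans he.2.1, ?_⟩
      rw [Finset.card_erase_of_mem he.2.2, he.1]
    · intro e he e' he' hee
      simp only [Finset.mem_coe, Finset.mem_filter, Finset.mem_univ, true_and] at he he'
      simp only at hee
      rw [← Finset.insert_erase he.2.2, ← Finset.insert_erase he'.2.2, hee]

open Classical in
theorem card_ans {q : ℕ} (A X : Finset V) :
    (Finset.univ.filter (fun π : Finset (Finset V) => Ans q A X π)).card ≤
      (A.card ^ (q - 1)) ^ X.card := by
  classical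
  set E : V → Finset (Finset V) :=
    fun x => Finset.univ.filter (fun e : Finset V => e.card = q ∧ e ⊆ A ∧ x ∈ e) with hE
  set D : V → Finset (Finset (Finset V)) :=
    fun x => if x ∈ X then (E x).image (fun e => {e}) else {∅} with hD
  have h1 : (Finset.univ.filter (fun π : Finset (Finset V) => Ans q A X π)).card ≤
      (Fintype.piFinset D).card := by
    refine Finset.card_le_card_of_injOn
      (fun π x => if x ∈ X then π.filter (fun e => x ∈ e) else ∅) ?_ ?_
    · intro π hπ
      simp only [Finset.mem_coe, Finset.mem_filter, Finset.mem_univ, true_and] at hπ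
      simp only [Finset.mem_coe, Fintype.mem_piFinset]
      intro x
      by_cases hx : x ∈ X
      · simp only [hD, if_pos hx]
        obtain ⟨e, he, hxe⟩ := mem_cov.1 (hπ.2.2.2 hx)
        rw [Finset.mem_image]
        refine ⟨e, ?_, ?_⟩
        · simp only [hE, Finset.mem_filter, Finset.mem_univ, true_and]
          exact ⟨hπ.1.1 e he, hπ.2.1 e he, hxe⟩
        · ext f
          simp only [Finset.mem_singleton, Finset.mem_filter]
          constructor
          · rintro rfl
            exact ⟨he, hxe⟩
          · rintro ⟨hf, hxf⟩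
            exact hπ.1.eq_of_mem hf he hxf hxe
      · simp only [hD, if_neg hx, Finset.mem_singleton]
    · intro π hπ π' hπ' hee
      simp only [Finset.mem_coe, Finset.mem_filter, Finset.mem_univ, true_and] at hπ hπ'
      have key : ∀ π π' : Finset (Finset V), Ans q A X π →
          (fun x => if x ∈ X then π.filter (fun e => x ∈ e) else ∅) =
            (fun x => if x ∈ X then π'.filter (fun e => x ∈ e) else ∅) → π ⊆ π' := by
        intro π π' hπ hee e he
        obtain ⟨v, hv, hve⟩ := hπ.2.2.1 e he
        have := congrFun hee v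
        simp only [if_pos hv] at this
        have h2 : e ∈ π.filter (fun e => v ∈ e) := Finset.mem_filter.2 ⟨he, hve⟩
        rw [this] at h2
        exact (Finset.mem_filter.1 h2).1
      exact Finset.Subset.antisymm (key π π' hπ hee) (key π' π hπ' hee.symm)
  refine h1.trans ?_
  rw [Fintype.card_piFinset]
  have h2 : ∀ x, (D x).card ≤ if x ∈ X then A.card ^ (q - 1) else 1 := by
    intro x
    by_cases hx : x ∈ X
    · simp only [hD, if_pos hx]
      exact Finset.card_image_le.trans (card_sets_through A x)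
    · simp [hD, if_neg hx]
  refine (Finset.prod_le_prod' (fun x _ => h2 x)).trans ?_
  rw [Finset.prod_ite]
  simp

end Pool.Agent.L0h36.BF
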