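import Pool.Agent.L0h36.BF.Switch

set_option autoImplicit false
set_option linter.unusedSectionVars false

/-!
# A switching lemma for systems of disjoint q-sets: counting
-/

namespace Pool.Agent.L0h36.BF

open Finset

variable {V : Type} [DecidableEq V] [Fintype V]

theorem Run.split {q : ℕ} (hq : 1 ≤ q) {F : List (Finset (Finset V))} {m r : Finset (Finset V)}
    {j : ℕ} (h : Run q F m j r) (hj : 0 < j) :
    ∃ τ, first q F r = some τ ∧ (τ \ m).Nonempty ∧ τ ⊆ r ∧
      ((j = (τ \ m).card ∧ m = r \ (τ \ m)) ∨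
      ∃ m₁ j₁, j = (τ \ m).card + j₁ ∧
      Cov q m (τ \ m) m₁ ∧ Run q F m₁ j₁ ((r \ (τ \ m)) ∪ (m₁ \ m)) ∧
      Ans q ((Finset.univ \ cov r) ∪ cov (τ \ m)) (cov (τ \ m)) (m₁ \ m) ∧
      m = m₁ \ (m₁ \ m)) := by
  cases h with
  | nil _ hm => exact absurd hj (lt_irrefl _)
  | last _ τ hm hτ hne =>
    have hτ' := first_pm hτ
    have hun : m ∪ τ \ m = m ∪ τ := Finset.union_sdiff_self_eq_union
    have hτr : τ ⊆ m ∪ τ \ m := by
      rw [hun]; exact Finset.subset_union_right
    refine ⟨τ, ?_, ?_, hτr, Or.inl ⟨rfl, ?_⟩⟩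
    · refine first_mono hτ Finset.subset_union_left ?_
      rw [Finset.union_eq_left.2 hτr, hun]
      exact hτ'
    · rw [Finset.sdiff_nonempty]
      exact hne
    · rw [Finset.union_sdiff_right, Finset.sdiff_eq_self_of_disjoint Finset.disjoint_sdiff]
  | cons _ τ m₁ r₁ j₁ hm hτ hne hc h' =>
    have hinv := h'.inv hq
    have hτ' := first_pm hτ
    have hfull := (Run.cons m τ m₁ r₁ j₁ hm hτ hne hc h').inv hq
    have hd := step_disjoint hτ' hc hinv.2.1 hinv.1
    have hpr : PM q (r₁ \ (m₁ \ m)) := hinv.2.1.mono Finset.sdiff_subset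
    have hd' := disjoint_of_disjoint_cov hq hpr hd
    have hτr : τ ⊆ r₁ \ (m₁ \ m) ∪ τ \ m := by
      intro e he
      by_cases hem : e ∈ m
      · exact hfull.1 hem
      · exact Finset.mem_union_right _ (Finset.mem_sdiff.2 ⟨he, hem⟩)
    have hr₁ : (r₁ \ (m₁ \ m) ∪ τ \ m) \ (τ \ m) ∪ (m₁ \ m) = r₁ := by
      rw [Finset.union_sdiff_right, Finset.sdiff_eq_self_of_disjoint hd',
        Finset.sdiff_union_of_subset (Finset.sdiff_subset.trans hinv.1)]
    refine ⟨τ, ?_, ?_, hτr, Or.inr ⟨m₁, j₁, rfl, hc, ?_, ?_, ?_⟩⟩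
    · refine first_mono hτ hfull.1 ?_
      rw [Finset.union_eq_left.2 hτr]
      exact hfull.2.1
    · rw [Finset.sdiff_nonempty]
      exact hne
    · rw [hr₁]
      exact h'
    · refine ⟨hc.2.1.mono Finset.sdiff_subset, ?_, hc.2.2.2, ?_⟩
      · intro e he v hv
        rw [Finset.mem_union, Finset.mem_sdiff]
        by_cases hvr : v ∈ cov (r₁ \ (m₁ \ m) ∪ τ \ m)
        · right
          rw [cov_union, Finset.mem_union] at hvr
          rcases hvr with hvr | hvr
          · exfalso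
            obtain ⟨g, hg, hvg⟩ := mem_cov.1 hvr
            rw [Finset.mem_sdiff] at hg
            have : e = g := hinv.2.1.eq_of_mem (hinv.1 (Finset.mem_sdiff.1 he).1) hg.1 hv hvg
            exact hg.2 (this ▸ he)
          · exact hvr
        · exact Or.inl ⟨Finset.mem_univ _, hvr⟩
      · intro v hv
        obtain ⟨f, hf, hvf⟩ := mem_cov.1 (hc.2.2.1 hv)
        refine mem_cov.2 ⟨f, Finset.mem_sdiff.2 ⟨hf, fun hfm => ?_⟩, hvf⟩
        obtain ⟨g, hg, hvg⟩ := mem_cov.1 hv
        rw [Finset.mem_sdiff] at hg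
        have : f = g := hτ'.eq_of_mem (Finset.mem_union_left _ hfm)
          (Finset.mem_union_right _ hg.1) hvf hvg
        exact hg.2 (this ▸ hfm)
    · rw [Finset.sdiff_sdiff_eq_self hc.1]

open Classical in
/-- The systems over `b` from which a run of length `j` leads to `r`. -/
noncomputable def Rev (q : ℕ) (F : List (Finset (Finset V))) (b : Finset (Finset V)) (u j : ℕ)
    (r : Finset (Finset V)) : Finset (Finset (Finset V)) :=
  Finset.univ.filter (fun m => b ⊆ m ∧ (Finset.univ \ cov m).card ≤ u ∧ Run q F m j r)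

theorem mem_Rev {q : ℕ} {F : List (Finset (Finset V))} {b : Finset (Finset V)} {u j : ℕ}
    {r m : Finset (Finset V)} :
    m ∈ Rev q F b u j r ↔ b ⊆ m ∧ (Finset.univ \ cov m).card ≤ u ∧ Run q F m j r := by
  simp [Rev]

theorem geo_sum (j : ℕ) : ∑ i ∈ Finset.Icc 1 j, 2 ^ (j - i) + 1 ≤ 2 ^ j := by
  induction j with
  | zero => simp
  | succ k ih2 =>
    rw [Finset.sum_Icc_succ_top (by omega)]
    have : ∀ i ∈ Finset.Icc 1 k, 2 ^ (k + 1 - i) = 2 * 2 ^ (k - i) := by
      intro i hi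
      rw [Finset.mem_Icc] at hi
      rw [← pow_succ']
      congr 1
      omega
    rw [Finset.sum_congr rfl this, ← Finset.mul_sum, Nat.sub_self, pow_zero, pow_succ]
    omega

theorem card_rev {q : ℕ} (hq : 1 ≤ q) (F : List (Finset (Finset V))) (b : Finset (Finset V))
    (t u : ℕ) (hu1 : 1 ≤ u) (hF : ∀ τ ∈ F, (τ \ b).card ≤ t) :
    ∀ (j : ℕ) (r : Finset (Finset V)),
      (Rev q F b u j r).card ≤ (2 * (t * (u ^ (q - 1)) ^ q)) ^ j := by
  intro j
  induction j using Nat.strong_induction_on with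
  | _ j IH =>
  intro r
  rcases Nat.eq_zero_or_pos j with rfl | hj
  · rw [pow_zero]
    refine Finset.card_le_one.2 ?_
    intro m hm m' hm'
    rw [mem_Rev] at hm hm'
    have h1 := hm.2.2.inv hq
    have h2 := hm'.2.2.inv hq
    rw [Finset.eq_of_subset_of_card_le h1.1 (by omega),
      Finset.eq_of_subset_of_card_le h2.1 (by omega)]
  rcases (Rev q F b u j r).eq_empty_or_nonempty with hemp | ⟨m0, hm0⟩
  · rw [hemp]; simp
  rw [mem_Rev] at hm0
  obtain ⟨hbm0, hum0, hrun0⟩ := hm0
  have hinv0 := hrun0.inv hq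
  obtain ⟨τ, hfr, -, hτr, -⟩ := hrun0.split hq hj
  have hcard_unc : ∀ m : Finset (Finset V), PM q m →
      (Finset.univ \ cov m).card = Fintype.card V - q * m.card := by
    intro m hm
    rw [Finset.card_sdiff_of_subset (Finset.subset_univ _), hm.card_cov, Finset.card_univ]
  have hle : q * r.card ≤ Fintype.card V := by
    rw [← hinv0.2.1.card_cov, ← Finset.card_univ]
    exact Finset.card_le_card (Finset.subset_univ _)
  have hum0' := hum0
  rw [hcard_unc m0 hrun0.pm] at hum0'
  set W : ℕ := (u ^ (q - 1)) ^ q with hW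
  classical
  set S : Finset (Finset (Finset V)) :=
    (τ \ b).powerset.filter (fun σ => σ.Nonempty ∧ σ.card ≤ j) with hS
  set A : Finset (Finset V) → Finset V := fun σ => (Finset.univ \ cov r) ∪ cov σ with hA
  have hτpm : PM q τ := (first_pm hfr).mono Finset.subset_union_right
  have hcovσ : ∀ σ ∈ S, (cov σ).card = q * σ.card := by
    intro σ hσ
    rw [hS, Finset.mem_filter, Finset.mem_powerset] at hσ
    exact (hτpm.mono (hσ.1.trans Finset.sdiff_subset)).card_cov
  have hAcard : ∀ σ ∈ S, (A σ).card ≤ u := by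
    intro σ hσ
    have h1 := hcovσ σ hσ
    rw [hS, Finset.mem_filter, Finset.mem_powerset] at hσ
    refine (Finset.card_union_le _ _).trans ?_
    rw [h1, hcard_unc r hinv0.2.1]
    have h2 : q * σ.card ≤ q * j := Nat.mul_le_mul_left _ hσ.2.2
    have h3 : q * r.card = q * m0.card + q * j := by rw [hinv0.2.2]; ring
    omega
  have hsub : Rev q F b u j r ⊆ S.biUnion (fun σ =>
      (Finset.univ.filter (fun π => Ans q (A σ) (cov σ) π)).biUnion (fun π =>
        (Rev q F b u (j - σ.card) ((r \ σ) ∪ π)).image (fun m => m \ π))) ∪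
        ((τ \ b).powersetCard j).image (fun σ => r \ σ) := by
    intro m hm
    rw [mem_Rev] at hm
    obtain ⟨hbm, hum, hrun⟩ := hm
    obtain ⟨τ', hfr', hne, hτ'r, hcase⟩ := hrun.split hq hj
    rw [hfr] at hfr'
    obtain rfl := Option.some.inj hfr'
    rw [Finset.mem_union]
    rcases hcase with ⟨hjj, hmm⟩ | ⟨m₁, j₁, hjj, hc, hrun₁, hans, hmm⟩
    · right
      rw [Finset.mem_image]
      refine ⟨τ \ m, ?_, hmm.symm⟩
      rw [Finset.mem_powersetCard]
      exact ⟨Finset.sdiff_subset_sdiff (Finset.Subset.refl _) hbm, hjj.symm⟩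
    left
    rw [Finset.mem_biUnion]
    refine ⟨τ \ m, ?_, ?_⟩
    · rw [hS, Finset.mem_filter, Finset.mem_powerset]
      exact ⟨Finset.sdiff_subset_sdiff (Finset.Subset.refl _) hbm, hne, by omega⟩
    · rw [Finset.mem_biUnion]
      refine ⟨m₁ \ m, ?_, ?_⟩
      · rw [Finset.mem_filter]
        exact ⟨Finset.mem_univ _, hans⟩
      · rw [Finset.mem_image]
        refine ⟨m₁, ?_, hmm.symm⟩
        rw [mem_Rev]
        refine ⟨hbm.trans hc.1, ?_, ?_⟩
        · refine le_trans (Finset.card_le_card ?_) hum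
          exact Finset.sdiff_subset_sdiff (Finset.Subset.refl _) (cov_mono hc.1)
        · have : j - (τ \ m).card = j₁ := by omega
          rw [this]
          exact hrun₁
  have hct : (τ \ b).card ≤ t := hF τ (first_mem hfr)
  have hW1 : 1 ≤ W := Nat.one_le_pow _ _ (Nat.one_le_pow _ _ hu1)
  have hlast : (((τ \ b).powersetCard j).image (fun σ => r \ σ)).card ≤ (t * W) ^ j := by
    refine Finset.card_image_le.trans ?_
    rw [Finset.card_powersetCard]
    refine (Nat.choose_le_pow _ _).trans ?_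
    refine Nat.pow_le_pow_left (hct.trans ?_) j
    exact Nat.le_mul_of_pos_right _ hW1
  have hstep : (Rev q F b u j r).card ≤
      ∑ σ ∈ S, W ^ σ.card * (2 * (t * W)) ^ (j - σ.card) + (t * W) ^ j := by
    refine (Finset.card_le_card hsub).trans ((Finset.card_union_le _ _).trans ?_)
    refine Nat.add_le_add ?_ hlast
    refine Finset.card_biUnion_le.trans ?_
    refine Finset.sum_le_sum fun σ hσ => ?_
    refine Finset.card_biUnion_le.trans ?_
    have hσ' := hσ
    rw [hS, Finset.mem_filter, Finset.mem_powerset] at hσ'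
    have hpos : 0 < σ.card := Finset.card_pos.2 hσ'.2.1
    have h1 : ∀ π ∈ Finset.univ.filter (fun π => Ans q (A σ) (cov σ) π),
        ((Rev q F b u (j - σ.card) ((r \ σ) ∪ π)).image (fun m => m \ π)).card ≤
          (2 * (t * W)) ^ (j - σ.card) := fun π _ =>
      Finset.card_image_le.trans (IH _ (by omega) _)
    refine (Finset.sum_le_sum h1).trans ?_
    rw [Finset.sum_const, smul_eq_mul]
    refine Nat.mul_le_mul_right _ ?_
    refine (card_ans (A σ) (cov σ)).trans ?_
    rw [hcovσ σ hσ, hW, ← pow_mul (u ^ (q - 1)) q σ.card]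
    exact Nat.pow_le_pow_left (Nat.pow_le_pow_left (hAcard σ hσ) _) _
  refine hstep.trans ?_
  set f : ℕ → ℕ := fun i => if 1 ≤ i ∧ i ≤ j then W ^ i * (2 * (t * W)) ^ (j - i) else 0 with hf
  have h2 : ∑ σ ∈ S, W ^ σ.card * (2 * (t * W)) ^ (j - σ.card) ≤
      ∑ σ ∈ (τ \ b).powerset, f σ.card := by
    rw [hS, Finset.sum_filter]
    refine Finset.sum_le_sum fun σ _ => ?_
    split_ifs with h
    · have h1 : 0 < σ.card := Finset.card_pos.2 h.1
      simp only [hf]
      rw [if_pos ⟨h1, h.2⟩]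
    · exact Nat.zero_le _
  refine (Nat.add_le_add_right h2 _).trans ?_
  rw [Finset.sum_powerset_apply_card]
  have h3 : ∀ i, (τ \ b).card.choose i • f i ≤
      if i ∈ Finset.Icc 1 j then 2 ^ (j - i) * (t * W) ^ j else 0 := by
    intro i
    rw [smul_eq_mul]
    by_cases hi : 1 ≤ i ∧ i ≤ j
    · rw [if_pos (Finset.mem_Icc.2 hi)]
      simp only [hf]
      rw [if_pos hi]
      have h4 : (τ \ b).card.choose i ≤ t ^ i :=
        (Nat.choose_le_pow _ _).trans (Nat.pow_le_pow_left hct i)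
      have h5 : t ^ i * (W ^ i * (2 * (t * W)) ^ (j - i)) = 2 ^ (j - i) * (t * W) ^ j := by
        have h6 : (t * W) ^ j = (t * W) ^ i * (t * W) ^ (j - i) := by
          rw [← pow_add]
          congr 1
          omega
        rw [h6, mul_pow 2 (t * W), mul_pow t W i]
        ring
      rw [← h5]
      exact Nat.mul_le_mul_right _ h4
    · rw [if_neg (by rw [Finset.mem_Icc]; exact hi)]
      simp only [hf]
      rw [if_neg hi, mul_zero]
  refine (Nat.add_le_add_right (Finset.sum_le_sum fun i _ => h3 i) _).trans ?_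
  have h7 : ∑ i ∈ Finset.range ((τ \ b).card + 1),
      (if i ∈ Finset.Icc 1 j then 2 ^ (j - i) * (t * W) ^ j else 0) ≤
      ∑ i ∈ Finset.Icc 1 j, 2 ^ (j - i) * (t * W) ^ j := by
    rw [← Finset.sum_filter]
    refine Finset.sum_le_sum_of_subset ?_
    intro i hi
    exact (Finset.mem_filter.1 hi).2
  refine (Nat.add_le_add_right h7 _).trans ?_
  rw [← Finset.sum_mul, mul_pow 2]
  have h8 := Nat.mul_le_mul_right ((t * W) ^ j) (geo_sum j)
  rw [add_mul, one_mul] at h8
  exact h8

open Classical in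
/-- The systems over `b` with `a` further sets. -/
noncomputable def RS (q : ℕ) (b : Finset (Finset V)) (a : ℕ) : Finset (Finset (Finset V)) :=
  Finset.univ.filter (fun m => b ⊆ m ∧ PM q m ∧ m.card = b.card + a)

theorem mem_RS {q : ℕ} {b m : Finset (Finset V)} {a : ℕ} :
    m ∈ RS q b a ↔ b ⊆ m ∧ PM q m ∧ m.card = b.card + a := by
  simp [RS]

theorem card_RS_succ {q : ℕ} (b : Finset (Finset V)) (a : ℕ) :
    (RS q b (a + 1)).card * (a + 1) ≤
      (RS q b a).card * (Fintype.card V - q * (b.card + a)) ^ q := by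
  classical
  have h1 : (RS q b (a + 1)).card * (a + 1) = ((RS q b (a + 1)).sigma (fun m => m \ b)).card := by
    rw [Finset.card_sigma, Finset.sum_congr rfl (g := fun _ => a + 1)]
    · rw [Finset.sum_const, smul_eq_mul]
    · intro m hm
      rw [mem_RS] at hm
      rw [Finset.card_sdiff_of_subset hm.1, hm.2.2]
      omega
  have h2 : ((RS q b a).sigma (fun m =>
      Finset.powersetCard q (Finset.univ \ cov m))).card ≤
      (RS q b a).card * (Fintype.card V - q * (b.card + a)) ^ q := by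
    rw [Finset.card_sigma]
    refine (Finset.sum_le_sum (g := fun _ => (Fintype.card V - q * (b.card + a)) ^ q) ?_).trans ?_
    · intro m hm
      rw [mem_RS] at hm
      rw [Finset.card_powersetCard, Finset.card_sdiff_of_subset (Finset.subset_univ _),
        hm.2.1.card_cov, Finset.card_univ, hm.2.2]
      exact Nat.choose_le_pow _ _
    · rw [Finset.sum_const, smul_eq_mul]
  rw [h1]
  refine le_trans ?_ h2
  refine Finset.card_le_card_of_injOn
    (fun x => (⟨x.1.erase x.2, x.2⟩ : (_ : Finset (Finset V)) × Finset V)) ?_ ?_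
  · rintro ⟨m, e⟩ hx
    simp only [Finset.mem_coe, Finset.mem_sigma, mem_RS, Finset.mem_sdiff] at hx
    simp only [Finset.mem_coe, Finset.mem_sigma, mem_RS, Finset.mem_powersetCard]
    obtain ⟨⟨h3, h4, h5⟩, h6, h7⟩ := hx
    refine ⟨⟨?_, h4.mono (Finset.erase_subset _ _), ?_⟩, ?_, h4.1 e h6⟩
    · intro f hf
      rw [Finset.mem_erase]
      refine ⟨?_, h3 hf⟩
      rintro rfl
      exact h7 hf
    · rw [Finset.card_erase_of_mem h6, h5]
      omega
    · intro v hv
      rw [Finset.mem_sdiff]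
      refine ⟨Finset.mem_univ _, fun hv' => ?_⟩
      obtain ⟨f, hf, hvf⟩ := mem_cov.1 hv'
      rw [Finset.mem_erase] at hf
      exact hf.1 (h4.eq_of_mem hf.2 h6 hvf hv)
  · rintro ⟨m, e⟩ hx ⟨m', e'⟩ hx' hee
    simp only [Finset.mem_coe, Finset.mem_sigma, mem_RS, Finset.mem_sdiff] at hx hx'
    simp only [Sigma.mk.injEq] at hee
    obtain ⟨h3, h4⟩ := hee
    have h5 : e = e' := eq_of_heq h4
    subst h5
    have : m = m' := by
      rw [← Finset.insert_erase hx.2.1, ← Finset.insert_erase hx'.2.1, h3]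
    subst this
    rfl

theorem card_RS_add {q : ℕ} (b : Finset (Finset V)) (a u : ℕ)
    (hu : Fintype.card V - q * (b.card + a) ≤ u) (j : ℕ) :
    (RS q b (a + j)).card * a ^ j ≤ (RS q b a).card * (u ^ q) ^ j := by
  induction j with
  | zero => simp
  | succ j ih =>
    have h1 := card_RS_succ (q := q) b (a + j)
    have h2 : Fintype.card V - q * (b.card + (a + j)) ≤ u := by
      have : q * (b.card + a) ≤ q * (b.card + (a + j)) := Nat.mul_le_mul_left _ (by omega)
      omega
    calc (RS q b (a + (j + 1))).card * a ^ (j + 1)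
        = ((RS q b (a + j + 1)).card * a) * a ^ j := by rw [← add_assoc]; ring
      _ ≤ ((RS q b (a + j + 1)).card * (a + j + 1)) * a ^ j := by
          gcongr
          omega
      _ ≤ ((RS q b (a + j)).card * u ^ q) * a ^ j :=
          Nat.mul_le_mul_right _ (h1.trans (Nat.mul_le_mul_left _ (Nat.pow_le_pow_left h2 _)))
      _ = ((RS q b (a + j)).card * a ^ j) * u ^ q := by ring
      _ ≤ ((RS q b a).card * (u ^ q) ^ j) * u ^ q := by gcongr
      _ = (RS q b a).card * (u ^ q) ^ (j + 1) := by ring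

open Classical in
/-- The bad systems. -/
noncomputable def Bad (q : ℕ) (F : List (Finset (Finset V))) (b : Finset (Finset V)) (a j0 : ℕ) :
    Finset (Finset (Finset V)) :=
  (RS q b a).filter (fun m => ∃ j, j0 ≤ j ∧ ∃ r, Run q F m j r)

theorem card_bad_one {q : ℕ} (hq : 1 ≤ q) (F : List (Finset (Finset V)))
    (b : Finset (Finset V)) (t u a : ℕ) (hF : ∀ τ ∈ F, (τ \ b).card ≤ t)
    (hu : Fintype.card V - q * (b.card + a) ≤ u) (hu1 : 1 ≤ u) (ha : 0 < a)
    (hbig : 4 * (t * (u ^ (q - 1)) ^ q) * u ^ q ≤ a) (j : ℕ) [DecidablePred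
      (fun m : Finset (Finset V) => ∃ r, Run q F m j r)] :
    ((RS q b a).filter (fun m => ∃ r, Run q F m j r)).card * 2 ^ j ≤ (RS q b a).card := by
  classical
  have h1 : ((RS q b a).filter (fun m => ∃ r, Run q F m j r)).card ≤
      (RS q b (a + j)).card * (2 * (t * (u ^ (q - 1)) ^ q)) ^ j := by
    have hsub : (RS q b a).filter (fun m => ∃ r, Run q F m j r) ⊆
        (RS q b (a + j)).biUnion (fun r => Rev q F b u j r) := by
      intro m hm
      rw [Finset.mem_filter, mem_RS] at hm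
      obtain ⟨⟨h1, h2, h3⟩, r, hr⟩ := hm
      rw [Finset.mem_biUnion]
      have hinv := hr.inv hq
      refine ⟨r, ?_, ?_⟩
      · rw [mem_RS]
        exact ⟨h1.trans hinv.1, hinv.2.1, by omega⟩
      · rw [mem_Rev]
        refine ⟨h1, ?_, hr⟩
        rw [Finset.card_sdiff_of_subset (Finset.subset_univ _), h2.card_cov, Finset.card_univ, h3]
        exact hu
    refine (Finset.card_le_card hsub).trans (Finset.card_biUnion_le.trans ?_)
    refine (Finset.sum_le_sum (fun r _ => card_rev hq F b t u hu1 hF j r)).trans ?_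
    rw [Finset.sum_const, smul_eq_mul]
  have h2 := card_RS_add (q := q) b a u hu j
  have h3 : 0 < a ^ j := pow_pos ha j
  refine Nat.le_of_mul_le_mul_right ?_ h3
  calc ((RS q b a).filter (fun m => ∃ r, Run q F m j r)).card * 2 ^ j * a ^ j
      ≤ ((RS q b (a + j)).card * (2 * (t * (u ^ (q - 1)) ^ q)) ^ j) * 2 ^ j * a ^ j := by gcongr
    _ = ((RS q b (a + j)).card * a ^ j) * (4 * (t * (u ^ (q - 1)) ^ q)) ^ j := by
        have : (4 : ℕ) * (t * (u ^ (q - 1)) ^ q) = (2 * (t * (u ^ (q - 1)) ^ q)) * 2 := by ring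
        rw [this, mul_pow _ 2]
        ring
    _ ≤ ((RS q b a).card * (u ^ q) ^ j) * (4 * (t * (u ^ (q - 1)) ^ q)) ^ j := by gcongr
    _ = (RS q b a).card * (4 * (t * (u ^ (q - 1)) ^ q) * u ^ q) ^ j := by
        rw [mul_pow (4 * (t * (u ^ (q - 1)) ^ q)) (u ^ q)]
        ring
    _ ≤ (RS q b a).card * a ^ j := by gcongr

theorem card_bad {q : ℕ} (hq : 1 ≤ q) (F : List (Finset (Finset V)))
    (b : Finset (Finset V)) (t u a j0 : ℕ) (hF : ∀ τ ∈ F, (τ \ b).card ≤ t)
    (hu : Fintype.card V - q * (b.card + a) ≤ u) (hu1 : 1 ≤ u) (ha : 0 < a)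
    (hbig : 4 * (t * (u ^ (q - 1)) ^ q) * u ^ q ≤ a) :
    (2 : ℝ) ^ j0 * ((Bad q F b a j0).card : ℝ) ≤ 2 * ((RS q b a).card : ℝ) := by
  classical
  set N := Fintype.card (Finset V) with hN
  have hsub : Bad q F b a j0 ⊆ (Finset.range (N + 1)).biUnion (fun i =>
      (RS q b a).filter (fun m => ∃ r, Run q F m (j0 + i) r)) := by
    intro m hm
    rw [Bad, Finset.mem_filter] at hm
    obtain ⟨h1, j, hj, r, hr⟩ := hm
    rw [Finset.mem_biUnion]
    refine ⟨j - j0, ?_, ?_⟩
    · rw [Finset.mem_range]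
      have hinv := hr.inv hq
      have : r.card ≤ N := Finset.card_le_univ r
      omega
    · rw [Finset.mem_filter]
      refine ⟨h1, r, ?_⟩
      have : j0 + (j - j0) = j := by omega
      rw [this]
      exact hr
  have h1 : ((Bad q F b a j0).card : ℝ) ≤ ∑ i ∈ Finset.range (N + 1),
      (((RS q b a).filter (fun m => ∃ r, Run q F m (j0 + i) r)).card : ℝ) := by
    have := (Finset.card_le_card hsub).trans Finset.card_biUnion_le
    exact_mod_cast this
  have h2 : ∀ i, (((RS q b a).filter (fun m => ∃ r, Run q F m (j0 + i) r)).card : ℝ) ≤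
      ((RS q b a).card : ℝ) * ((1 / 2) ^ j0 * (1 / 2) ^ i) := by
    intro i
    have h3 := card_bad_one hq F b t u a hF hu hu1 ha hbig (j0 + i)
    have h4 : (((RS q b a).filter (fun m => ∃ r, Run q F m (j0 + i) r)).card : ℝ) *
        2 ^ (j0 + i) ≤ ((RS q b a).card : ℝ) := by exact_mod_cast h3
    rw [← pow_add, one_div, inv_pow, ← div_eq_mul_inv, le_div_iff₀ (by positivity)]
    exact h4
  have h3 : ∑ i ∈ Finset.range (N + 1), ((1 : ℝ) / 2) ^ i ≤ 2 := by
    rw [geom_sum_eq (by norm_num)]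
    have : (0 : ℝ) ≤ (1 / 2) ^ (N + 1) := by positivity
    rw [div_le_iff_of_neg (by norm_num)]
    linarith
  calc (2 : ℝ) ^ j0 * ((Bad q F b a j0).card : ℝ)
      ≤ 2 ^ j0 * ∑ i ∈ Finset.range (N + 1), ((RS q b a).card : ℝ) *
          ((1 / 2) ^ j0 * (1 / 2) ^ i) := by
        gcongr
        exact h1.trans (Finset.sum_le_sum fun i _ => h2 i)
    _ = ((RS q b a).card : ℝ) * (∑ i ∈ Finset.range (N + 1), ((1 : ℝ) / 2) ^ i) := by
        rw [← Finset.mul_sum, ← Finset.mul_sum]
        have : (2 : ℝ) ^ j0 * (1 / 2) ^ j0 = 1 := by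
          rw [← mul_pow]; norm_num
        calc (2 : ℝ) ^ j0 * (((RS q b a).card : ℝ) * ((1 / 2) ^ j0 *
              ∑ i ∈ Finset.range (N + 1), ((1 : ℝ) / 2) ^ i))
            = ((2 : ℝ) ^ j0 * (1 / 2) ^ j0) * (((RS q b a).card : ℝ) *
              ∑ i ∈ Finset.range (N + 1), ((1 : ℝ) / 2) ^ i) := by ring
          _ = _ := by rw [this, one_mul]
    _ ≤ ((RS q b a).card : ℝ) * 2 := by gcongr
    _ = 2 * ((RS q b a).card : ℝ) := by ring

theorem RS_nonempty {q : ℕ} (hq : 1 ≤ q) (b : Finset (Finset V)) (hb : PM q b) (a : ℕ)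
    (ha : q * (b.card + a) ≤ Fintype.card V) : (RS q b a).Nonempty := by
  classical
  induction a with
  | zero => exact ⟨b, mem_RS.2 ⟨Finset.Subset.refl _, hb, rfl⟩⟩
  | succ a ih =>
    have h1 : q * (b.card + a) + q ≤ Fintype.card V := by
      refine le_trans (le_of_eq ?_) ha
      ring
    obtain ⟨m, hm⟩ := ih (by omega)
    rw [mem_RS] at hm
    have h2 : q ≤ (Finset.univ \ cov m).card := by
      rw [Finset.card_sdiff_of_subset (Finset.subset_univ _), hm.2.1.card_cov, Finset.card_univ,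
        hm.2.2]
      omega
    obtain ⟨e, he, hec⟩ := Finset.exists_subset_card_eq h2
    have hd : Disjoint e (cov m) := by
      rw [Finset.disjoint_left]
      intro v hv hv'
      exact (Finset.mem_sdiff.1 (he hv)).2 hv'
    have hem : e ∉ m := by
      intro hem
      have hc : 0 < e.card := by omega
      obtain ⟨v, hv⟩ := Finset.card_pos.1 hc
      exact Finset.disjoint_left.1 hd hv (mem_cov.2 ⟨e, hem, hv⟩)
    refine ⟨insert e m, mem_RS.2 ⟨hm.1.trans (Finset.subset_insert _ _), hm.2.1.cons hec hd, ?_⟩⟩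
    rw [Finset.card_insert_of_notMem hem, hm.2.2]
    omega

/-- **Switching lemma.** Some system is not bad for all members of a small family. -/
theorem exists_good {q : ℕ} (hq : 1 ≤ q) {ι : Type} (I : Finset ι)
    (F : ι → List (Finset (Finset V))) (b : Finset (Finset V)) (hb : PM q b) (t u a j0 : ℕ)
    (hF : ∀ i ∈ I, ∀ τ ∈ F i, (τ \ b).card ≤ t)
    (hu : Fintype.card V - q * (b.card + a) ≤ u) (hu1 : 1 ≤ u) (ha : 0 < a)
    (hle : q * (b.card + a) ≤ Fintype.card V)
    (hbig : 4 * (t * (u ^ (q - 1)) ^ q) * u ^ q ≤ a) (hI : 2 * I.card < 2 ^ j0) :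
    ∃ m, b ⊆ m ∧ PM q m ∧ m.card = b.card + a ∧
      ∀ i ∈ I, ∀ j r, Run q (F i) m j r → j < j0 := by
  classical
  have hne := RS_nonempty hq b hb a hle
  have hpos : (0 : ℝ) < ((RS q b a).card : ℝ) := by
    exact_mod_cast Finset.card_pos.2 hne
  have h1 : ((I.biUnion (fun i => Bad q (F i) b a j0)).card : ℝ) < ((RS q b a).card : ℝ) := by
    have h2 : ((I.biUnion (fun i => Bad q (F i) b a j0)).card : ℝ) ≤
        ∑ i ∈ I, ((Bad q (F i) b a j0).card : ℝ) := by
      exact_mod_cast Finset.card_biUnion_le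
    have h3 : (2 : ℝ) ^ j0 * ∑ i ∈ I, ((Bad q (F i) b a j0).card : ℝ) ≤
        (2 * I.card : ℝ) * ((RS q b a).card : ℝ) := by
      rw [Finset.mul_sum]
      refine (Finset.sum_le_sum (fun i hi => card_bad hq (F i) b t u a j0 (hF i hi) hu hu1 ha
        hbig)).trans ?_
      rw [Finset.sum_const, nsmul_eq_mul]
      linarith
    have h4 : ((2 * I.card : ℝ)) < 2 ^ j0 := by exact_mod_cast hI
    have h5 : (2 * I.card : ℝ) * ((RS q b a).card : ℝ) < 2 ^ j0 * ((RS q b a).card : ℝ) :=
      mul_lt_mul_of_pos_right h4 hpos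
    have h6 : (2 : ℝ) ^ j0 * ∑ i ∈ I, ((Bad q (F i) b a j0).card : ℝ) <
        2 ^ j0 * ((RS q b a).card : ℝ) := lt_of_le_of_lt h3 h5
    exact lt_of_le_of_lt h2 (lt_of_mul_lt_mul_left h6 (by positivity))
  have h7 : (I.biUnion (fun i => Bad q (F i) b a j0)).card < (RS q b a).card := by
    exact_mod_cast h1
  obtain ⟨m, hm, hm'⟩ := Finset.exists_mem_notMem_of_card_lt_card h7
  have hm2 := mem_RS.1 hm
  refine ⟨m, hm2.1, hm2.2.1, hm2.2.2, fun i hi j r hr => ?_⟩
  by_contra hlt
  push Not at hlt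
  apply hm'
  rw [Finset.mem_biUnion]
  refine ⟨i, hi, ?_⟩
  rw [Bad, Finset.mem_filter]
  exact ⟨hm, j, hlt, r, hr⟩

end Pool.Agent.L0h36.BF
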