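import Pool.Agent.L0h36.BF.Refine
import Pool.Agent.L0h36.BF.Inst

set_option autoImplicit false
set_option linter.unusedSectionVars false

/-!
# Values of formulas at the points of the model
-/

namespace Pool.Agent.L0h36.BF

open Finset

namespace Fml

/-- The bound for the degree of the instance of a formula. -/
def Fd {p : ℕ} {α : Type} (t : ℕ) : Fml p α → ℕ
  | .var _ => 0
  | .neg φ => Fd t φ
  | .and _ f => ∑ j, Fd t (f j)
  | .or _ f => ∑ j, Fd t (f j)
  | .mod _ _ f => (p - 1) * Finset.univ.sup fun j => Fd t (f j) + t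

end Fml

variable {F : Type} [Field F] {V : Type} [DecidableEq V] [Fintype V] {p q D : ℕ}
  {ρ : Finset (Finset V)} (MD : Model F q (Finset.univ \ cov ρ) D)
  (T : Fml p (Finset V) → DT V)

/-- The value of the tree of a formula at a point. -/
noncomputable def tv (y : MD.Y) (χ : Fml p (Finset V)) : Bool := (T χ).val (RR MD y)

/-- The value of a formula at a point. -/
noncomputable def vl (y : MD.Y) (φ : Fml p (Finset V)) : Bool :=
  tv MD T y (Fml.sv (tv MD T y) φ)

theorem rho_sub (y : MD.Y) : ρ ⊆ RR MD y := Finset.subset_union_left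

theorem one_mem (k : ℕ) : (1 : MD.Y → F) ∈ MD.A k := MD.mono (Nat.zero_le k) MD.one

theorem tv_mem (hρ : PM q ρ) {t : ℕ} {χ : Fml p (Finset V)} (hT : Dep q (T χ) ρ t) :
    (ind (fun y => tv MD T y χ = true) : MD.Y → F) ∈ MD.A t := by
  have h1 := tree_mem MD hρ (T χ) ρ t (Finset.Subset.refl _) hT
  rw [Finset.sdiff_self, Finset.card_empty, Nat.zero_add] at h1
  have h2 : (ind (fun y => tv MD T y χ = true) : MD.Y → F) =
      ind (fun y => ρ ⊆ RR MD y ∧ (T χ).val (RR MD y) = true) := by
    apply ind_congr
    intro y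
    constructor
    · intro h
      exact ⟨rho_sub MD y, h⟩
    · intro h
      exact h.2
  rw [h2]
  exact h1

/-- From the degree of the instance to the degree of the value. -/
theorem vl_mem_of (hρ : PM q ρ) {t k : ℕ} {φ : Fml p (Finset V)}
    (hT : ∀ χ ∈ φ.insts, Dep q (T χ) ρ t)
    (h : ∀ χ, (ind (fun y => Fml.sv (tv MD T y) φ = χ) : MD.Y → F) ∈ MD.A k) :
    (ind (fun y => vl MD T y φ = true) : MD.Y → F) ∈ MD.A (k + t) := by
  classical
  have h1 : (ind (fun y => vl MD T y φ = true) : MD.Y → F) =
      ∑ χ ∈ φ.insts, ind (fun y => Fml.sv (tv MD T y) φ = χ) *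
        ind (fun y => tv MD T y χ = true) := by
    ext y
    rw [Finset.sum_apply, Finset.sum_eq_single (Fml.sv (tv MD T y) φ)]
    · rw [Pi.mul_apply, ind_pos (fun z => Fml.sv (tv MD T z) φ = Fml.sv (tv MD T y) φ) rfl,
        one_mul]
      rfl
    · intro χ hχ hne
      rw [Pi.mul_apply, ind_neg (fun z => Fml.sv (tv MD T z) φ = χ) (fun h => hne h.symm),
        zero_mul]
    · intro h
      exact absurd (Fml.sv_mem _ _) h
  rw [h1]
  refine Submodule.sum_mem _ fun χ hχ => ?_
  exact MD.mul (h χ) (tv_mem MD T hρ (hT χ hχ))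

theorem pow_mem_A {f : MD.Y → F} {k : ℕ} (hf : f ∈ MD.A k) (n : ℕ) : f ^ n ∈ MD.A (n * k) := by
  induction n with
  | zero => simpa using MD.one
  | succ n ih =>
    rw [pow_succ, Nat.succ_mul]
    exact MD.mul ih hf

theorem sub_mem_A {f g : MD.Y → F} {k : ℕ} (hf : f ∈ MD.A k) (hg : g ∈ MD.A k) :
    f - g ∈ MD.A k := Submodule.sub_mem _ hf hg

/-- The instance of a formula at a point is a function of low degree. -/
theorem sv_mem_A [Fact p.Prime] [CharP F p] (hρ : PM q ρ) {t : ℕ} (φ : Fml p (Finset V))
    (hT : ∀ ψ ∈ φ.subs, ∀ χ ∈ ψ.insts, Dep q (T χ) ρ t) :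
    ∀ χ, (ind (fun y => Fml.sv (tv MD T y) φ = χ) : MD.Y → F) ∈ MD.A (Fml.Fd t φ) := by
  classical
  induction φ with
  | var x =>
    intro χ
    by_cases h : χ = .var x
    · rw [ind_true (fun y => by rw [Fml.sv, h])]
      exact one_mem MD _
    · rw [ind_false (fun y => by rw [Fml.sv]; exact fun h' => h h'.symm)]
      exact Submodule.zero_mem _
  | neg φ ih =>
    intro χ
    rw [Fml.Fd]
    have hT' : ∀ ψ ∈ φ.subs, ∀ χ ∈ ψ.insts, Dep q (T χ) ρ t := fun ψ hψ =>
      hT ψ (Fml.subs_trans hψ (Fml.neg_mem_subs φ))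
    by_cases h : ∃ χ', χ = .neg χ'
    · obtain ⟨χ', rfl⟩ := h
      rw [ind_congr (Q := fun y => Fml.sv (tv MD T y) φ = χ') (fun y => by
        rw [Fml.sv]
        constructor
        · intro h; injection h
        · intro h; rw [h])]
      exact ih hT' χ'
    · rw [ind_false (fun y => by
        rw [Fml.sv]
        exact fun h' => h ⟨_, h'.symm⟩)]
      exact Submodule.zero_mem _
  | and k f ih =>
    intro χ
    rw [Fml.Fd]
    by_cases h : ∃ g, χ = .and k g
    · obtain ⟨g, rfl⟩ := h
      have h1 : (ind (fun y => Fml.sv (tv MD T y) (.and k f) = .and k g) : MD.Y → F) =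
          ∏ j, ind (fun y => Fml.sv (tv MD T y) (f j) = g j) := by
        ext y
        rw [Finset.prod_apply]
        by_cases h2 : ∀ j, Fml.sv (tv MD T y) (f j) = g j
        · rw [ind_pos (fun y => Fml.sv (tv MD T y) (.and k f) = .and k g)
            (by rw [Fml.sv]; congr 1; exact funext h2)]
          symm
          apply Finset.prod_eq_one
          intro j _
          exact ind_pos (fun y => Fml.sv (tv MD T y) (f j) = g j) (h2 j)
        · rw [ind_neg (fun y => Fml.sv (tv MD T y) (.and k f) = .and k g)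
            (by
              rw [Fml.sv]
              intro h3
              injection h3 with _ h3
              exact h2 fun j => congrFun h3 j)]
          symm
          push Not at h2
          obtain ⟨j, hj⟩ := h2
          exact Finset.prod_eq_zero (Finset.mem_univ j)
            (ind_neg (fun y => Fml.sv (tv MD T y) (f j) = g j) hj)
      rw [h1]
      exact prod_mem MD _ _ _ fun j _ => ih j (fun ψ hψ =>
        hT ψ (Fml.subs_trans hψ (Fml.and_mem_subs f j))) (g j)
    · rw [ind_false (fun y => by
        rw [Fml.sv]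
        exact fun h' => h ⟨_, h'.symm⟩)]
      exact Submodule.zero_mem _
  | or k f ih =>
    intro χ
    rw [Fml.Fd]
    by_cases h : ∃ g, χ = .or k g
    · obtain ⟨g, rfl⟩ := h
      have h1 : (ind (fun y => Fml.sv (tv MD T y) (.or k f) = .or k g) : MD.Y → F) =
          ∏ j, ind (fun y => Fml.sv (tv MD T y) (f j) = g j) := by
        ext y
        rw [Finset.prod_apply]
        by_cases h2 : ∀ j, Fml.sv (tv MD T y) (f j) = g j
        · rw [ind_pos (fun y => Fml.sv (tv MD T y) (.or k f) = .or k g)
            (by rw [Fml.sv]; congr 1; exact funext h2)]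
          symm
          apply Finset.prod_eq_one
          intro j _
          exact ind_pos (fun y => Fml.sv (tv MD T y) (f j) = g j) (h2 j)
        · rw [ind_neg (fun y => Fml.sv (tv MD T y) (.or k f) = .or k g)
            (by
              rw [Fml.sv]
              intro h3
              injection h3 with _ h3
              exact h2 fun j => congrFun h3 j)]
          symm
          push Not at h2
          obtain ⟨j, hj⟩ := h2
          exact Finset.prod_eq_zero (Finset.mem_univ j)
            (ind_neg (fun y => Fml.sv (tv MD T y) (f j) = g j) hj)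
      rw [h1]
      exact prod_mem MD _ _ _ fun j _ => ih j (fun ψ hψ =>
        hT ψ (Fml.subs_trans hψ (Fml.or_mem_subs f j))) (g j)
    · rw [ind_false (fun y => by
        rw [Fml.sv]
        exact fun h' => h ⟨_, h'.symm⟩)]
      exact Submodule.zero_mem _
  | mod i k f ih =>
    have hp : p.Prime := Fact.out
    rw [Fml.Fd]
    set m := Finset.univ.sup fun j => Fml.Fd t (f j) + t with hm
    have h1 : ∀ j, (ind (fun y => vl MD T y (f j) = true) : MD.Y → F) ∈ MD.A m := by
      intro j
      have h2 := vl_mem_of MD T hρ (hT (f j) (Fml.mod_mem_subs f j)) (ih j (fun ψ hψ =>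
        hT ψ (Fml.subs_trans hψ (Fml.mod_mem_subs f j))))
      refine MD.mono ?_ h2
      exact Finset.le_sup (f := fun j => Fml.Fd t (f j) + t) (Finset.mem_univ j)
    set σ : F →+* F := RingHom.id F with hσ
    set ci : F := ZMod.castHom (dvd_refl p) F i with hci
    have htt : (ind (fun y => Fml.sv (tv MD T y) (.mod i k f) = .tt) : MD.Y → F) =
        1 - (∑ j, (ind (fun y => vl MD T y (f j) = true) : MD.Y → F) - ci • 1) ^ (p - 1) := by
      ext y
      rw [Pi.sub_apply, Pi.pow_apply, Pi.sub_apply, Finset.sum_apply, Pi.smul_apply, Pi.one_apply,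
        smul_eq_mul, mul_one]
      have h2 : ∑ j, (ind (fun y => vl MD T y (f j) = true) y : F) =
          ZMod.castHom (dvd_refl p) F
            (∑ j, (if tv MD T y (Fml.sv (tv MD T y) (f j)) = true then (1 : ZMod p) else 0)) := by
        rw [map_sum]
        refine Finset.sum_congr rfl fun j _ => ?_
        unfold ind vl
        split_ifs <;> simp
      rw [h2, hci, ← map_sub, ← map_pow]
      by_cases h3 : (∑ j, (if tv MD T y (Fml.sv (tv MD T y) (f j)) = true
          then (1 : ZMod p) else 0)) = i
      · rw [ind_pos (fun y => Fml.sv (tv MD T y) (.mod i k f) = .tt)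
          (by rw [Fml.sv, if_pos h3]), h3, sub_self, zero_pow (by have := hp.two_le; omega),
          map_zero, sub_zero]
      · rw [ind_neg (fun y => Fml.sv (tv MD T y) (.mod i k f) = .tt)
          (by rw [Fml.sv, if_neg h3]; exact Fml.tt_ne_ff.symm),
          ZMod.pow_card_sub_one_eq_one (sub_ne_zero.2 h3), map_one, sub_self]
    have htt' : (ind (fun y => Fml.sv (tv MD T y) (.mod i k f) = .tt) : MD.Y → F) ∈
        MD.A ((p - 1) * m) := by
      rw [htt]
      refine sub_mem_A MD (one_mem MD _) (pow_mem_A MD ?_ _)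
      refine sub_mem_A MD (Submodule.sum_mem _ fun j _ => h1 j) ?_
      exact Submodule.smul_mem _ _ (one_mem MD _)
    intro χ
    by_cases hχ : χ = .tt
    · rw [hχ]; exact htt'
    · by_cases hχ' : χ = .ff
      · have h4 : (ind (fun y => Fml.sv (tv MD T y) (.mod i k f) = .ff) : MD.Y → F) =
            1 - ind (fun y => Fml.sv (tv MD T y) (.mod i k f) = .tt) := by
          ext y
          rw [Pi.sub_apply, Pi.one_apply]
          by_cases h3 : (∑ j, (if tv MD T y (Fml.sv (tv MD T y) (f j)) = true
              then (1 : ZMod p) else 0)) = i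
          · have h5 : Fml.sv (tv MD T y) (.mod i k f) = .tt := by rw [Fml.sv, if_pos h3]
            rw [ind_pos (fun y => Fml.sv (tv MD T y) (.mod i k f) = .tt) h5,
              ind_neg (fun y => Fml.sv (tv MD T y) (.mod i k f) = .ff)
                (by rw [h5]; exact Fml.tt_ne_ff), sub_self]
          · have h5 : Fml.sv (tv MD T y) (.mod i k f) = .ff := by rw [Fml.sv, if_neg h3]
            rw [ind_neg (fun y => Fml.sv (tv MD T y) (.mod i k f) = .tt)
                (by rw [h5]; exact Fml.tt_ne_ff.symm),
              ind_pos (fun y => Fml.sv (tv MD T y) (.mod i k f) = .ff) h5, sub_zero]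
        rw [hχ', h4]
        exact sub_mem_A MD (one_mem MD _) htt'
      · rw [ind_false (fun y => by
          rw [Fml.sv]
          split_ifs
          · exact fun h => hχ h.symm
          · exact fun h => hχ' h.symm)]
        exact Submodule.zero_mem _

theorem vl_mem [Fact p.Prime] [CharP F p] (hρ : PM q ρ) {t : ℕ} (φ : Fml p (Finset V))
    (hT : ∀ ψ ∈ φ.subs, ∀ χ ∈ ψ.insts, Dep q (T χ) ρ t) :
    (ind (fun y => vl MD T y φ = true) : MD.Y → F) ∈ MD.A (Fml.Fd t φ + t) :=
  vl_mem_of MD T hρ (hT φ (Fml.self_mem_subs φ)) (sv_mem_A MD T hρ φ hT)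

theorem vl_mem' [Fact p.Prime] [CharP F p] (hρ : PM q ρ) {t : ℕ} (φ : Fml p (Finset V))
    (hT : ∀ ψ ∈ φ.subs, ∀ χ ∈ ψ.insts, Dep q (T χ) ρ t) :
    (ind (fun y => vl MD T y φ = false) : MD.Y → F) ∈ MD.A (Fml.Fd t φ + t) := by
  have h1 : (ind (fun y => vl MD T y φ = false) : MD.Y → F) =
      1 - ind (fun y => vl MD T y φ = true) := by
    ext y
    rw [Pi.sub_apply, Pi.one_apply]
    by_cases h : vl MD T y φ = true
    · rw [ind_pos (fun y => vl MD T y φ = true) h, ind_neg (fun y => vl MD T y φ = false)
        (by simp [h]), sub_self]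
    · rw [ind_neg (fun y => vl MD T y φ = true) h, ind_pos (fun y => vl MD T y φ = false)
        (by simpa using h), sub_zero]
  rw [h1]
  exact sub_mem_A MD (one_mem MD _) (vl_mem MD T hρ φ hT)

end Pool.Agent.L0h36.BF
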